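import Pool.Agent.H51c.Count2

/-!
Generators of the shape `m + g α`, `α ∈ A ⊆ [0, w]`.
-/

set_option autoImplicit false

namespace Pool.Agent.H51c

/-- the set of generators -/
def SS (m g : ℕ) (A : Finset ℕ) : Finset ℕ := A.image fun α => m + g * α

/-- sums of `d` elements of `A` -/
def dA (A : Finset ℕ) : ℕ → Finset ℕ
  | 0 => {0}
  | d + 1 => (dA A d ×ˢ A).image fun x => x.1 + x.2

section Basic

variable {m g w : ℕ} {A : Finset ℕ}

theorem mem_SS {s : ℕ} : s ∈ SS m g A ↔ ∃ α ∈ A, s = m + g * α := by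
  rw [SS, Finset.mem_image]
  constructor
  · rintro ⟨α, h1, h2⟩; exact ⟨α, h1, h2.symm⟩
  · rintro ⟨α, h1, h2⟩; exact ⟨α, h1, h2.symm⟩

theorem mem_dA_zero {t : ℕ} : t ∈ dA A 0 ↔ t = 0 := by
  rw [dA, Finset.mem_singleton]

theorem mem_dA_succ {d t : ℕ} : t ∈ dA A (d + 1) ↔ ∃ t' ∈ dA A d, ∃ α ∈ A, t = t' + α := by
  rw [dA, Finset.mem_image]
  constructor
  · rintro ⟨⟨x, y⟩, h1, h2⟩
    rw [Finset.mem_product] at h1
    exact ⟨x, h1.1, y, h1.2, h2.symm⟩
  · rintro ⟨x, h1, y, h2, h3⟩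
    exact ⟨(x, y), Finset.mem_product.2 ⟨h1, h2⟩, h3.symm⟩

theorem dA_add {d e t u : ℕ} (ht : t ∈ dA A d) (hu : u ∈ dA A e) : t + u ∈ dA A (d + e) := by
  induction e generalizing u with
  | zero =>
    rw [mem_dA_zero] at hu
    subst hu
    exact ht
  | succ e ih =>
    rw [mem_dA_succ] at hu
    obtain ⟨u', hu', α, hα, rfl⟩ := hu
    rw [← add_assoc, ← add_assoc, mem_dA_succ]
    exact ⟨t + u', ih hu', α, hα, rfl⟩

theorem dA_mem {d t : ℕ} (ht : t ∈ dA A d) : d * m + g * t ∈ Gm (SS m g A) := by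
  induction d generalizing t with
  | zero =>
    rw [mem_dA_zero] at ht
    subst ht
    simp
  | succ d ih =>
    rw [mem_dA_succ] at ht
    obtain ⟨t', ht', α, hα, rfl⟩ := ht
    have h1 : (d + 1) * m + g * (t' + α) = (d * m + g * t') + (m + g * α) := by ring
    rw [h1]
    exact (Gm (SS m g A)).add_mem (ih ht') (mem_Gm_of_mem (mem_SS.2 ⟨α, hα, rfl⟩))

theorem exists_dA {s : ℕ} (hs : s ∈ Gm (SS m g A)) : ∃ d t, t ∈ dA A d ∧ s = d * m + g * t := by
  induction hs using AddSubmonoid.closure_induction with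
  | mem x hx =>
    rw [Finset.mem_coe, mem_SS] at hx
    obtain ⟨α, hα, rfl⟩ := hx
    refine ⟨1, α, ?_, by ring⟩
    rw [mem_dA_succ]
    exact ⟨0, mem_dA_zero.2 rfl, α, hα, by ring⟩
  | zero => exact ⟨0, 0, mem_dA_zero.2 rfl, by ring⟩
  | add x y _ _ hx hy =>
    obtain ⟨d, t, h1, h2⟩ := hx
    obtain ⟨e, u, h3, h4⟩ := hy
    exact ⟨d + e, t + u, dA_add h1 h3, by rw [h2, h4]; ring⟩

theorem dA_le (hle : ∀ α ∈ A, α ≤ w) {d t : ℕ} (ht : t ∈ dA A d) : t ≤ d * w := by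
  induction d generalizing t with
  | zero =>
    rw [mem_dA_zero] at ht
    omega
  | succ d ih =>
    rw [mem_dA_succ] at ht
    obtain ⟨t', ht', α, hα, rfl⟩ := ht
    have h1 := ih ht'
    have h2 := hle α hα
    have h3 : (d + 1) * w = d * w + w := by ring
    omega

/-- non holes columns contain only `0` and the generators -/
theorem col_nonhole (h0 : 0 ∈ A) (hw : w ∈ A) {d t s : ℕ} (hw1 : 0 < w) (hs : s = d * m + g * t)
    (ht : t ≤ d * w) (hE : Ein (SS m g A) m (m + g * w) s) (hr : t % w ∈ A) :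
    s = 0 ∨ s ∈ SS m g A := by
  set r := t % w with hrdef
  set J := t / w with hJdef
  have htJ : t = r + J * w := by rw [hrdef, hJdef, mul_comm]; exact (Nat.mod_add_div t w).symm
  have hp : m ∈ SS m g A := mem_SS.2 ⟨0, h0, by ring⟩
  have hq : m + g * w ∈ SS m g A := mem_SS.2 ⟨w, hw, rfl⟩
  have hpk : ∀ k : ℕ, k * m ∈ Gm (SS m g A) := fun k => by
    rw [← smul_eq_mul]; exact (Gm (SS m g A)).nsmul_mem (mem_Gm_of_mem hp) k
  have hqk : ∀ k : ℕ, k * (m + g * w) ∈ Gm (SS m g A) := fun k => by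
    rw [← smul_eq_mul]; exact (Gm (SS m g A)).nsmul_mem (mem_Gm_of_mem hq) k
  by_cases hr0 : r = 0
  · have hJd : J ≤ d := by
      by_contra hc
      push Not at hc
      have : (d + 1) * w ≤ J * w := Nat.mul_le_mul_right w hc
      have h2 : (d + 1) * w = d * w + w := by ring
      omega
    obtain ⟨e, rfl⟩ := Nat.exists_eq_add_of_le hJd
    have hs2 : s = e * m + J * (m + g * w) := by
      rw [hs, htJ, hr0]; ring
    by_cases he : e = 0
    · by_cases hJ : J = 0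
      · left
        rw [hs2, he, hJ]; ring
      · exfalso
        obtain ⟨J', hJ'⟩ := Nat.exists_eq_succ_of_ne_zero hJ
        apply hE.2.2
        exact ⟨e * m + J' * (m + g * w), (Gm _).add_mem (hpk _) (hqk _), by
          rw [hs2, hJ']; simp only [Nat.succ_eq_add_one]; ring⟩
    · exfalso
      obtain ⟨e', he'⟩ := Nat.exists_eq_succ_of_ne_zero he
      apply hE.2.1
      exact ⟨e' * m + J * (m + g * w), (Gm _).add_mem (hpk _) (hqk _), by
          rw [hs2, he']; simp only [Nat.succ_eq_add_one]; ring⟩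
  · have hJd : J + 1 ≤ d := by
      by_contra hc
      push Not at hc
      have : d * w ≤ J * w := Nat.mul_le_mul_right w (by omega)
      omega
    obtain ⟨e, rfl⟩ := Nat.exists_eq_add_of_le hJd
    have hmr : m + g * r ∈ SS m g A := mem_SS.2 ⟨r, hr, rfl⟩
    have hs2 : s = (m + g * r) + (e * m + J * (m + g * w)) := by
      rw [hs, htJ]; ring
    by_cases he : e = 0
    · by_cases hJ : J = 0
      · right
        rw [hs2, he, hJ]
        simpa using hmr
      · exfalso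
        obtain ⟨J', hJ'⟩ := Nat.exists_eq_succ_of_ne_zero hJ
        apply hE.2.2
        exact ⟨(m + g * r) + (e * m + J' * (m + g * w)),
          (Gm _).add_mem (mem_Gm_of_mem hmr) ((Gm _).add_mem (hpk _) (hqk _)), by
          rw [hs2, hJ']; simp only [Nat.succ_eq_add_one]; ring⟩
    · exfalso
      obtain ⟨e', he'⟩ := Nat.exists_eq_succ_of_ne_zero he
      apply hE.2.1
      exact ⟨(m + g * r) + (e' * m + J * (m + g * w)),
          (Gm _).add_mem (mem_Gm_of_mem hmr) ((Gm _).add_mem (hpk _) (hqk _)), by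
          rw [hs2, he']; simp only [Nat.succ_eq_add_one]; ring⟩

/-- the holes -/
def Hol (A : Finset ℕ) (w : ℕ) : Finset ℕ := (Finset.range w).filter fun r => r ∉ A

theorem mem_Hol {r : ℕ} : r ∈ Hol A w ↔ r < w ∧ r ∉ A := by
  rw [Hol, Finset.mem_filter, Finset.mem_range]

/-- sum of two middle generators in the double Apery set -/
theorem pair_hole (hm : 0 < m) (h0 : 0 ∈ A) (hw : w ∈ A) (hw1 : 0 < w)
    (hle : ∀ α ∈ A, α ≤ w)
    (hmin : ∀ a ∈ SS m g A, a ∉ AddSubmonoid.closure (((SS m g A).erase a : Finset ℕ) : Set ℕ))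
    {α β : ℕ} (hα : α ∈ A) (hβ : β ∈ A)
    (hE : Ein (SS m g A) m (m + g * w) ((m + g * α) + (m + g * β))) :
    (α + β) % w ∈ Hol A w := by
  rw [mem_Hol]
  refine ⟨Nat.mod_lt _ hw1, fun hc => ?_⟩
  have h1 := hle α hα
  have h2 := hle β hβ
  have hpos : 0 ∉ SS m g A := by
    rw [mem_SS]
    rintro ⟨x, _, hx⟩
    omega
  rcases col_nonhole (d := 2) (t := α + β) h0 hw hw1 (by ring) (by omega) hE hc with h | h
  · omega
  · have := gen_indec hpos hmin h (mem_SS.2 ⟨α, hα, rfl⟩)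
      (mem_Gm_of_mem (mem_SS.2 ⟨β, hβ, rfl⟩)) rfl
    omega

/-- the number of admissible vertices is at most the number of holes -/
theorem NF_card_le_holes (hm : 0 < m) (hg : 0 < g) (h0 : 0 ∈ A) (hw : w ∈ A) (hw1 : 0 < w)
    (hle : ∀ α ∈ A, α ≤ w)
    (hmin : ∀ a ∈ SS m g A, a ∉ AddSubmonoid.closure (((SS m g A).erase a : Finset ℕ) : Set ℕ))
    {s : ℕ} (hE : Ein (SS m g A) m (m + g * w) s) (hs0 : s ≠ 0) (hsS : s ∉ SS m g A) :
    (NF (SS m g A) m (m + g * w) s).card ≤ (Hol A w).card := by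
  have hp : m ∈ SS m g A := mem_SS.2 ⟨0, h0, by ring⟩
  have hq : m + g * w ∈ SS m g A := mem_SS.2 ⟨w, hw, rfl⟩
  obtain ⟨b, hb, c, hc, z, hz, hs⟩ := HF_two hE hs0 hsS
  obtain ⟨β, hβ, rfl⟩ := mem_SS.1 hb
  apply Finset.card_le_card_of_forall_subsingleton
    (fun a ρ => ∃ α ∈ A, a = m + g * α ∧ (α + β) % w = ρ)
  · intro a ha
    obtain ⟨α, hα, haα⟩ := mem_SS.1 (mem_Sm.1 (NF_sub ha)).2.2
    have h1 := (NF_swap hp hq ha hc ((Gm _).add_mem (mem_Gm_of_mem hb) hz)
      (by omega : s = c + ((m + g * β) + z))).2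
    rw [← add_assoc] at h1
    have haG : a ∈ Gm (SS m g A) := mem_Gm_of_mem (mem_Sm.1 (NF_sub ha)).2.2
    have h2 := Ein_left ((Gm _).add_mem haG (mem_Gm_of_mem hb)) hz h1
    rw [haα] at h2
    exact ⟨_, pair_hole hm h0 hw hw1 hle hmin hα hβ h2, α, hα, haα, rfl⟩
  · rintro ρ _ a1 ⟨ha1, α1, hα1, h1, h1'⟩ a2 ⟨ha2, α2, hα2, h2, h2'⟩
    have e1 := mem_Sm.1 (NF_sub ha1)
    have e2 := mem_Sm.1 (NF_sub ha2)
    have f1 : α1 < w := by
      refine lt_of_le_of_ne (hle _ hα1) ?_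
      rintro rfl
      exact e1.1 h1
    have f2 : α2 < w := by
      refine lt_of_le_of_ne (hle _ hα2) ?_
      rintro rfl
      exact e2.1 h2
    have h3 : α1 ≡ α2 [MOD w] := Nat.ModEq.add_right_cancel' β (h1'.trans h2'.symm)
    have h4 : α1 = α2 := by
      have := h3
      rw [Nat.ModEq, Nat.mod_eq_of_lt f1, Nat.mod_eq_of_lt f2] at this
      exact this
    rw [h1, h2, h4]

end Basic

end Pool.Agent.H51c
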