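import Pool.Agent.H51c.Arith

/-!
Bounding the double Apery set by columns.
-/

set_option autoImplicit false

namespace Pool.Agent.H51c

open scoped Pointwise

section Column

variable {m g w : ℕ} {A : Finset ℕ}

/-- the reduction of `A` -/
def Ab (A : Finset ℕ) (w : ℕ) : Finset (ZMod w) := A.image fun x : ℕ => (x : ZMod w)

/-- iterated sums of the reduction -/
def Bs (A : Finset ℕ) (w : ℕ) : ℕ → Finset (ZMod w)
  | 0 => {0}
  | d + 1 => Bs A w d + Ab A w

theorem mem_Bs_iff {d : ℕ} {x : ZMod w} : x ∈ Bs A w d ↔ ∃ t ∈ dA A d, (t : ZMod w) = x := by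
  induction d generalizing x with
  | zero =>
    rw [Bs, Finset.mem_singleton]
    constructor
    · rintro rfl
      exact ⟨0, mem_dA_zero.2 rfl, by simp⟩
    · rintro ⟨t, ht, rfl⟩
      rw [mem_dA_zero] at ht
      subst ht
      simp
  | succ d ih =>
    rw [Bs, Finset.mem_add]
    constructor
    · rintro ⟨y, hy, z, hz, rfl⟩
      obtain ⟨t, ht, rfl⟩ := ih.1 hy
      rw [Ab, Finset.mem_image] at hz
      obtain ⟨α, hα, rfl⟩ := hz
      exact ⟨t + α, mem_dA_succ.2 ⟨t, ht, α, hα, rfl⟩, by push_cast; ring⟩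
    · rintro ⟨t, ht, rfl⟩
      obtain ⟨t', ht', α, hα, rfl⟩ := mem_dA_succ.1 ht
      exact ⟨t', ih.2 ⟨t', ht', rfl⟩, α, Finset.mem_image.2 ⟨α, hα, rfl⟩, by push_cast; ring⟩

theorem mod_eq_of_cast {t r : ℕ} (hr : r < w) (h : (t : ZMod w) = (r : ZMod w)) : t % w = r := by
  have h1 := (ZMod.natCast_eq_natCast_iff' t r w).1 h
  rw [h1, Nat.mod_eq_of_lt hr]

/-- comparison of two elements in the same column -/
theorem compare {d1 d2 J1 J2 r s1 s2 : ℕ} (h0 : 0 ∈ A) (hw : w ∈ A)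
    (h1 : s1 = d1 * m + g * (r + J1 * w)) (h2 : s2 = d2 * m + g * (r + J2 * w))
    (hd1 : J1 < d1) (hd2 : J2 < d2) (hs1 : s1 ∈ Gm (SS m g A))
    (hs2 : Ein (SS m g A) m (m + g * w) s2) (hJ : J1 ≤ J2) (hu : d1 - 1 - J1 ≤ d2 - 1 - J2) :
    J1 = J2 ∧ d1 = d2 := by
  have hp : m ∈ SS m g A := mem_SS.2 ⟨0, h0, by ring⟩
  have hq : m + g * w ∈ SS m g A := mem_SS.2 ⟨w, hw, rfl⟩
  have hpk : ∀ k : ℕ, k * m ∈ Gm (SS m g A) := fun k => by
    rw [← smul_eq_mul]; exact (Gm (SS m g A)).nsmul_mem (mem_Gm_of_mem hp) k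
  have hqk : ∀ k : ℕ, k * (m + g * w) ∈ Gm (SS m g A) := fun k => by
    rw [← smul_eq_mul]; exact (Gm (SS m g A)).nsmul_mem (mem_Gm_of_mem hq) k
  obtain ⟨e, he⟩ := Nat.exists_eq_add_of_le hJ
  obtain ⟨f, hf⟩ := Nat.exists_eq_add_of_le hu
  have hd : d2 = d1 + f + e := by omega
  have key : s2 = s1 + (f * m + e * (m + g * w)) := by
    rw [h2, h1, hd, he]; ring
  by_cases he0 : e = 0
  · by_cases hf0 : f = 0
    · omega
    · exfalso
      obtain ⟨f', hf'⟩ := Nat.exists_eq_succ_of_ne_zero hf0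
      apply hs2.2.1
      exact ⟨s1 + (f' * m + e * (m + g * w)), (Gm _).add_mem hs1 ((Gm _).add_mem (hpk _) (hqk _)),
        by rw [key, hf']; simp only [Nat.succ_eq_add_one]; ring⟩
  · exfalso
    obtain ⟨e', he'⟩ := Nat.exists_eq_succ_of_ne_zero he0
    apply hs2.2.2
    exact ⟨s1 + (f * m + e' * (m + g * w)), (Gm _).add_mem hs1 ((Gm _).add_mem (hpk _) (hqk _)),
        by rw [key, he']; simp only [Nat.succ_eq_add_one]; ring⟩

/-- the total number of non generators in the double Apery set is bounded by the sum of the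
lengths of the holes -/
theorem HF_card_le (h0 : 0 ∈ A) (hw : w ∈ A) (hw1 : 0 < w) (hle : ∀ α ∈ A, α ≤ w) {K L : ℕ}
    (hK : ∀ s, K ≤ s → Dv (SS m g A) (m + (m + g * w)) s)
    (hL : ∀ r ∈ Hol A w, (r : ZMod w) ∈ Bs A w L) :
    (HF (SS m g A) m (m + g * w) K).card
      ≤ ∑ i ∈ Finset.range L, ((Hol A w).filter fun r : ℕ => (r : ZMod w) ∉ Bs A w i).card := by
  classical
  have hp : m ∈ SS m g A := mem_SS.2 ⟨0, h0, by ring⟩
  have hq : m + g * w ∈ SS m g A := mem_SS.2 ⟨w, hw, rfl⟩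
  -- minimal lengths
  have hex : ∀ r : ℕ, ∃ D t : ℕ, r ∈ Hol A w → (t ∈ dA A D ∧ (t : ZMod w) = (r : ZMod w) ∧
      D ≤ L ∧ ∀ i < D, (r : ZMod w) ∉ Bs A w i) := by
    intro r
    by_cases hr : r ∈ Hol A w
    · have hD : ∃ d, (r : ZMod w) ∈ Bs A w d := ⟨L, hL r hr⟩
      obtain ⟨t, ht1, ht2⟩ := mem_Bs_iff.1 (Nat.find_spec hD)
      exact ⟨Nat.find hD, t, fun _ => ⟨ht1, ht2, Nat.find_min' hD (hL r hr),
        fun i hi => Nat.find_min hD hi⟩⟩
    · exact ⟨0, 0, fun h => absurd h hr⟩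
  choose D T hDT using hex
  rw [← Finset.card_sigma]
  apply Finset.card_le_card_of_forall_subsingleton
    (fun s (z : Σ _ : ℕ, ℕ) => ∃ d t, t ∈ dA A d ∧ s = d * m + g * t ∧ t % w = z.2 ∧
      z.1 = if t / w ≤ T z.2 / w then t / w else D z.2 - 1 - (d - 1 - t / w))
  · intro s hs
    obtain ⟨hE, hs0, hsS⟩ := (mem_HF hK hp hq).1 hs
    obtain ⟨d, t, ht, hst⟩ := exists_dA hE.1
    have htw := dA_le hle ht
    have hrA : t % w ∉ A := by
      intro hc
      rcases col_nonhole h0 hw hw1 hst htw hE hc with h | h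
      · exact hs0 h
      · exact hsS h
    have hrH : t % w ∈ Hol A w := mem_Hol.2 ⟨Nat.mod_lt _ hw1, hrA⟩
    obtain ⟨hT1, hT2, hDL, hDm⟩ := hDT _ hrH
    have hr0 : t % w ≠ 0 := fun h => hrA (h ▸ h0)
    have hTmod : T (t % w) % w = t % w := mod_eq_of_cast (Nat.mod_lt _ hw1) hT2
    have hTle := dA_le hle hT1
    have hTlt : T (t % w) / w < D (t % w) := by
      by_contra hc
      push Not at hc
      have e1 := Nat.mul_le_mul_left w hc
      have e2 := Nat.div_add_mod (T (t % w)) w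
      rw [mul_comm] at e1
      omega
    refine ⟨⟨if t / w ≤ T (t % w) / w then t / w else D (t % w) - 1 - (d - 1 - t / w), t % w⟩,
      ?_, d, t, ht, hst, rfl, rfl⟩
    rw [Finset.mem_sigma]
    simp only
    have hlt : (if t / w ≤ T (t % w) / w then t / w else D (t % w) - 1 - (d - 1 - t / w))
        < D (t % w) := by
      have hD1 : 0 < D (t % w) := lt_of_le_of_lt (Nat.zero_le _) hTlt
      split_ifs with h
      · exact lt_of_le_of_lt h hTlt
      · omega
    rw [Finset.mem_range, Finset.mem_filter]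
    exact ⟨lt_of_lt_of_le hlt hDL, hrH, hDm _ hlt⟩
  · rintro ⟨i, r⟩ hz s1 ⟨hs1, d1, t1, ht1, hst1, hr1, hi1⟩ s2 ⟨hs2, d2, t2, ht2, hst2, hr2, hi2⟩
    simp only at hr1 hi1 hr2 hi2
    rw [Finset.mem_sigma, Finset.mem_filter] at hz
    have hrH : r ∈ Hol A w := hz.2.1
    obtain ⟨hT1, hT2, hDL, hDm⟩ := hDT _ hrH
    have hrw : r < w := (mem_Hol.1 hrH).1
    have hr0 : r ≠ 0 := fun h => (mem_Hol.1 hrH).2 (h ▸ h0)
    have hTmod : T r % w = r := mod_eq_of_cast hrw hT2
    have hlt : ∀ d t, t ≤ d * w → t % w = r → t / w < d := by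
      intro d t h1 h2
      by_contra hc
      push Not at hc
      have e1 := Nat.mul_le_mul_left w hc
      have e2 := Nat.div_add_mod t w
      rw [mul_comm] at e1
      omega
    have hTlt := hlt _ _ (dA_le hle hT1) hTmod
    have hlt1 := hlt _ _ (dA_le hle ht1) hr1
    have hlt2 := hlt _ _ (dA_le hle ht2) hr2
    have hform : ∀ t, t % w = r → t = r + (t / w) * w := by
      intro t h
      have := Nat.mod_add_div t w
      rw [h, mul_comm] at this
      exact this.symm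
    have hE1 := ((mem_HF hK hp hq).1 hs1).1
    have hE2 := ((mem_HF hK hp hq).1 hs2).1
    have hsr : D r * m + g * T r ∈ Gm (SS m g A) := dA_mem hT1
    have cmpr : ∀ d t s, t % w = r → t / w < d → s = d * m + g * t →
        Ein (SS m g A) m (m + g * w) s → T r / w ≤ t / w → D r - 1 - T r / w ≤ d - 1 - t / w →
        T r / w = t / w ∧ D r = d := by
      intro d t s h1 h2 h3 h4 h5 h6
      exact compare h0 hw (s1 := D r * m + g * T r) (by rw [← hform (T r) hTmod])
        (by rw [← hform t h1]; exact h3) hTlt h2 hsr h4 h5 h6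
    have cmp12 : ∀ d t d' t' s s', t % w = r → t / w < d → s = d * m + g * t →
        Ein (SS m g A) m (m + g * w) s → t' % w = r → t' / w < d' → s' = d' * m + g * t' →
        Ein (SS m g A) m (m + g * w) s' → t / w ≤ t' / w → d - 1 - t / w ≤ d' - 1 - t' / w →
        s = s' := by
      intro d t d' t' s s' h1 h2 h3 h4 h1' h2' h3' h4' h5 h6
      obtain ⟨e1, e2⟩ := compare h0 hw (s1 := s) (s2 := s') (by rw [← hform t h1]; exact h3)
        (by rw [← hform t' h1']; exact h3') h2 h2' h4.1 h4' h5 h6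
      rw [h3, h3', e2, hform t h1, hform t' h1', e1]
    have n1 := Nat.zero_le (t1 / w)
    have n2 := Nat.zero_le (t2 / w)
    have n3 := Nat.zero_le (T r / w)
    by_cases c1 : t1 / w ≤ T r / w
    · by_cases c2 : t2 / w ≤ T r / w
      · rw [if_pos c1] at hi1
        rw [if_pos c2] at hi2
        rcases le_total (d1 - 1 - t1 / w) (d2 - 1 - t2 / w) with h | h
        · exact cmp12 _ _ _ _ _ _ hr1 hlt1 hst1 hE1 hr2 hlt2 hst2 hE2 (by omega) h
        · exact (cmp12 _ _ _ _ _ _ hr2 hlt2 hst2 hE2 hr1 hlt1 hst1 hE1 (by omega) h).symm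
      · exfalso
        rw [if_pos c1] at hi1
        rw [if_neg c2] at hi2
        by_cases c3 : D r - 1 - T r / w ≤ d2 - 1 - t2 / w
        · have := cmpr _ _ _ hr2 hlt2 hst2 hE2 (by omega) c3
          omega
        · omega
    · by_cases c2 : t2 / w ≤ T r / w
      · exfalso
        rw [if_neg c1] at hi1
        rw [if_pos c2] at hi2
        by_cases c3 : D r - 1 - T r / w ≤ d1 - 1 - t1 / w
        · have := cmpr _ _ _ hr1 hlt1 hst1 hE1 (by omega) c3
          omega
        · omega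
      · rw [if_neg c1] at hi1
        rw [if_neg c2] at hi2
        have c3 : ¬ D r - 1 - T r / w ≤ d1 - 1 - t1 / w := by
          intro c3
          have := cmpr _ _ _ hr1 hlt1 hst1 hE1 (by omega) c3
          omega
        have c4 : ¬ D r - 1 - T r / w ≤ d2 - 1 - t2 / w := by
          intro c4
          have := cmpr _ _ _ hr2 hlt2 hst2 hE2 (by omega) c4
          omega
        have c5 : d1 - 1 - t1 / w = d2 - 1 - t2 / w := by omega
        rcases le_total (t1 / w) (t2 / w) with h | h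
        · exact cmp12 _ _ _ _ _ _ hr1 hlt1 hst1 hE1 hr2 hlt2 hst2 hE2 h (by omega)
        · exact (cmp12 _ _ _ _ _ _ hr2 hlt2 hst2 hE2 hr1 hlt1 hst1 hE1 h (by omega)).symm

end Column

end Pool.Agent.H51c
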