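import Pool.Agent.H51c.Graph

/-!
Counting the classes of the factorization graphs that avoid two given generators.
-/

set_option autoImplicit false

namespace Pool.Agent.H51c

open MvPolynomial

/-- elements of the semigroup from which neither `p` nor `q` can be subtracted -/
def Ein (S : Finset ℕ) (p q s : ℕ) : Prop := s ∈ Gm S ∧ ¬ Dv S p s ∧ ¬ Dv S q s

/-- vertices whose class avoids `p` and `q` -/
def Av (S : Finset ℕ) (p q s a : ℕ) : Prop :=
  a ∈ S ∧ Dv S a s ∧ ¬ Conn S s a p ∧ ¬ Conn S s a q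

section Lemmas

variable {S : Finset ℕ} {p q : ℕ}

theorem gen_indec (hpos : 0 ∉ S)
    (hmin : ∀ a ∈ S, a ∉ AddSubmonoid.closure ((S.erase a : Finset ℕ) : Set ℕ))
    {a b y : ℕ} (ha : a ∈ S) (hb : b ∈ S) (hy : y ∈ Gm S) (h : a = b + y) : y = 0 := by
  by_contra hy0
  have hb0 : b ≠ 0 := fun h => hpos (h ▸ hb)
  have key : ∀ x ∈ Gm S, x < a → x ∈ AddSubmonoid.closure ((S.erase a : Finset ℕ) : Set ℕ) := by
    intro x hx
    induction hx using AddSubmonoid.closure_induction with
    | mem x hx =>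
      intro hlt
      exact AddSubmonoid.subset_closure (by
        rw [Finset.mem_coe, Finset.mem_erase]
        exact ⟨by omega, hx⟩)
    | zero => intro _; exact AddSubmonoid.zero_mem _
    | add x y _ _ hx hy =>
      intro hlt
      exact AddSubmonoid.add_mem _ (hx (by omega)) (hy (by omega))
  apply hmin a ha
  have h1 := key b (mem_Gm_of_mem hb) (by omega)
  have h2 := key y hy (by omega)
  rw [h]
  have := AddSubmonoid.add_mem _ h1 h2
  rw [← h] at this ⊢
  exact this

theorem Av_conn {s a b : ℕ} (h : Av S p q s a) (hab : Conn S s a b) : Av S p q s b := by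
  obtain ⟨h1, h2, h3, h4⟩ := h
  obtain ⟨h5, h6⟩ := Conn_vertex hab h1 h2
  exact ⟨h5, h6, fun h => h3 (Conn_trans hab h), fun h => h4 (Conn_trans hab h)⟩

theorem Av_ne {s a : ℕ} (h : Av S p q s a) : a ≠ p ∧ a ≠ q := by
  obtain ⟨h1, h2, h3, h4⟩ := h
  exact ⟨fun h => h3 (h ▸ Conn_refl), fun h => h4 (h ▸ Conn_refl)⟩

theorem Av_mem {s' a : ℕ} (h : Av S p q (a + s') a) : s' ∈ Gm S := by
  obtain ⟨h1, ⟨γ, hγ, h2⟩, h3, h4⟩ := h
  have : s' = γ := by omega
  rwa [this]

theorem Av_Ein (hp : p ∈ S) (hq : q ∈ S) {s' a : ℕ} (h : Av S p q (a + s') a) :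
    Ein S p q s' := by
  refine ⟨Av_mem h, fun hd => ?_, fun hd => ?_⟩
  · exact h.2.2.1 (Conn_of_Adj ⟨h.1, hp, Dv_add_left_iff.2 hd⟩)
  · exact h.2.2.2 (Conn_of_Adj ⟨h.1, hq, Dv_add_left_iff.2 hd⟩)

theorem Ein_left {x y : ℕ} (hx : x ∈ Gm S) (hy : y ∈ Gm S) (h : Ein S p q (x + y)) :
    Ein S p q x :=
  ⟨hx, fun hd => h.2.1 (Dv_mono hy hd), fun hd => h.2.2 (Dv_mono hy hd)⟩

theorem Ein_right {x y : ℕ} (hx : x ∈ Gm S) (hy : y ∈ Gm S) (h : Ein S p q (x + y)) :
    Ein S p q y := by
  rw [add_comm] at h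
  exact Ein_left hy hx h

end Lemmas

section Finsets

open Classical in
/-- the finite set of elements of the double Apery set -/
noncomputable def EF (S : Finset ℕ) (p q K : ℕ) : Finset ℕ := (Finset.range K).filter (Ein S p q)

open Classical in
/-- elements divisible by `p` and `q` but not by `p + q` -/
noncomputable def MF (S : Finset ℕ) (p q K : ℕ) : Finset ℕ :=
  (Finset.range K).filter fun s => Dv S p s ∧ Dv S q s ∧ ¬ Dv S (p + q) s

/-- the middle generators -/
def Sm (S : Finset ℕ) (p q : ℕ) : Finset ℕ := (S.erase p).erase q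

open Classical in
/-- smallest elements of classes -/
noncomputable def X1 (S : Finset ℕ) (p q s' : ℕ) : Finset ℕ :=
  (Sm S p q).filter fun a => Av S p q (a + s') a ∧ ∀ b, Conn S (a + s') a b → a ≤ b

open Classical in
/-- largest elements of classes -/
noncomputable def X2 (S : Finset ℕ) (p q s' : ℕ) : Finset ℕ :=
  (Sm S p q).filter fun a => Av S p q (a + s') a ∧ ∀ b, Conn S (a + s') a b → b ≤ a

/-- the classes avoiding `p` and `q` -/
noncomputable def ZF (S : Finset ℕ) (p q K : ℕ) : Finset (Σ _ : ℕ, ℕ) :=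
  (EF S p q K).sigma fun s' => X1 S p q s'

/-- the classes avoiding `p` and `q`, via largest elements -/
noncomputable def ZF2 (S : Finset ℕ) (p q K : ℕ) : Finset (Σ _ : ℕ, ℕ) :=
  (EF S p q K).sigma fun s' => X2 S p q s'

open Classical in
/-- base vertex -/
noncomputable def base (S : Finset ℕ) (p q s : ℕ) : ℕ :=
  if Dv S p s then p else if Dv S q s then q else sInf {a | a ∈ S ∧ Dv S a s}

variable {S : Finset ℕ} {p q K : ℕ}

theorem mem_Sm {a : ℕ} : a ∈ Sm S p q ↔ a ≠ q ∧ a ≠ p ∧ a ∈ S := by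
  rw [Sm, Finset.mem_erase, Finset.mem_erase]

theorem mem_EF (hK : ∀ s, K ≤ s → Dv S (p + q) s) (hp : p ∈ S) (hq : q ∈ S) {s : ℕ} :
    s ∈ EF S p q K ↔ Ein S p q s := by
  classical
  rw [EF, Finset.mem_filter, Finset.mem_range]
  constructor
  · exact fun h => h.2
  · intro h
    refine ⟨?_, h⟩
    by_contra hc
    push Not at hc
    exact h.2.1 (Dv_trans (mem_Gm_of_mem hq) (hK s hc))

theorem mem_MF (hK : ∀ s, K ≤ s → Dv S (p + q) s) {s : ℕ} :
    s ∈ MF S p q K ↔ Dv S p s ∧ Dv S q s ∧ ¬ Dv S (p + q) s := by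
  classical
  rw [MF, Finset.mem_filter, Finset.mem_range]
  constructor
  · exact fun h => h.2
  · intro h
    refine ⟨?_, h⟩
    by_contra hc
    push Not at hc
    exact h.2.2 (hK s hc)

theorem mem_X1 {s' a : ℕ} : a ∈ X1 S p q s' ↔
    Av S p q (a + s') a ∧ ∀ b, Conn S (a + s') a b → a ≤ b := by
  classical
  rw [X1, Finset.mem_filter, mem_Sm]
  constructor
  · exact fun h => h.2
  · intro h
    have := Av_ne h.1
    exact ⟨⟨this.2, this.1, h.1.1⟩, h⟩

theorem mem_X2 {s' a : ℕ} : a ∈ X2 S p q s' ↔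
    Av S p q (a + s') a ∧ ∀ b, Conn S (a + s') a b → b ≤ a := by
  classical
  rw [X2, Finset.mem_filter, mem_Sm]
  constructor
  · exact fun h => h.2
  · intro h
    have := Av_ne h.1
    exact ⟨⟨this.2, this.1, h.1.1⟩, h⟩

theorem X1_sub {s' : ℕ} : X1 S p q s' ⊆ Sm S p q := by
  classical
  exact Finset.filter_subset _ _

theorem X2_sub {s' : ℕ} : X2 S p q s' ⊆ Sm S p q := by
  classical
  exact Finset.filter_subset _ _

theorem mem_ZF {z : Σ _ : ℕ, ℕ} : z ∈ ZF S p q K ↔ z.1 ∈ EF S p q K ∧ z.2 ∈ X1 S p q z.1 := by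
  rw [ZF, Finset.mem_sigma]

theorem mem_ZF2 {z : Σ _ : ℕ, ℕ} : z ∈ ZF2 S p q K ↔ z.1 ∈ EF S p q K ∧ z.2 ∈ X2 S p q z.1 := by
  rw [ZF2, Finset.mem_sigma]

theorem base_spec (hp : p ∈ S) (hq : q ∈ S) {s : ℕ} (hs : s ∈ Gm S) (h0 : s ≠ 0) :
    base S p q s ∈ S ∧ Dv S (base S p q s) s := by
  rw [base]
  split_ifs with h1 h2
  · exact ⟨hp, h1⟩
  · exact ⟨hq, h2⟩
  · have : (sInf {a | a ∈ S ∧ Dv S a s}) ∈ {a | a ∈ S ∧ Dv S a s} :=
      Nat.sInf_mem (exists_dvd hs h0)
    exact this

/-- the main upper bound -/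
theorem spanRank_le_aux (hpos : 0 ∉ S) (hp : p ∈ S) (hq : q ∈ S)
    (hK : ∀ s, K ≤ s → Dv S (p + q) s) :
    ∃ n m : ℕ, Submodule.spanRank (RingHom.ker (ev (fS S))) ≤ ((n + m : ℕ) : Cardinal) ∧
      n + (EF S p q K).card ≤ (ZF S p q K).card + 1 ∧ m ≤ (MF S p q K).card ∧
      ((∃ s ∈ MF S p q K, Conn S s q p) → m + 1 ≤ (MF S p q K).card) := by
  classical
  set Zn := (ZF S p q K).filter (fun z => z.2 ≠ base S p q (z.2 + z.1)) with hZn
  set Ze := (ZF S p q K).filter (fun z => ¬ z.2 ≠ base S p q (z.2 + z.1)) with hZe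
  set Mn := (MF S p q K).filter (fun s => ¬ Conn S s q p) with hMn
  set G1 : Finset (MvPolynomial S ℚ) := Zn.image (fun z =>
    monomial (fac S (z.2 + z.1) z.2) (1 : ℚ)
      - monomial (fac S (z.2 + z.1) (base S p q (z.2 + z.1))) 1) with hG1
  set G2 : Finset (MvPolynomial S ℚ) := Mn.image (fun s =>
    monomial (fac S s q) (1 : ℚ) - monomial (fac S s p) 1) with hG2
  refine ⟨Zn.card, Mn.card, ?_, ?_, Finset.card_filter_le _ _, ?_⟩
  · refine (spanRank_ker_le (fS S) (G1 ∪ G2) ?_ ?_).trans ?_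
    · intro x hx
      rw [Finset.mem_union] at hx
      rcases hx with hx | hx
      · rw [hG1, Finset.mem_image] at hx
        obtain ⟨z, hz, rfl⟩ := hx
        rw [hZn, Finset.mem_filter, mem_ZF] at hz
        obtain ⟨⟨hz1, hz2⟩, hz3⟩ := hz
        rw [mem_X1] at hz2
        have hv := hz2.1
        have hs : z.2 + z.1 ∈ Gm S := Dv_mem (mem_Gm_of_mem hv.1) hv.2.1
        have hne : z.2 + z.1 ≠ 0 := by
          intro h
          have : z.2 = 0 := by omega
          exact hpos (this ▸ hv.1)
        have hb := base_spec hp hq hs hne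
        apply binomial_mem_ker
        rw [(fac_spec hv.1 hv.2.1).1, (fac_spec hb.1 hb.2).1]
      · rw [hG2, Finset.mem_image] at hx
        obtain ⟨s, hs, rfl⟩ := hx
        rw [hMn, Finset.mem_filter, mem_MF hK] at hs
        apply binomial_mem_ker
        rw [(fac_spec hq hs.1.2.1).1, (fac_spec hp hs.1.1).1]
    · apply ker_le_of_classes _ hpos
      have hclaim : ∀ s a, a ∈ S → Dv S a s → ∃ a', Conn S s a a' ∧
          monomial (fac S s a') (1 : ℚ) - monomial (fac S s (base S p q s)) 1 ∈
            Ideal.span ((G1 ∪ G2 : Finset (MvPolynomial S ℚ)) : Set (MvPolynomial S ℚ)) := by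
        intro s a ha hd
        by_cases h1 : Conn S s a p
        · have h2 := (Conn_vertex h1 ha hd).2
          refine ⟨p, h1, ?_⟩
          have hb : base S p q s = p := by rw [base, if_pos h2]
          rw [hb, sub_self]
          exact Submodule.zero_mem _
        · by_cases h2 : Conn S s a q
          · have h3 := (Conn_vertex h2 ha hd).2
            refine ⟨q, h2, ?_⟩
            by_cases h4 : Dv S p s
            · have hb : base S p q s = p := by rw [base, if_pos h4]
              rw [hb]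
              apply Ideal.subset_span
              rw [Finset.mem_coe, Finset.mem_union]
              right
              rw [hG2, Finset.mem_image]
              refine ⟨s, ?_, rfl⟩
              rw [hMn, Finset.mem_filter, mem_MF hK]
              refine ⟨⟨h4, h3, fun h5 => ?_⟩, fun h5 => h1 (Conn_trans h2 h5)⟩
              exact h1 (Conn_trans h2 (Conn_symm (Conn_of_Adj ⟨hp, hq, h5⟩)))
            · have hb : base S p q s = q := by rw [base, if_neg h4, if_pos h3]
              rw [hb, sub_self]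
              exact Submodule.zero_mem _
          · have hav : Av S p q s a := ⟨ha, hd, h1, h2⟩
            have hne : {b | Conn S s a b}.Nonempty := ⟨a, Conn_refl⟩
            have hm1 : Conn S s a (sInf {b | Conn S s a b}) := Nat.sInf_mem hne
            have hm2 : ∀ b, Conn S s a b → sInf {b | Conn S s a b} ≤ b := fun b hb =>
              Nat.sInf_le hb
            set a0 := sInf {b | Conn S s a b} with ha0
            refine ⟨a0, hm1, ?_⟩
            have hav0 : Av S p q s a0 := Av_conn hav hm1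
            obtain ⟨γ, hγ, hs⟩ := hav0.2.1
            by_cases hbase : a0 = base S p q s
            · rw [← hbase, sub_self]
              exact Submodule.zero_mem _
            · apply Ideal.subset_span
              rw [Finset.mem_coe, Finset.mem_union]
              left
              rw [hG1, Finset.mem_image]
              refine ⟨⟨γ, a0⟩, ?_, by simp only; rw [← hs]⟩
              rw [hZn, Finset.mem_filter, mem_ZF, mem_X1]
              simp only
              rw [← hs]
              refine ⟨⟨?_, hav0, fun b hb => hm2 b (Conn_trans hm1 hb)⟩, hbase⟩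
              rw [mem_EF hK hp hq]
              rw [hs] at hav0
              exact Av_Ein hp hq hav0
      intro s a b ha hda hb hdb
      obtain ⟨a', ha1, ha2⟩ := hclaim s a ha hda
      obtain ⟨b', hb1, hb2⟩ := hclaim s b hb hdb
      refine ⟨a', b', ha1, hb1, ?_⟩
      have := Submodule.sub_mem _ ha2 hb2
      rwa [sub_sub_sub_cancel_right] at this
    · have h1 : (G1 ∪ G2).card ≤ Zn.card + Mn.card :=
        (Finset.card_union_le _ _).trans
          (Nat.add_le_add Finset.card_image_le Finset.card_image_le)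
      exact_mod_cast h1
  · have h1 : Zn.card + Ze.card = (ZF S p q K).card :=
      Finset.card_filter_add_card_filter_not _
    have h0 : (0 : ℕ) ∈ EF S p q K := by
      rw [mem_EF hK hp hq]
      refine ⟨(Gm S).zero_mem, ?_, ?_⟩
      · rintro ⟨γ, _, h⟩
        have : p = 0 := by omega
        exact hpos (this ▸ hp)
      · rintro ⟨γ, _, h⟩
        have : q = 0 := by omega
        exact hpos (this ▸ hq)
    have h2 : ((EF S p q K).erase 0).card + 1 = (EF S p q K).card :=
      Finset.card_erase_add_one h0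
    have h3 : ((EF S p q K).erase 0).card ≤ Ze.card := by
      apply Finset.card_le_card_of_forall_subsingleton (fun s z => z.2 + z.1 = s)
      · intro s hs
        rw [Finset.mem_erase, mem_EF hK hp hq] at hs
        obtain ⟨hs0, hsE⟩ := hs
        have hb := base_spec hp hq hsE.1 hs0
        obtain ⟨γ, hγ, hsγ⟩ := hb.2
        refine ⟨⟨γ, base S p q s⟩, ?_, hsγ.symm⟩
        rw [hZe, Finset.mem_filter, mem_ZF, mem_X1]
        simp only
        rw [← hsγ]
        refine ⟨⟨?_, ⟨hb.1, hb.2, ?_, ?_⟩, ?_⟩, ?_⟩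
        · rw [mem_EF hK hp hq]
          rw [hsγ] at hsE
          exact Ein_right (mem_Gm_of_mem hb.1) hγ hsE
        · intro hc
          exact hsE.2.1 (Conn_vertex hc hb.1 hb.2).2
        · intro hc
          exact hsE.2.2 (Conn_vertex hc hb.1 hb.2).2
        · intro b hc
          have hbb := Conn_vertex hc hb.1 hb.2
          have : base S p q s = sInf {a | a ∈ S ∧ Dv S a s} := by
            rw [base, if_neg hsE.2.1, if_neg hsE.2.2]
          rw [this]
          exact Nat.sInf_le hbb
        · simp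
      · rintro z hz s1 ⟨_, h1⟩ s2 ⟨_, h2⟩
        rw [← h1, ← h2]
    omega
  · rintro ⟨s, hs, hc⟩
    have : Mn ⊂ MF S p q K := by
      rw [hMn, Finset.filter_ssubset]
      exact ⟨s, hs, by simpa using hc⟩
    exact Finset.card_lt_card this

end Finsets

end Pool.Agent.H51c
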