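import Pool.Agent.H51c.Count

/-!
More counting.
-/

set_option autoImplicit false

namespace Pool.Agent.H51c

section CardMF

variable {S : Finset ℕ} {p q : ℕ}

open Classical in
/-- number of elements of the semigroup below `n` -/
noncomputable def cG (S : Finset ℕ) (n : ℕ) : ℕ := ((Finset.range n).filter (· ∈ Gm S)).card

theorem cG_succ {n : ℕ} (h : n ∈ Gm S) : cG S (n + 1) = cG S n + 1 := by
  classical
  rw [cG, Finset.range_add_one, Finset.filter_insert, if_pos h, Finset.card_insert_of_notMem]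
  · rfl
  · simp

theorem cG_add {n : ℕ} (h : ∀ s, n ≤ s → s ∈ Gm S) (k : ℕ) : cG S (n + k) = cG S n + k := by
  induction k with
  | zero => rfl
  | succ k ih => rw [← add_assoc, cG_succ (h _ (by omega)), ih, add_assoc]

open Classical in
theorem card_Dv (x n : ℕ) : ((Finset.range (n + x)).filter (Dv S x)).card = cG S n := by
  rw [cG]
  have : (Finset.range (n + x)).filter (Dv S x)
      = ((Finset.range n).filter (· ∈ Gm S)).image (x + ·) := by
    ext s
    rw [Finset.mem_filter, Finset.mem_image, Finset.mem_range]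
    constructor
    · rintro ⟨h1, γ, hγ, rfl⟩
      refine ⟨γ, ?_, rfl⟩
      rw [Finset.mem_filter, Finset.mem_range]
      exact ⟨by omega, hγ⟩
    · rintro ⟨γ, hγ, rfl⟩
      rw [Finset.mem_filter, Finset.mem_range] at hγ
      exact ⟨by omega, γ, hγ.2, rfl⟩
  rw [this, Finset.card_image_of_injective]
  intro a b h
  simpa using h

theorem card_MF_eq (hp : p ∈ S) (hq : q ∈ S) {N : ℕ} (hN : ∀ s, N ≤ s → s ∈ Gm S) :
    (MF S p q (N + p + q)).card = (EF S p q (N + p + q)).card := by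
  classical
  have hcount : ∀ (P : ℕ → Prop) [DecidablePred P],
      ((Finset.range (N + p + q)).filter P).card
      = ∑ s ∈ Finset.range (N + p + q), if P s then 1 else 0 := by
    intro P _
    rw [Finset.card_filter]
  have h1 : cG S (N + p + q) = ∑ s ∈ Finset.range (N + p + q), if s ∈ Gm S then 1 else 0 := by
    rw [cG, hcount]
  have h2 : cG S N = ∑ s ∈ Finset.range (N + p + q), if Dv S (p + q) s then 1 else 0 := by
    rw [← card_Dv (p + q) N, ← add_assoc, hcount]
  have h3 : cG S (N + q) = ∑ s ∈ Finset.range (N + p + q), if Dv S p s then 1 else 0 := by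
    rw [← card_Dv p (N + q), ← hcount]
    congr 2
    congr 1
    omega
  have h4 : cG S (N + p) = ∑ s ∈ Finset.range (N + p + q), if Dv S q s then 1 else 0 := by
    rw [← card_Dv q (N + p), ← hcount]
  have h5 : (MF S p q (N + p + q)).card = ∑ s ∈ Finset.range (N + p + q),
      if (Dv S p s ∧ Dv S q s ∧ ¬ Dv S (p + q) s) then 1 else 0 := by
    rw [MF, hcount]
  have h6 : (EF S p q (N + p + q)).card = ∑ s ∈ Finset.range (N + p + q),
      if (Ein S p q s) then 1 else 0 := by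
    rw [EF, hcount]
  have h7 : cG S (N + p + q) + cG S N + (MF S p q (N + p + q)).card
      = cG S (N + q) + cG S (N + p) + (EF S p q (N + p + q)).card := by
    rw [h1, h2, h3, h4, h5, h6, ← Finset.sum_add_distrib, ← Finset.sum_add_distrib,
      ← Finset.sum_add_distrib, ← Finset.sum_add_distrib]
    apply Finset.sum_congr rfl
    intro s _
    have hG1 : Dv S p s → s ∈ Gm S := Dv_mem (mem_Gm_of_mem hp)
    have hG2 : Dv S q s → s ∈ Gm S := Dv_mem (mem_Gm_of_mem hq)
    have hG3 : Dv S (p + q) s → Dv S p s := Dv_trans (mem_Gm_of_mem hq)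
    have hG4 : Dv S (p + q) s → Dv S q s := Dv_trans' (mem_Gm_of_mem hp)
    by_cases a1 : s ∈ Gm S
    · by_cases a2 : Dv S p s
      · by_cases a3 : Dv S q s
        · by_cases a4 : Dv S (p + q) s
          · simp [Ein, a1, a2, a3, a4]
          · simp [Ein, a1, a2, a3, a4]
        · have a4 : ¬ Dv S (p + q) s := fun h => a3 (hG4 h)
          simp [Ein, a1, a2, a3, a4]
      · have a4 : ¬ Dv S (p + q) s := fun h => a2 (hG3 h)
        by_cases a3 : Dv S q s
        · simp [Ein, a1, a2, a3, a4]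
        · simp [Ein, a1, a2, a3, a4]
    · have a2 : ¬ Dv S p s := fun h => a1 (hG1 h)
      have a3 : ¬ Dv S q s := fun h => a1 (hG2 h)
      have a4 : ¬ Dv S (p + q) s := fun h => a2 (hG3 h)
      simp [Ein, a1, a2, a3, a4]
  have h8 : cG S (N + p + q) = cG S (N + p) + q := cG_add (fun s hs => hN s (by omega)) q
  have h9 : cG S (N + q) = cG S N + q := cG_add hN q
  omega

end CardMF

section Upper

open MvPolynomial

variable {S : Finset ℕ} {p q : ℕ}

theorem spanRank_le_ZF (hpos : 0 ∉ S) (hp : p ∈ S) (hq : q ∈ S) {N : ℕ}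
    (hN : ∀ s, N ≤ s → s ∈ Gm S) :
    Submodule.spanRank (RingHom.ker (ev (fS S)))
      ≤ (((ZF S p q (N + p + q)).card + 1 : ℕ) : Cardinal) := by
  have hK : ∀ s, N + p + q ≤ s → Dv S (p + q) s := fun s hs =>
    ⟨s - (p + q), hN _ (by omega), by omega⟩
  obtain ⟨n, m, h1, h2, h3, _⟩ := spanRank_le_aux hpos hp hq hK
  rw [card_MF_eq hp hq hN] at h3
  refine h1.trans ?_
  exact_mod_cast (by omega : n + m ≤ (ZF S p q (N + p + q)).card + 1)

theorem spanRank_le_ZF' (hpos : 0 ∉ S) (hp : p ∈ S) (hq : q ∈ S) {N : ℕ}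
    (hN : ∀ s, N ≤ s → s ∈ Gm S)
    (hex : ∃ s, Dv S p s ∧ Dv S q s ∧ ¬ Dv S (p + q) s ∧ Conn S s q p) :
    Submodule.spanRank (RingHom.ker (ev (fS S)))
      ≤ (((ZF S p q (N + p + q)).card : ℕ) : Cardinal) := by
  have hK : ∀ s, N + p + q ≤ s → Dv S (p + q) s := fun s hs =>
    ⟨s - (p + q), hN _ (by omega), by omega⟩
  obtain ⟨n, m, h1, h2, h3, h4⟩ := spanRank_le_aux hpos hp hq hK
  obtain ⟨s, hs1, hs2, hs3, hs4⟩ := hex
  have h5 := h4 ⟨s, (mem_MF hK).2 ⟨hs1, hs2, hs3⟩, hs4⟩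
  rw [card_MF_eq hp hq hN] at h3 h5
  refine h1.trans ?_
  exact_mod_cast (by omega : n + m ≤ (ZF S p q (N + p + q)).card)

theorem card_ZF_le_card_ZF2 {K : ℕ} (hK : ∀ s, K ≤ s → Dv S (p + q) s) (hp : p ∈ S)
    (hq : q ∈ S) : (ZF S p q K).card ≤ (ZF2 S p q K).card := by
  classical
  apply Finset.card_le_card_of_forall_subsingleton
    (fun z z' => z'.2 + z'.1 = z.2 + z.1 ∧ Conn S (z.2 + z.1) z.2 z'.2)
  · intro z hz
    rw [mem_ZF, mem_X1] at hz
    obtain ⟨hz1, hz2, hz3⟩ := hz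
    set s := z.2 + z.1 with hs
    set Cl := S.filter (Conn S s z.2) with hCl
    have hne : Cl.Nonempty := ⟨z.2, by rw [hCl, Finset.mem_filter]; exact ⟨hz2.1, Conn_refl⟩⟩
    obtain ⟨M, hM1, hM2⟩ := Finset.exists_max_image Cl id hne
    rw [hCl, Finset.mem_filter] at hM1
    have hav : Av S p q s M := Av_conn hz2 hM1.2
    obtain ⟨γ, hγ, hsγ⟩ := hav.2.1
    refine ⟨⟨γ, M⟩, ?_, hsγ.symm, hM1.2⟩
    rw [mem_ZF2, mem_X2]
    simp only
    rw [← hsγ]
    refine ⟨?_, hav, ?_⟩
    · rw [mem_EF hK hp hq]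
      rw [hsγ] at hav
      exact Av_Ein hp hq hav
    · intro b hb
      have h1 := Conn_vertex hb hav.1 hav.2.1
      apply hM2 b
      rw [hCl, Finset.mem_filter]
      exact ⟨h1.1, Conn_trans hM1.2 hb⟩
  · rintro z' _ z1 ⟨h1, h1', h1''⟩ z2 ⟨h2, h2', h2''⟩
    rw [mem_ZF, mem_X1] at h1 h2
    have hs : z1.2 + z1.1 = z2.2 + z2.1 := by rw [← h1', ← h2']
    have hc : Conn S (z1.2 + z1.1) z1.2 z2.2 := by
      refine Conn_trans h1'' (Conn_symm ?_)
      rw [hs]
      exact h2''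
    have h3 := h1.2.2 _ hc
    have h4 := h2.2.2 _ (by rw [← hs]; exact Conn_symm hc)
    have h5 : z1.2 = z2.2 := le_antisymm h3 h4
    have h6 : z1.1 = z2.1 := by omega
    cases z1
    cases z2
    simp only at h5 h6
    subst h5 h6
    rfl

/-- elements of the double Apery set that are neither zero nor generators -/
noncomputable def HF (S : Finset ℕ) (p q K : ℕ) : Finset ℕ :=
  (EF S p q K).filter fun s => ¬ (s = 0 ∨ s ∈ S)

theorem card_filter_le_ge (B : Finset ℕ) {b : ℕ} (hb : b ∈ B) :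
    (B.filter (fun a => a ≤ b)).card + (B.filter (fun a => b ≤ a)).card = B.card + 1 := by
  have h1 : B.filter (fun a => a ≤ b) ∪ B.filter (fun a => b ≤ a) = B := by
    ext x
    rw [Finset.mem_union, Finset.mem_filter, Finset.mem_filter]
    constructor
    · rintro (h | h) <;> exact h.1
    · intro h
      rcases le_total x b with h' | h'
      · exact Or.inl ⟨h, h'⟩
      · exact Or.inr ⟨h, h'⟩
  have h2 : B.filter (fun a => a ≤ b) ∩ B.filter (fun a => b ≤ a) = {b} := by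
    ext x
    rw [Finset.mem_inter, Finset.mem_filter, Finset.mem_filter, Finset.mem_singleton]
    constructor
    · rintro ⟨⟨_, h1⟩, _, h2⟩
      exact le_antisymm h1 h2
    · rintro rfl
      exact ⟨⟨hb, le_refl _⟩, hb, le_refl _⟩
  rw [← Finset.card_union_add_card_inter, h1, h2, Finset.card_singleton]

theorem X1_le {s' a b : ℕ} (ha : a ∈ X1 S p q s') (hb : b ∈ S) (hd : Dv S b s') : a ≤ b := by
  rw [mem_X1] at ha
  exact ha.2 b (Conn_of_Adj ⟨ha.1.1, hb, Dv_add_left_iff.2 hd⟩)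

theorem X2_ge {s' a b : ℕ} (ha : a ∈ X2 S p q s') (hb : b ∈ S) (hd : Dv S b s') : b ≤ a := by
  rw [mem_X2] at ha
  exact ha.2 b (Conn_of_Adj ⟨ha.1.1, hb, Dv_add_left_iff.2 hd⟩)

theorem two_ZF {K : ℕ} (hK : ∀ s, K ≤ s → Dv S (p + q) s) (hp : p ∈ S) (hq : q ∈ S)
    (hpos : 0 ∉ S) :
    2 * (ZF S p q K).card ≤ 2 * (Sm S p q).card + (Sm S p q).card * ((Sm S p q).card + 1)
      + ∑ s ∈ HF S p q K, ((X1 S p q s).card + (X2 S p q s).card) := by
  classical
  have h1 : (ZF S p q K).card = ∑ s ∈ EF S p q K, (X1 S p q s).card := Finset.card_sigma _ _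
  have h2 : (ZF2 S p q K).card = ∑ s ∈ EF S p q K, (X2 S p q s).card := Finset.card_sigma _ _
  have h3 := card_ZF_le_card_ZF2 hK hp hq
  have h4 : 2 * (ZF S p q K).card
      ≤ ∑ s ∈ EF S p q K, ((X1 S p q s).card + (X2 S p q s).card) := by
    rw [Finset.sum_add_distrib, ← h1, ← h2]
    omega
  refine h4.trans ?_
  have h5 := Finset.sum_filter_add_sum_filter_not (EF S p q K) (fun s => s = 0 ∨ s ∈ S)
    (fun s => (X1 S p q s).card + (X2 S p q s).card)
  rw [← h5]
  have hHF : HF S p q K = (EF S p q K).filter fun s => ¬ (s = 0 ∨ s ∈ S) := by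
    rw [HF]
  rw [← hHF]
  apply Nat.add_le_add_right
  have hsub : (EF S p q K).filter (fun s => s = 0 ∨ s ∈ S) ⊆ insert 0 (Sm S p q) := by
    intro s hs
    rw [Finset.mem_filter, mem_EF hK hp hq] at hs
    rw [Finset.mem_insert, mem_Sm]
    rcases hs.2 with h | h
    · exact Or.inl h
    · refine Or.inr ⟨?_, ?_, h⟩
      · rintro rfl
        exact hs.1.2.2 ⟨0, (Gm S).zero_mem, by simp⟩
      · rintro rfl
        exact hs.1.2.1 ⟨0, (Gm S).zero_mem, by simp⟩
  refine (Finset.sum_le_sum_of_subset hsub).trans ?_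
  rw [Finset.sum_insert (by rw [mem_Sm]; exact fun h => hpos h.2.2)]
  apply Nat.add_le_add
  · have e1 : (X1 S p q 0).card ≤ (Sm S p q).card := Finset.card_le_card X1_sub
    have e2 : (X2 S p q 0).card ≤ (Sm S p q).card := Finset.card_le_card X2_sub
    omega
  · rw [← smul_eq_mul]
    apply Finset.sum_le_card_nsmul
    intro b hb
    have hbS := (mem_Sm.1 hb).2.2
    have hdb : Dv S b b := ⟨0, (Gm S).zero_mem, by simp⟩
    have e1 : X1 S p q b ⊆ (Sm S p q).filter (fun a => a ≤ b) := by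
      intro a ha
      rw [Finset.mem_filter]
      exact ⟨X1_sub ha, X1_le ha hbS hdb⟩
    have e2 : X2 S p q b ⊆ (Sm S p q).filter (fun a => b ≤ a) := by
      intro a ha
      rw [Finset.mem_filter]
      exact ⟨X2_sub ha, X2_ge ha hbS hdb⟩
    rw [← card_filter_le_ge (Sm S p q) hb]
    exact Nat.add_le_add (Finset.card_le_card e1) (Finset.card_le_card e2)

open Classical in
/-- admissible vertices for `s'` -/
noncomputable def NF (S : Finset ℕ) (p q s' : ℕ) : Finset ℕ :=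
  (Sm S p q).filter fun a => Av S p q (a + s') a

theorem mem_NF {s' a : ℕ} : a ∈ NF S p q s' ↔ Av S p q (a + s') a := by
  classical
  rw [NF, Finset.mem_filter, mem_Sm]
  constructor
  · exact fun h => h.2
  · intro h
    have := Av_ne h
    exact ⟨⟨this.2, this.1, h.1⟩, h⟩

theorem NF_sub {s' : ℕ} : NF S p q s' ⊆ Sm S p q := by
  classical
  exact Finset.filter_subset _ _

theorem X1_sub_NF {s' : ℕ} : X1 S p q s' ⊆ NF S p q s' := by
  intro a ha
  rw [mem_X1] at ha
  rw [mem_NF]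
  exact ha.1

theorem X2_sub_NF {s' : ℕ} : X2 S p q s' ⊆ NF S p q s' := by
  intro a ha
  rw [mem_X2] at ha
  rw [mem_NF]
  exact ha.1

theorem X_le_one {s' b : ℕ} (hb : b ∈ S) (hd : Dv S b s') :
    (X1 S p q s').card + (X2 S p q s').card ≤ (NF S p q s').card + 1 := by
  classical
  rw [← Finset.card_union_add_card_inter]
  apply Nat.add_le_add
  · exact Finset.card_le_card (Finset.union_subset X1_sub_NF X2_sub_NF)
  · rw [← Finset.card_singleton b]
    apply Finset.card_le_card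
    intro x hx
    rw [Finset.mem_inter] at hx
    rw [Finset.mem_singleton]
    exact le_antisymm (X1_le hx.1 hb hd) (X2_ge hx.2 hb hd)

theorem X_le_two {s' b c : ℕ} (hb : b ∈ S) (hd : Dv S b s') (hc : c ∈ S) (hd' : Dv S c s')
    (hbc : b ≠ c) :
    (X1 S p q s').card + (X2 S p q s').card ≤ (NF S p q s').card := by
  classical
  rw [← Finset.card_union_add_card_inter]
  have h1 : X1 S p q s' ∩ X2 S p q s' = ∅ := by
    rw [Finset.eq_empty_iff_forall_notMem]
    intro x hx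
    rw [Finset.mem_inter] at hx
    have e1 := le_antisymm (X1_le hx.1 hb hd) (X2_ge hx.2 hb hd)
    have e2 := le_antisymm (X1_le hx.1 hc hd') (X2_ge hx.2 hc hd')
    exact hbc (by rw [← e1, ← e2])
  rw [h1, Finset.card_empty, add_zero]
  exact Finset.card_le_card (Finset.union_subset X1_sub_NF X2_sub_NF)

theorem mem_HF {K : ℕ} (hK : ∀ s, K ≤ s → Dv S (p + q) s) (hp : p ∈ S) (hq : q ∈ S) {s : ℕ} :
    s ∈ HF S p q K ↔ Ein S p q s ∧ s ≠ 0 ∧ s ∉ S := by
  rw [HF, Finset.mem_filter, mem_EF hK hp hq, not_or]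

/-- elements of `HF` are sums of two generators plus something -/
theorem HF_two {s : ℕ} (hE : Ein S p q s) (h0 : s ≠ 0) (hS : s ∉ S) :
    ∃ b ∈ S, ∃ c ∈ S, ∃ z ∈ Gm S, s = b + c + z := by
  obtain ⟨b, hb, y, hy, hs⟩ := exists_dvd hE.1 h0
  have hy0 : y ≠ 0 := by
    rintro rfl
    exact hS (by rw [hs, add_zero]; exact hb)
  obtain ⟨c, hc, z, hz, hy'⟩ := exists_dvd hy hy0
  exact ⟨b, hb, c, hc, z, hz, by omega⟩

/-- if `a` is admissible for `s' = b + y` then `a + y` lies in the double Apery set -/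
theorem NF_swap (hp : p ∈ S) (hq : q ∈ S) {s' a b y : ℕ} (ha : a ∈ NF S p q s') (hb : b ∈ S)
    (hy : y ∈ Gm S) (hs : s' = b + y) : Av S p q (b + (a + y)) b ∧ Ein S p q (a + y) := by
  rw [mem_NF] at ha
  have h1 : Conn S (a + s') a b := Conn_of_Adj ⟨ha.1, hb, y, hy, by omega⟩
  have h2 := Av_conn ha h1
  have h3 : a + s' = b + (a + y) := by omega
  rw [h3] at h2
  exact ⟨h2, Av_Ein hp hq h2⟩

theorem exists_small (hpos : 0 ∉ S)
    (hmin : ∀ a ∈ S, a ∉ AddSubmonoid.closure ((S.erase a : Finset ℕ) : Set ℕ))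
    {K : ℕ} (hK : ∀ s, K ≤ s → Dv S (p + q) s) (hp : p ∈ S) (hq : q ∈ S) {κ : ℕ} (hκ : 2 ≤ κ)
    (hN : ∀ s ∈ HF S p q K, (NF S p q s).card ≤ κ) (hne : (HF S p q K).Nonempty) :
    ∃ s ∈ HF S p q K, (X1 S p q s).card + (X2 S p q s).card ≤ κ := by
  classical
  obtain ⟨s, hs⟩ := hne
  have hs' := (mem_HF hK hp hq).1 hs
  obtain ⟨b, hb, c, hc, z, hz, hsum⟩ := HF_two hs'.1 hs'.2.1 hs'.2.2
  by_cases hbc : b = c
  · subst hbc
    by_cases hsub : NF S p q s ⊆ {b}
    · refine ⟨s, hs, ?_⟩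
      have h1 := X_le_one (p := p) (q := q) (s' := s) hb
        ⟨b + z, (Gm S).add_mem (mem_Gm_of_mem hb) hz, by omega⟩
      have h2 : (NF S p q s).card ≤ 1 := by
        rw [← Finset.card_singleton b]
        exact Finset.card_le_card hsub
      omega
    · rw [Finset.not_subset] at hsub
      obtain ⟨a, ha, hab⟩ := hsub
      rw [Finset.mem_singleton] at hab
      have hy : b + z ∈ Gm S := (Gm S).add_mem (mem_Gm_of_mem hb) hz
      have haS : a ∈ S := (mem_Sm.1 (NF_sub ha)).2.2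
      obtain ⟨_, h2⟩ := NF_swap hp hq ha hb hy (by omega)
      have h3 : a + (b + z) ∈ HF S p q K := by
        rw [mem_HF hK hp hq]
        refine ⟨h2, ?_, ?_⟩
        · intro h
          have : a = 0 := by omega
          exact hpos (this ▸ haS)
        · intro h
          have := gen_indec hpos hmin h haS hy rfl
          have : b = 0 := by omega
          exact hpos (this ▸ hb)
      refine ⟨_, h3, ?_⟩
      have h4 := X_le_two (p := p) (q := q) (s' := a + (b + z)) haS ⟨_, hy, rfl⟩ hb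
        ⟨a + z, (Gm S).add_mem (mem_Gm_of_mem haS) hz, by omega⟩ hab
      exact h4.trans (hN _ h3)
  · refine ⟨s, hs, ?_⟩
    have h1 := X_le_two (p := p) (q := q) (s' := s) hb
      ⟨c + z, (Gm S).add_mem (mem_Gm_of_mem hc) hz, by omega⟩ hc
      ⟨b + z, (Gm S).add_mem (mem_Gm_of_mem hb) hz, by omega⟩ hbc
    exact h1.trans (hN s hs)

/-- strict bound -/
theorem sum_X_lt (hpos : 0 ∉ S)
    (hmin : ∀ a ∈ S, a ∉ AddSubmonoid.closure ((S.erase a : Finset ℕ) : Set ℕ))
    {K : ℕ} (hK : ∀ s, K ≤ s → Dv S (p + q) s) (hp : p ∈ S) (hq : q ∈ S) {κ : ℕ} (hκ : 2 ≤ κ)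
    (hN : ∀ s ∈ HF S p q K, (NF S p q s).card ≤ κ) :
    ∑ s ∈ HF S p q K, ((X1 S p q s).card + (X2 S p q s).card)
      ≤ (κ + 1) * (HF S p q K).card - 1 := by
  classical
  have hle : ∀ s ∈ HF S p q K, (X1 S p q s).card + (X2 S p q s).card ≤ κ + 1 := by
    intro s hs
    have hs' := (mem_HF hK hp hq).1 hs
    obtain ⟨b, hb, hd⟩ := exists_dvd hs'.1.1 hs'.2.1
    have := X_le_one (p := p) (q := q) hb hd
    have := hN s hs
    omega
  by_cases hne : (HF S p q K).Nonempty
  · obtain ⟨s, hs, hle'⟩ := exists_small hpos hmin hK hp hq hκ hN hne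
    rw [← Finset.add_sum_erase _ _ hs]
    have h1 : ∑ s ∈ (HF S p q K).erase s, ((X1 S p q s).card + (X2 S p q s).card)
        ≤ ((HF S p q K).erase s).card • (κ + 1) := by
      apply Finset.sum_le_card_nsmul
      intro x hx
      exact hle x (Finset.mem_of_mem_erase hx)
    rw [smul_eq_mul, Finset.card_erase_of_mem hs] at h1
    have h2 : 1 ≤ (HF S p q K).card := Finset.card_pos.2 ⟨s, hs⟩
    obtain ⟨n, hn⟩ : ∃ n, (HF S p q K).card = n + 1 := ⟨(HF S p q K).card - 1, by omega⟩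
    rw [hn] at h1 ⊢
    have h3 : (κ + 1) * (n + 1) = (n + 1 - 1) * (κ + 1) + κ + 1 := by
      simp only [Nat.add_sub_cancel]; ring
    omega
  · rw [Finset.not_nonempty_iff_eq_empty] at hne
    rw [hne]
    simp

/-- non strict bound -/
theorem sum_X_le {K : ℕ} (hK : ∀ s, K ≤ s → Dv S (p + q) s) (hp : p ∈ S) (hq : q ∈ S) {κ : ℕ}
    (hN : ∀ s ∈ HF S p q K, (NF S p q s).card ≤ κ) :
    ∑ s ∈ HF S p q K, ((X1 S p q s).card + (X2 S p q s).card)
      ≤ (κ + 1) * (HF S p q K).card := by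
  have h1 : ∑ s ∈ HF S p q K, ((X1 S p q s).card + (X2 S p q s).card)
        ≤ (HF S p q K).card • (κ + 1) := by
    apply Finset.sum_le_card_nsmul
    intro s hs
    have hs' := (mem_HF hK hp hq).1 hs
    obtain ⟨b, hb, hd⟩ := exists_dvd hs'.1.1 hs'.2.1
    have := X_le_one (p := p) (q := q) hb hd
    have := hN s hs
    omega
  rw [smul_eq_mul] at h1
  rw [mul_comm]
  exact h1

end Upper

end Pool.Agent.H51c
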