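import Pool.Agent.H51c.Graph

/-!
Lower bound for the number of relations of a semigroup generated by an interval.
-/

set_option autoImplicit false

namespace Pool.Agent.H51c

open MvPolynomial

/-- pairs `i ≤ j < n` -/
def PP (n : ℕ) : Finset (Σ _ : ℕ, ℕ) := (Finset.range n).sigma fun j => Finset.range (j + 1)

theorem mem_PP {n : ℕ} {z : Σ _ : ℕ, ℕ} : z ∈ PP n ↔ z.1 < n ∧ z.2 ≤ z.1 := by
  rw [PP, Finset.mem_sigma, Finset.mem_range, Finset.mem_range, Nat.lt_succ_iff]

theorem card_PP (n : ℕ) : 2 * (PP n).card = n * (n + 1) := by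
  rw [PP, Finset.card_sigma]
  simp only [Finset.card_range]
  induction n with
  | zero => simp
  | succ n ih => rw [Finset.sum_range_succ, mul_add, ih]; ring

section Lower

variable {σ : Type} {f : σ → ℕ} {m w : ℕ} {v : ℕ → σ}

/-- degree -/
noncomputable def dg (c : σ →₀ ℕ) : ℕ := wt (fun _ => 1) c

theorem dg_add (c d : σ →₀ ℕ) : dg (c + d) = dg c + dg d := wt_add _ c d

theorem dg_single (i : σ) (n : ℕ) : dg (Finsupp.single i n) = n := by
  rw [dg, wt_single, mul_one]

theorem split_single {c : σ →₀ ℕ} {x : σ} (h : c x ≠ 0) :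
    ∃ c' : σ →₀ ℕ, c = Finsupp.single x 1 + c' := by
  classical
  refine ⟨c - Finsupp.single x 1, ?_⟩
  ext i
  rw [Finsupp.add_apply, Finsupp.tsub_apply]
  by_cases hi : x = i
  · subst hi
    rw [Finsupp.single_eq_same]; omega
  · rw [Finsupp.single_apply, if_neg hi]; simp

theorem exists_ne {c : σ →₀ ℕ} (h : c ≠ 0) : ∃ x, c x ≠ 0 := by
  by_contra hcon
  push Not at hcon
  exact h (by ext i; exact hcon i)

theorem wt_bounds (hf1 : ∀ x, m ≤ f x) (hf2 : ∀ x, f x ≤ m + w) (c : σ →₀ ℕ) :
    dg c * m ≤ wt f c ∧ wt f c ≤ dg c * (m + w) := by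
  classical
  induction c using Finsupp.induction with
  | zero => simp [dg, wt_zero]
  | single_add a n c _ _ ih =>
    rw [dg_add, wt_add, dg_single, wt_single]
    have h1 := Nat.mul_le_mul_left n (hf1 a)
    have h2 := Nat.mul_le_mul_left n (hf2 a)
    constructor
    · rw [add_mul]; omega
    · rw [add_mul]; omega

theorem eq_single_of_wt (hf1 : ∀ x, m ≤ f x) (hinj : Function.Injective f) (hv : ∀ i ≤ w, f (v i) = m + i)
    (hwm : w < m) {c : σ →₀ ℕ} {i : ℕ} (hi : i ≤ w) (h : wt f c = m + i) :
    c = Finsupp.single (v i) 1 := by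
  have hc : c ≠ 0 := by
    rintro rfl
    rw [wt_zero] at h
    omega
  obtain ⟨x, hx⟩ := exists_ne hc
  obtain ⟨c', rfl⟩ := split_single hx
  rw [wt_add, wt_single, one_mul] at h
  have hx1 := hf1 x
  have hc' : c' = 0 := by
    by_contra hne
    obtain ⟨y, hy⟩ := exists_ne hne
    obtain ⟨c'', rfl⟩ := split_single hy
    rw [wt_add, wt_single, one_mul] at h
    have := hf1 y
    omega
  subst hc'
  rw [wt_zero] at h
  have h2 : f x = f (v i) := by rw [hv i hi]; omega
  rw [hinj h2, add_zero]

theorem exists_deg_wt (hv : ∀ i ≤ w, f (v i) = m + i) (D : ℕ) : ∀ T ≤ D * w,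
    ∃ c : σ →₀ ℕ, dg c = D ∧ wt f c = D * m + T := by
  induction D with
  | zero =>
    intro T hT
    exact ⟨0, by rw [dg, wt_zero], by rw [wt_zero]; omega⟩
  | succ D ih =>
    intro T hT
    have h1 : (D + 1) * w = D * w + w := by ring
    rcases le_total T w with h | h
    · obtain ⟨c, hc1, hc2⟩ := ih 0 (Nat.zero_le _)
      refine ⟨Finsupp.single (v T) 1 + c, ?_, ?_⟩
      · rw [dg_add, dg_single, hc1, add_comm]
      · rw [wt_add, wt_single, hv T h, hc2]; ring
    · obtain ⟨c, hc1, hc2⟩ := ih (T - w) (by omega)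
      refine ⟨Finsupp.single (v w) 1 + c, ?_, ?_⟩
      · rw [dg_add, dg_single, hc1, add_comm]
      · rw [wt_add, wt_single, hv w (le_refl _), hc2]
        obtain ⟨e, rfl⟩ := Nat.exists_eq_add_of_le h
        rw [Nat.add_sub_cancel_left]
        ring

/-- equality of sums of two singletons -/
theorem pair_eq {a b c d : σ} (h : Finsupp.single a 1 + Finsupp.single b 1
    = (Finsupp.single c 1 + Finsupp.single d 1 : σ →₀ ℕ)) : (a = c ∧ b = d) ∨ (a = d ∧ b = c) := by
  classical
  have h1 := DFunLike.congr_fun h a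
  rw [Finsupp.add_apply, Finsupp.add_apply, Finsupp.single_eq_same, Finsupp.single_apply,
    Finsupp.single_apply, Finsupp.single_apply] at h1
  by_cases hca : c = a
  · left
    subst hca
    refine ⟨rfl, ?_⟩
    have h2 := add_left_cancel h
    exact (Finsupp.single_left_inj one_ne_zero).1 h2
  · by_cases hda : d = a
    · right
      subst hda
      refine ⟨rfl, ?_⟩
      rw [add_comm] at h
      have h2 := add_right_cancel h
      exact (Finsupp.single_left_inj one_ne_zero).1 h2
    · exfalso
      rw [if_neg hca, if_neg hda] at h1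
      split_ifs at h1

theorem lower_interval (hinj : Function.Injective f) (hv : ∀ i ≤ w, f (v i) = m + i)
    (hrange : ∀ x, ∃ i ≤ w, x = v i) (hw1 : 1 ≤ w) (hwm : w < m) {d : ℕ} (hd1 : m ≤ d * w)
    (hd2 : (d - 1) * w < m) :
    (((PP (w - 1)).card + (d * w - m + 1) : ℕ) : Cardinal)
      ≤ Submodule.spanRank (RingHom.ker (ev f)) := by
  classical
  have hf1 : ∀ x, m ≤ f x := by
    intro x
    obtain ⟨i, hi, rfl⟩ := hrange x
    rw [hv i hi]; omega
  have hf2 : ∀ x, f x ≤ m + w := by
    intro x
    obtain ⟨i, hi, rfl⟩ := hrange x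
    rw [hv i hi]; omega
  have hvinj : ∀ i ≤ w, ∀ j ≤ w, v i = v j → i = j := by
    intro i hi j hj h
    have h1 := hv i hi
    have h2 := hv j hj
    rw [h] at h1
    omega
  have hdge : 2 ≤ d := by
    by_contra hc
    push Not at hc
    have : d = 0 ∨ d = 1 := by omega
    rcases this with rfl | rfl
    · simp at hd1; omega
    · omega
  obtain ⟨d', rfl⟩ : ∃ d', d = d' + 2 := ⟨d - 2, by omega⟩
  have hd2' : (d' + 1) * w < m := by
    have : d' + 2 - 1 = d' + 1 := by omega
    rwa [this] at hd2
  -- index type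
  let ι := {z : Σ _ : ℕ, ℕ // z ∈ PP (w - 1)} ⊕ Fin ((d' + 2) * w - m + 1)
  let E : ℕ → (σ →₀ ℕ) := fun i => Finsupp.single (v i) 1
  have hE : ∀ i, E i = Finsupp.single (v i) 1 := fun i => rfl
  let Q : (Σ _ : ℕ, ℕ) → (σ →₀ ℕ) := fun z => E (z.2 + 1) + E (z.1 + 1)
  let R : (Σ _ : ℕ, ℕ) → (σ →₀ ℕ) := fun z =>
    if z.2 + 1 + (z.1 + 1) ≤ w then E 0 + E (z.2 + 1 + (z.1 + 1))
    else E w + E (z.2 + 1 + (z.1 + 1) - w)
  let sE : ℕ → ℕ := fun t => (d' + 3) * m + t
  have hU : ∀ t ≤ (d' + 2) * w - m, ∃ c : σ →₀ ℕ, dg c = d' + 2 ∧ wt f c = sE t := by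
    intro t ht
    obtain ⟨c, h1, h2⟩ := exists_deg_wt hv (d' + 2) (m + t) (by omega)
    exact ⟨c, h1, by rw [h2]; simp only [sE]; ring⟩
  have hV : ∀ t ≤ (d' + 2) * w - m, ∃ c : σ →₀ ℕ, dg c = d' + 3 ∧ wt f c = sE t := by
    intro t ht
    obtain ⟨c, h1, h2⟩ := exists_deg_wt hv (d' + 3) t (by
      have : (d' + 3) * w = (d' + 2) * w + w := by ring
      omega)
    exact ⟨c, h1, by rw [h2]⟩
  choose! U hU1 hU2 using hU
  choose! V hV1 hV2 using hV
  let g : ι → (σ →₀ ℕ) → ℚ := Sum.elim (fun z c => if c = Q z.1 then 1 else 0)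
    (fun t c => if wt f c = sE t ∧ dg c = d' + 2 then 1 else 0)
  let h : ι → σ → ℕ → ℚ := Sum.elim
    (fun z l x => if (l = v (z.1.2 + 1) ∧ x = m + (z.1.1 + 1)) ∨
      (l = v (z.1.1 + 1) ∧ x = m + (z.1.2 + 1)) then 1 else 0)
    (fun t l x => if x + f l = sE t ∧ x ≤ (d' + 1) * (m + w) then 1 else 0)
  let P : ι → MvPolynomial σ ℚ := Sum.elim
    (fun z => monomial (Q z.1) 1 - monomial (R z.1) 1)
    (fun t => monomial (U t) 1 - monomial (V t) 1)
  have hcard : Fintype.card ι = (PP (w - 1)).card + ((d' + 2) * w - m + 1) := by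
    rw [Fintype.card_sum, Fintype.card_coe, Fintype.card_fin]
  rw [← hcard]
  have hzb : ∀ z : {z : Σ _ : ℕ, ℕ // z ∈ PP (w - 1)}, z.1.1 + 1 < w ∧ z.1.2 ≤ z.1.1 := by
    intro z
    have := mem_PP.1 z.2
    omega
  have hwtQ : ∀ z : {z : Σ _ : ℕ, ℕ // z ∈ PP (w - 1)},
      wt f (Q z.1) = 2 * m + (z.1.2 + 1 + (z.1.1 + 1)) := by
    intro z
    have := hzb z
    simp only [Q, E]
    rw [wt_add, wt_single, wt_single, hv _ (by omega), hv _ (by omega)]
    ring
  have hwtR : ∀ z : {z : Σ _ : ℕ, ℕ // z ∈ PP (w - 1)},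
      wt f (R z.1) = 2 * m + (z.1.2 + 1 + (z.1.1 + 1)) := by
    intro z
    have := hzb z
    simp only [R, E]
    split_ifs with hc
    · rw [wt_add, wt_single, wt_single, hv _ (by omega), hv _ (by omega)]
      ring
    · rw [wt_add, wt_single, wt_single, hv _ (by omega), hv _ (by omega)]
      omega
  have hdgQ : ∀ z : {z : Σ _ : ℕ, ℕ // z ∈ PP (w - 1)}, dg (Q z.1) = 2 := by
    intro z
    simp only [Q, E]
    rw [dg_add, dg_single, dg_single]
  have hdgR : ∀ z : {z : Σ _ : ℕ, ℕ // z ∈ PP (w - 1)}, dg (R z.1) = 2 := by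
    intro z
    simp only [R, E]
    split_ifs with hc
    · rw [dg_add, dg_single, dg_single]
    · rw [dg_add, dg_single, dg_single]
  have hQinj : ∀ z z' : {z : Σ _ : ℕ, ℕ // z ∈ PP (w - 1)}, Q z.1 = Q z'.1 → z = z' := by
    intro z z' hzz
    have b1 := hzb z
    have b2 := hzb z'
    simp only [Q, E] at hzz
    have h1 : z.1.2 = z'.1.2 ∧ z.1.1 = z'.1.1 := by
      rcases pair_eq hzz with h | h
      · have e1 := hvinj _ (by omega) _ (by omega) h.1
        have e2 := hvinj _ (by omega) _ (by omega) h.2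
        omega
      · have e1 := hvinj _ (by omega) _ (by omega) h.1
        have e2 := hvinj _ (by omega) _ (by omega) h.2
        omega
    apply Subtype.ext
    exact Sigma.ext h1.2 (heq_of_eq h1.1)
  have hRQ : ∀ z z' : {z : Σ _ : ℕ, ℕ // z ∈ PP (w - 1)}, R z.1 ≠ Q z'.1 := by
    intro z z' hzz
    have b1 := hzb z
    have b2 := hzb z'
    simp only [R, Q, E] at hzz
    split_ifs at hzz with hc
    · rcases pair_eq hzz with h | h
      · have e1 := hvinj _ (by omega) _ (by omega) h.1
        omega
      · have e1 := hvinj _ (by omega) _ (by omega) h.1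
        omega
    · rcases pair_eq hzz with h | h
      · have e1 := hvinj _ (by omega) _ (by omega) h.1
        omega
      · have e1 := hvinj _ (by omega) _ (by omega) h.1
        omega
  refine card_le_spanRank f g h ?_ P ?_ ?_
  · intro i l c
    rcases i with z | t
    · simp only [g, h, Sum.elim_inl]
      have b1 := hzb z
      have hiff : (c + Finsupp.single l 1 = Q z.1) ↔
          ((l = v (z.1.2 + 1) ∧ wt f c = m + (z.1.1 + 1)) ∨
            (l = v (z.1.1 + 1) ∧ wt f c = m + (z.1.2 + 1))) := by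
        simp only [Q, E]
        constructor
        · intro hc
          have h1 : l = v (z.1.2 + 1) ∨ l = v (z.1.1 + 1) := by
            by_contra hcon
            push Not at hcon
            have h2 := DFunLike.congr_fun hc l
            rw [Finsupp.add_apply, Finsupp.add_apply, Finsupp.single_eq_same,
              Finsupp.single_apply, Finsupp.single_apply, if_neg (Ne.symm hcon.1),
              if_neg (Ne.symm hcon.2)] at h2
            omega
          rcases h1 with rfl | rfl
          · left
            refine ⟨rfl, ?_⟩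
            rw [add_comm] at hc
            have h3 := add_left_cancel hc
            rw [h3, wt_single, hv _ (by omega), one_mul]
          · right
            refine ⟨rfl, ?_⟩
            have h3 := add_right_cancel hc
            rw [h3, wt_single, hv _ (by omega), one_mul]
        · rintro (⟨rfl, h2⟩ | ⟨rfl, h2⟩)
          · rw [eq_single_of_wt hf1 hinj hv hwm (by omega) h2, add_comm]
          · rw [eq_single_of_wt hf1 hinj hv hwm (by omega) h2]
      by_cases hc : c + Finsupp.single l 1 = Q z.1
      · rw [if_pos hc, if_pos (hiff.1 hc)]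
      · rw [if_neg hc, if_neg (fun h => hc (hiff.2 h))]
    · simp only [g, h, Sum.elim_inr]
      have hiff : (wt f (c + Finsupp.single l 1) = sE t ∧ dg (c + Finsupp.single l 1) = d' + 2) ↔
          (wt f c + f l = sE t ∧ wt f c ≤ (d' + 1) * (m + w)) := by
        rw [wt_add, wt_single, one_mul, dg_add, dg_single]
        obtain ⟨b1, b2⟩ := wt_bounds hf1 hf2 c
        have b3 := hf1 l
        have b4 := hf2 l
        constructor
        · rintro ⟨h1, h2⟩
          refine ⟨h1, ?_⟩
          have : dg c = d' + 1 := by omega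
          rw [this] at b2
          exact b2
        · rintro ⟨h1, h2⟩
          refine ⟨h1, ?_⟩
          have e1 : dg c < d' + 2 := by
            by_contra hc
            push Not at hc
            have := Nat.mul_le_mul_right m hc
            have e2 : (d' + 2) * m = (d' + 1) * m + m := by ring
            have e3 : (d' + 1) * (m + w) = (d' + 1) * m + (d' + 1) * w := by ring
            omega
          have e4 : d' < dg c := by
            by_contra hc
            push Not at hc
            have := Nat.mul_le_mul_right (m + w) hc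
            have e2 : d' * (m + w) = d' * m + d' * w := by ring
            have e3 : (d' + 3) * m = d' * m + 3 * m := by ring
            have e5 : (d' + 1) * w = d' * w + w := by ring
            simp only [sE] at h1
            omega
          omega
      by_cases hc : wt f (c + Finsupp.single l 1) = sE t ∧ dg (c + Finsupp.single l 1) = d' + 2
      · rw [if_pos hc, if_pos (hiff.1 hc)]
      · rw [if_neg hc, if_neg (fun h => hc (hiff.2 h))]
  · intro i
    rcases i with z | t
    · simp only [P, Sum.elim_inl]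
      exact binomial_mem_ker f _ _ (by rw [hwtQ, hwtR])
    · simp only [P, Sum.elim_inr]
      have ht : (t : ℕ) ≤ (d' + 2) * w - m := by have := t.2; omega
      exact binomial_mem_ker f _ _ (by rw [hU2 _ ht, hV2 _ ht])
  · -- the matrix
    have hL : ∀ (j : ι) (a b : σ →₀ ℕ), Lf (g j) (monomial a 1 - monomial b 1)
        = g j a - g j b := by
      intro j a b
      rw [map_sub, Lf_monomial, Lf_monomial, one_mul, one_mul]
    have m1 : ∀ (t : Fin ((d' + 2) * w - m + 1)) (z : {z : Σ _ : ℕ, ℕ // z ∈ PP (w - 1)}),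
        Lf (g (Sum.inr t)) (P (Sum.inl z)) = 0 := by
      intro t z
      simp only [P, Sum.elim_inl]
      rw [hL]
      simp only [g, Sum.elim_inr]
      rw [hwtQ, hwtR, hdgQ, hdgR, sub_self]
    have m2 : ∀ (t t' : Fin ((d' + 2) * w - m + 1)),
        Lf (g (Sum.inr t)) (P (Sum.inr t')) = if t' = t then 1 else 0 := by
      intro t t'
      have ht' : (t' : ℕ) ≤ (d' + 2) * w - m := by have := t'.2; omega
      simp only [P, Sum.elim_inr]
      rw [hL]
      simp only [g, Sum.elim_inr]
      rw [hU1 _ ht', hU2 _ ht', hV1 _ ht', hV2 _ ht']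
      have e1 : ¬ (sE t' = sE t ∧ d' + 3 = d' + 2) := by omega
      rw [if_neg e1, sub_zero]
      by_cases hc : t' = t
      · rw [if_pos hc, if_pos ⟨by rw [hc], rfl⟩]
      · rw [if_neg hc, if_neg]
        rintro ⟨h1, _⟩
        apply hc
        apply Fin.ext
        simp only [sE] at h1
        omega
    have m3 : ∀ (z z' : {z : Σ _ : ℕ, ℕ // z ∈ PP (w - 1)}),
        Lf (g (Sum.inl z)) (P (Sum.inl z')) = if z' = z then 1 else 0 := by
      intro z z'
      simp only [P, Sum.elim_inl]
      rw [hL]
      simp only [g, Sum.elim_inl]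
      rw [if_neg (hRQ z' z), sub_zero]
      by_cases hc : z' = z
      · rw [if_pos hc, if_pos (by rw [hc])]
      · rw [if_neg hc, if_neg (fun h => hc (hQinj _ _ h))]
    rw [Fintype.linearIndependent_iff]
    intro c hc
    have hr : ∀ t, c (Sum.inr t) = 0 := by
      intro t
      have h1 := congr_fun hc (Sum.inr t)
      rw [Fintype.sum_sum_type] at h1
      simp only [Pi.add_apply, Finset.sum_apply, Pi.smul_apply, smul_eq_mul, Pi.zero_apply] at h1
      simp only [m1, m2, mul_zero, Finset.sum_const_zero, zero_add, mul_ite, mul_one,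
        Finset.sum_ite_eq', Finset.mem_univ, if_true] at h1
      exact h1
    have hl : ∀ z, c (Sum.inl z) = 0 := by
      intro z
      have h1 := congr_fun hc (Sum.inl z)
      rw [Fintype.sum_sum_type] at h1
      simp only [Pi.add_apply, Finset.sum_apply, Pi.smul_apply, smul_eq_mul, Pi.zero_apply] at h1
      simp only [hr, m3, zero_mul, Finset.sum_const_zero, add_zero, mul_ite, mul_one, mul_zero,
        Finset.sum_ite_eq', Finset.mem_univ, if_true] at h1
      exact h1
    rintro (z | t)
    · exact hl z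
    · exact hr t

end Lower

end Pool.Agent.H51c
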