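import Pool.Agent.H51c.Count
import Pool.Agent.H51c.Lower

/-!
Upper bound for the number of relations in terms of the multiplicity.
-/

set_option autoImplicit false

namespace Pool.Agent.H51c

open MvPolynomial

section Mult

variable {S : Finset ℕ} {m : ℕ}

/-- least element of the semigroup in a residue class -/
noncomputable def om (S : Finset ℕ) (m i : ℕ) : ℕ := sInf {s | s ∈ Gm S ∧ s % m = i}

theorem om_spec (hm : 0 < m) (hN : ∃ N, ∀ s, N ≤ s → s ∈ Gm S) {i : ℕ} (hi : i < m) :
    om S m i ∈ Gm S ∧ om S m i % m = i := by
  have hne : {s | s ∈ Gm S ∧ s % m = i}.Nonempty := by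
    obtain ⟨N, hN⟩ := hN
    refine ⟨i + m * N, hN _ ?_, ?_⟩
    · have := Nat.le_mul_of_pos_left N hm
      omega
    · rw [Nat.add_mul_mod_self_left, Nat.mod_eq_of_lt hi]
  exact Nat.sInf_mem hne

theorem om_le {s : ℕ} (hs : s ∈ Gm S) : om S m (s % m) ≤ s := Nat.sInf_le ⟨hs, rfl⟩

theorem om_div (hm : 0 < m) (hN : ∃ N, ∀ s, N ≤ s → s ∈ Gm S) {s : ℕ} (hs : s ∈ Gm S) :
    ∃ k, s = om S m (s % m) + k * m := by
  have h1 := om_le (m := m) hs
  have h2 := (om_spec hm hN (Nat.mod_lt s hm)).2
  obtain ⟨e, he⟩ := Nat.exists_eq_add_of_le h1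
  have h3 : om S m (s % m) + e ≡ om S m (s % m) + 0 [MOD m] := by
    rw [← he, add_zero, Nat.ModEq, h2]
  have h4 : e ≡ 0 [MOD m] := Nat.ModEq.add_left_cancel' _ h3
  rw [Nat.modEq_zero_iff_dvd] at h4
  obtain ⟨k, hk⟩ := h4
  refine ⟨k, ?_⟩
  have h5 : k * m = e := by rw [hk]; ring
  omega

/-- uniqueness of the factorization of a generator -/
theorem fac_gen (hpos : 0 ∉ S)
    (hmin : ∀ a ∈ S, a ∉ AddSubmonoid.closure ((S.erase a : Finset ℕ) : Set ℕ))
    {a : ℕ} (ha : a ∈ S) (c : S →₀ ℕ) (hc : wt (fS S) c = a) :
    c = Finsupp.single ⟨a, ha⟩ 1 := by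
  have ha0 : a ≠ 0 := fun h => hpos (h ▸ ha)
  have hne : c ≠ 0 := by
    rintro rfl
    rw [wt_zero] at hc
    exact ha0 hc.symm
  obtain ⟨x, hx⟩ := exists_ne hne
  obtain ⟨c', rfl⟩ := split_single hx
  rw [wt_add, wt_single, one_mul] at hc
  have h1 := gen_indec hpos hmin ha x.2 (wt_mem c') hc.symm
  have hc' : c' = 0 := by
    by_contra hne'
    obtain ⟨y, hy⟩ := exists_ne hne'
    obtain ⟨c'', rfl⟩ := split_single hy
    have h2 : wt (fun i : S => (i : ℕ)) (Finsupp.single y 1 + c'') = y + wt (fS S) c'' := by
      rw [wt_add, wt_single, one_mul]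
    have h3 : (y : ℕ) ≠ 0 := fun h => hpos (h ▸ y.2)
    omega
  subst hc'
  rw [wt_zero, add_zero] at hc
  rw [add_zero]
  congr 1
  exact Subtype.ext hc

/-- the classical upper bound by the multiplicity -/
theorem upper_mult (hpos : 0 ∉ S)
    (hmin : ∀ a ∈ S, a ∉ AddSubmonoid.closure ((S.erase a : Finset ℕ) : Set ℕ))
    (hmS : m ∈ S) (hN : ∃ N, ∀ s, N ≤ s → s ∈ Gm S) :
    Submodule.spanRank (RingHom.ker (ev (fS S))) ≤ (((PP (m - 1)).card : ℕ) : Cardinal) := by
  classical
  have hm : 0 < m := by
    rcases Nat.eq_zero_or_pos m with h | h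
    · exact absurd (h ▸ hmS) hpos
    · exact h
  have hfac : ∀ i, ∃ c : S →₀ ℕ, i < m → wt (fS S) c = om S m i := by
    intro i
    by_cases hi : i < m
    · obtain ⟨c, hc⟩ := exists_fac (om_spec hm hN hi).1
      exact ⟨c, fun _ => hc⟩
    · exact ⟨0, fun h => absurd h hi⟩
  choose c hc using hfac
  set xm : S →₀ ℕ := Finsupp.single ⟨m, hmS⟩ 1 with hxm
  have hwxm : wt (fS S) xm = m := by rw [hxm, wt_single, one_mul]
  have hwk : ∀ k : ℕ, wt (fS S) (k • xm) = k * m := by
    intro k
    rw [hxm, Finsupp.smul_single, wt_single, smul_eq_mul, mul_one]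
  -- quotients
  have hk : ∀ i j, ∃ k, i < m → j < m →
      om S m i + om S m j = om S m ((i + j) % m) + k * m := by
    intro i j
    by_cases hi : i < m
    · by_cases hj : j < m
      · have h1 := om_spec hm hN hi
        have h2 := om_spec hm hN hj
        obtain ⟨k, hk⟩ := om_div hm hN ((Gm S).add_mem h1.1 h2.1)
        have h3 : (om S m i + om S m j) % m = (i + j) % m := by
          rw [Nat.add_mod, h1.2, h2.2]
        rw [h3] at hk
        exact ⟨k, fun _ _ => hk⟩
      · exact ⟨0, fun _ h => absurd h hj⟩
    · exact ⟨0, fun h _ => absurd h hi⟩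
  choose K hK using hk
  set gen : (Σ _ : ℕ, ℕ) → MvPolynomial S ℚ := fun z =>
    monomial (c (z.2 + 1) + c (z.1 + 1)) (1 : ℚ)
      - monomial (K (z.2 + 1) (z.1 + 1) • xm + c ((z.2 + 1 + (z.1 + 1)) % m)) 1 with hgen
  refine (spanRank_ker_le (fS S) ((PP (m - 1)).image gen) ?_ ?_).trans ?_
  · intro x hx
    rw [Finset.mem_image] at hx
    obtain ⟨z, hz, rfl⟩ := hx
    rw [mem_PP] at hz
    apply binomial_mem_ker
    rw [wt_add, wt_add, hwk, hc _ (by omega), hc _ (by omega), hc _ (Nat.mod_lt _ hm),
      hK _ _ (by omega) (by omega)]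
    ring
  · set J := Ideal.span (((PP (m - 1)).image gen : Finset (MvPolynomial S ℚ)) :
      Set (MvPolynomial S ℚ)) with hJ
    have hgenJ : ∀ i j, 0 < i → i ≤ j → j < m →
        monomial (c i + c j) (1 : ℚ) - monomial (K i j • xm + c ((i + j) % m)) 1 ∈ J := by
      intro i j hi hij hj
      apply Ideal.subset_span
      rw [Finset.mem_coe, Finset.mem_image]
      refine ⟨⟨j - 1, i - 1⟩, mem_PP.2 ⟨by simp only; omega, by simp only; omega⟩, ?_⟩
      simp only [hgen]
      have e1 : i - 1 + 1 = i := by omega
      have e2 : j - 1 + 1 = j := by omega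
      rw [e1, e2]
    have hKsymm : ∀ i j, i < m → j < m → K i j = K j i := by
      intro i j hi hj
      have h1 := hK i j hi hj
      have h2 := hK j i hj hi
      rw [add_comm j i] at h2
      have h3 : K i j * m = K j i * m := by omega
      exact Nat.eq_of_mul_eq_mul_right hm h3
    have hgenJ' : ∀ i j, 0 < i → 0 < j → i < m → j < m →
        monomial (c i + c j) (1 : ℚ) - monomial (K i j • xm + c ((i + j) % m)) 1 ∈ J := by
      intro i j hi hj him hjm
      rcases le_total i j with h | h
      · exact hgenJ i j hi h hjm
      · have := hgenJ j i hj h him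
        rw [hKsymm i j him hjm, add_comm i j, add_comm (c i) (c j)]
        exact this
    -- normal forms
    have hc0 : c 0 = 0 := by
      have h1 := hc 0 hm
      have h2 : om S m 0 = 0 := by
        have := om_le (m := m) (Gm S).zero_mem
        rw [Nat.zero_mod] at this
        omega
      rw [h2] at h1
      by_contra hne
      obtain ⟨x, hx⟩ := exists_ne hne
      obtain ⟨c', hc'⟩ := split_single hx
      rw [hc', wt_add, wt_single, one_mul] at h1
      have h3 : (x : ℕ) ≠ 0 := fun h => hpos (h ▸ x.2)
      have h4 : fS S x = (x : ℕ) := rfl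
      omega
    have hca : ∀ a (ha : a ∈ S), a ≠ m → a % m ≠ 0 ∧ om S m (a % m) = a ∧
        c (a % m) = Finsupp.single ⟨a, ha⟩ 1 := by
      intro a ha ham
      have ha0 : a ≠ 0 := fun h => hpos (h ▸ ha)
      obtain ⟨k, hk⟩ := om_div hm hN (mem_Gm_of_mem ha)
      have hk0 : k = 0 := by
        by_contra hk0
        obtain ⟨k', hk'⟩ := Nat.exists_eq_succ_of_ne_zero hk0
        have h1 : a = m + (om S m (a % m) + k' * m) := by
          conv_lhs => rw [hk, hk']
          simp only [Nat.succ_eq_add_one]; ring
        have h2 := gen_indec hpos hmin ha hmS ((Gm S).add_mem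
          (om_spec hm hN (Nat.mod_lt a hm)).1 (by
            rw [← smul_eq_mul]; exact (Gm S).nsmul_mem (mem_Gm_of_mem hmS) k')) h1
        omega
      have h3 : om S m (a % m) = a := by
        rw [hk0] at hk
        omega
      refine ⟨?_, h3, fac_gen hpos hmin ha _ ?_⟩
      · intro h4
        rw [h4] at h3
        have := om_le (m := m) (Gm S).zero_mem
        rw [Nat.zero_mod] at this
        omega
      · rw [hc _ (Nat.mod_lt _ hm), h3]
    have hnf : ∀ n, ∀ u : S →₀ ℕ, wt (fS S) u = n → ∀ k, n = om S m (n % m) + k * m →
        monomial u (1 : ℚ) - monomial (k • xm + c (n % m)) 1 ∈ J := by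
      intro n
      induction n using Nat.strong_induction_on with
      | _ n IH =>
        intro u hu k hnk
        by_cases hu0 : u = 0
        · rw [hu0, wt_zero] at hu
          rw [← hu] at hnk ⊢
          have h1 := om_le (m := m) (Gm S).zero_mem
          rw [Nat.zero_mod] at h1 hnk ⊢
          have h2 : k * m = 0 := by omega
          have h3 : k = 0 := by
            rcases Nat.mul_eq_zero.1 h2 with h | h
            · exact h
            · omega
          rw [h3, hc0, hu0, zero_smul, add_zero, sub_self]
          exact J.zero_mem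
        · obtain ⟨x, hx⟩ := exists_ne hu0
          obtain ⟨u', hu'⟩ := split_single hx
          have hx0 : (x : ℕ) ≠ 0 := fun h => hpos (h ▸ x.2)
          have hn : n = x + wt (fS S) u' := by
            rw [← hu, hu', wt_add, wt_single, one_mul]
          set n' := wt (fS S) u' with hn'
          obtain ⟨k', hk'⟩ := om_div hm hN (wt_mem u')
          have hk'' : n' = om S m (n' % m) + k' * m := hk'
          have h1 := IH n' (by omega) u' rfl k' hk''
          -- multiply by x
          have h2 : monomial u (1 : ℚ)
              - monomial (Finsupp.single x 1 + (k' • xm + c (n' % m))) 1 ∈ J := by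
            have h3 : monomial u (1 : ℚ)
              - monomial (Finsupp.single x 1 + (k' • xm + c (n' % m))) 1
              = X x * (monomial u' (1 : ℚ) - monomial (k' • xm + c (n' % m)) 1) := by
              rw [mul_sub, X, monomial_mul, monomial_mul, one_mul, hu']
            rw [h3]
            exact J.mul_mem_left _ h1
          suffices h4 : monomial (Finsupp.single x 1 + (k' • xm + c (n' % m))) (1 : ℚ)
              - monomial (k • xm + c (n % m)) 1 ∈ J by
            have := J.add_mem h2 h4
            rwa [sub_add_sub_cancel] at this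
          by_cases hxm' : (x : ℕ) = m
          · have h5 : x = ⟨m, hmS⟩ := Subtype.ext hxm'
            have h6 : n % m = n' % m := by
              rw [hn, hxm', Nat.add_mod_left]
            have h7 : k = k' + 1 := by
              rw [h6] at hnk
              have h8 : (k' + 1) * m = k' * m + m := by ring
              have h9 : k * m = (k' + 1) * m := by omega
              exact Nat.eq_of_mul_eq_mul_right hm h9
            rw [h6, h7, h5, ← hxm]
            have h8 : xm + (k' • xm + c (n' % m)) = (k' + 1) • xm + c (n' % m) := by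
              rw [add_smul, one_smul]; abel
            rw [h8, sub_self]
            exact J.zero_mem
          · obtain ⟨hx1, hx2, hx3⟩ := hca x x.2 hxm'
            have hxx : (⟨(x : ℕ), x.2⟩ : S) = x := rfl
            rw [hxx] at hx3
            rw [← hx3]
            by_cases hj : n' % m = 0
            · have h6 : n % m = x % m := by
                rw [hn, Nat.add_mod, hj, add_zero, Nat.mod_mod]
              have h0 : om S m 0 = 0 := by
                have := om_le (m := m) (Gm S).zero_mem
                rw [Nat.zero_mod] at this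
                omega
              rw [hj, h0] at hk''
              have h7 : k = k' := by
                rw [h6, hx2] at hnk
                have h9 : k * m = k' * m := by omega
                exact Nat.eq_of_mul_eq_mul_right hm h9
              rw [h6, h7, hj, hc0, add_zero, add_comm, sub_self]
              exact J.zero_mem
            · have h5 := hgenJ' (x % m) (n' % m) (by omega) (by omega) (Nat.mod_lt _ hm)
                (Nat.mod_lt _ hm)
              have h6 : (x % m + n' % m) % m = n % m := by
                rw [hn, ← Nat.add_mod]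
              rw [h6] at h5
              have h7 : k = K (x % m) (n' % m) + k' := by
                have h8 := hK (x % m) (n' % m) (Nat.mod_lt _ hm) (Nat.mod_lt _ hm)
                rw [h6, hx2] at h8
                have h9 : (K (x % m) (n' % m) + k') * m = K (x % m) (n' % m) * m + k' * m := by
                  ring
                have h10 : k * m = (K (x % m) (n' % m) + k') * m := by omega
                exact Nat.eq_of_mul_eq_mul_right hm h10
              have h8 : monomial (c (x % m) + (k' • xm + c (n' % m))) (1 : ℚ)
                  - monomial (k • xm + c (n % m)) 1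
                  = monomial (k' • xm) 1 * (monomial (c (x % m) + c (n' % m)) (1 : ℚ)
                    - monomial (K (x % m) (n' % m) • xm + c (n % m)) 1) := by
                rw [mul_sub, monomial_mul, monomial_mul, one_mul, h7, add_smul]
                congr 2
                · congr 1
                  abel
                · congr 1
                  abel
              rw [h8]
              exact J.mul_mem_left _ h5
    apply ker_le_of_binomial
    intro u v huv
    obtain ⟨k, hk⟩ := om_div hm hN (wt_mem u)
    have h1 := hnf (wt (fS S) u) u rfl k hk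
    have h2 := hnf (wt (fS S) u) v huv.symm k hk
    have h3 := J.sub_mem h1 h2
    rwa [sub_sub_sub_cancel_right] at h3
  · exact_mod_cast Finset.card_image_le

end Mult

end Pool.Agent.H51c
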