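import Pool.Agent.H51c.Upper
import Pool.Agent.H51c.Mult

/-!
The final comparison.
-/

set_option autoImplicit false

namespace Pool.Agent.H51c

open MvPolynomial

section Iso

theorem spanRank_congr {σ τ : Type} (e : σ ≃ τ) (f : σ → ℕ) (h : τ → ℕ) (hfh : ∀ x, h (e x) = f x) :
    Submodule.spanRank (RingHom.ker (ev f)) ≤ Submodule.spanRank (RingHom.ker (ev h)) := by
  classical
  obtain ⟨s, hs1, hs2⟩ := Submodule.exists_span_set_card_eq_spanRank (RingHom.ker (ev h))
  let φ : MvPolynomial τ ℚ ≃ₐ[ℚ] MvPolynomial σ ℚ := renameEquiv ℚ e.symm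
  have hev : ∀ p : MvPolynomial τ ℚ, ev f (φ p) = ev h p := by
    intro p
    have h1 : ∀ q : MvPolynomial τ ℚ, φ q = rename e.symm q := fun q => rfl
    rw [h1, ev, ev, aeval_rename]
    congr 2
    funext x
    simp only [Function.comp_apply]
    have := hfh (e.symm x)
    rw [Equiv.apply_symm_apply] at this
    rw [this]
  have key : RingHom.ker (ev f) = Ideal.span (φ '' s) := by
    apply le_antisymm
    · intro p hp
      have h1 : φ.symm p ∈ RingHom.ker (ev h) := by
        rw [RingHom.mem_ker, ← hev, AlgEquiv.apply_symm_apply]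
        exact hp
      rw [← hs2] at h1
      have h2 : φ (φ.symm p) ∈ Ideal.map (φ : MvPolynomial τ ℚ →+* MvPolynomial σ ℚ)
          (Ideal.span s) := Ideal.mem_map_of_mem _ h1
      rw [Ideal.map_span, AlgEquiv.apply_symm_apply] at h2
      exact h2
    · rw [Ideal.span_le]
      rintro _ ⟨q, hq, rfl⟩
      have h1 : q ∈ RingHom.ker (ev h) := by
        rw [← hs2]; exact Submodule.subset_span hq
      change φ q ∈ RingHom.ker (ev f)
      rw [RingHom.mem_ker, hev]
      exact h1
  rw [key]
  refine (Submodule.spanRank_span_le_card _).trans ?_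
  rw [← hs1]
  exact Cardinal.mk_image_le

end Iso

section Closure

theorem notMem_closure_of_lt {m n : ℕ} {T : Set ℕ} (hT : ∀ x ∈ T, m ≤ x) (hn : n < 2 * m)
    (hnT : n ∉ T) (hn0 : n ≠ 0) : n ∉ AddSubmonoid.closure T := by
  intro h
  have key : ∀ x ∈ AddSubmonoid.closure T, x = 0 ∨ x ∈ T ∨ 2 * m ≤ x := by
    intro x hx
    induction hx using AddSubmonoid.closure_induction with
    | mem x hx => exact Or.inr (Or.inl hx)
    | zero => exact Or.inl rfl
    | add x y _ _ hx hy =>
      rcases hx with rfl | hx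
      · rw [zero_add]; exact hy
      · rcases hy with rfl | hy
        · rw [add_zero]; exact Or.inr hx
        · right; right
          have h1 : m ≤ x := by
            rcases hx with hx | hx
            · exact hT x hx
            · omega
          have h2 : m ≤ y := by
            rcases hy with hy | hy
            · exact hT y hy
            · omega
          omega
  rcases key n h with h1 | h1 | h1
  · exact hn0 h1
  · exact hnT h1
  · omega

theorem cond_iff {m M n : ℕ} (hm : 0 < m) (h1 : m ≤ n) (h2 : n ≤ M) :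
    n ∉ AddSubmonoid.closure (((Finset.Icc m M : Finset ℕ) : Set ℕ) \ ({n} : Set ℕ)) ↔
      n < 2 * m := by
  constructor
  · intro h
    by_contra hc
    push Not at hc
    apply h
    have e1 : m ∈ AddSubmonoid.closure
        (((Finset.Icc m M : Finset ℕ) : Set ℕ) \ ({n} : Set ℕ)) := by
      apply AddSubmonoid.subset_closure
      refine ⟨?_, ?_⟩
      · rw [Finset.mem_coe, Finset.mem_Icc]; omega
      · rw [Set.mem_singleton_iff]; omega
    have e2 : n - m ∈ AddSubmonoid.closure
        (((Finset.Icc m M : Finset ℕ) : Set ℕ) \ ({n} : Set ℕ)) := by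
      apply AddSubmonoid.subset_closure
      refine ⟨?_, ?_⟩
      · rw [Finset.mem_coe, Finset.mem_Icc]; omega
      · rw [Set.mem_singleton_iff]; omega
    have e3 := AddSubmonoid.add_mem _ e1 e2
    have e4 : m + (n - m) = n := by omega
    rwa [e4] at e3
  · intro h
    refine notMem_closure_of_lt (m := m) ?_ h ?_ (by omega)
    · rintro x ⟨hx, _⟩
      rw [Finset.mem_coe, Finset.mem_Icc] at hx
      exact hx.1
    · rintro ⟨_, hx⟩
      exact hx (Set.mem_singleton _)

end Closure

section Gen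

theorem exists_conductor {A : Finset ℕ} (hgcd : A.gcd id = 1) :
    ∃ N, ∀ s, N ≤ s → s ∈ Gm A := by
  obtain ⟨N, hN⟩ := Nat.exists_mem_closure_of_ge (A : Set ℕ)
  refine ⟨N, fun s hs => hN s hs ?_⟩
  have h1 : Nat.setGcd (A : Set ℕ) ∣ A.gcd id := Finset.dvd_gcd fun b hb =>
    Nat.setGcd_dvd_of_mem (Finset.mem_coe.2 hb)
  rw [hgcd] at h1
  exact h1.trans (one_dvd s)

theorem closure_Ab {A : Finset ℕ} (w : ℕ) (hgcd : A.gcd id = 1) :
    AddSubgroup.closure (Ab A w : Set (ZMod w)) = ⊤ := by
  set H := AddSubgroup.closure (Ab A w : Set (ZMod w)) with hH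
  let T : AddSubgroup ℤ := H.comap (Int.castAddHom (ZMod w))
  obtain ⟨a, ha⟩ := Int.subgroup_cyclic T
  have hAT : ∀ α ∈ A, (α : ℤ) ∈ T := by
    intro α hα
    change (Int.castAddHom (ZMod w)) (α : ℤ) ∈ H
    apply AddSubgroup.subset_closure
    rw [Finset.mem_coe, Ab, Finset.mem_image]
    exact ⟨α, hα, by simp⟩
  have hdvd : a.natAbs ∣ A.gcd id := by
    apply Finset.dvd_gcd
    intro α hα
    have h1 := hAT α hα
    rw [ha, AddSubgroup.mem_closure_singleton] at h1
    obtain ⟨n, hn⟩ := h1
    have h2 : a ∣ (α : ℤ) := ⟨n, by rw [← hn, smul_eq_mul, mul_comm]⟩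
    have h3 := Int.natAbs_dvd_natAbs.2 h2
    simpa using h3
  rw [hgcd, Nat.dvd_one] at hdvd
  have h1T : (1 : ℤ) ∈ T := by
    rw [ha, AddSubgroup.mem_closure_singleton]
    rcases Int.natAbs_eq a with h | h
    · exact ⟨1, by rw [h, hdvd]; simp⟩
    · exact ⟨-1, by rw [h, hdvd]; simp⟩
  have h1H : (1 : ZMod w) ∈ H := by
    have : (Int.castAddHom (ZMod w)) (1 : ℤ) ∈ H := h1T
    simpa using this
  rw [eq_top_iff]
  intro x _
  obtain ⟨z, rfl⟩ := ZMod.intCast_surjective x
  have : (z : ZMod w) = z • (1 : ZMod w) := by simp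
  rw [this]
  exact H.zsmul_mem h1H z

end Gen

end Pool.Agent.H51c
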