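import Pool.Agent.H51c.Ker

/-!
The graph of a generating set of a numerical semigroup at an element.
-/

set_option autoImplicit false

namespace Pool.Agent.H51c

open MvPolynomial

/-- the semigroup generated by `S` -/
def Gm (S : Finset ℕ) : AddSubmonoid ℕ := AddSubmonoid.closure (S : Set ℕ)

/-- `s - x` lies in the semigroup -/
def Dv (S : Finset ℕ) (x s : ℕ) : Prop := ∃ γ ∈ Gm S, s = x + γ

/-- adjacency in the graph at `s` -/
def Adj (S : Finset ℕ) (s a b : ℕ) : Prop := a ∈ S ∧ b ∈ S ∧ Dv S (a + b) s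

/-- connectedness in the graph at `s` -/
def Conn (S : Finset ℕ) (s a b : ℕ) : Prop := Relation.ReflTransGen (Adj S s) a b

section Basic

variable {S : Finset ℕ}

theorem mem_Gm_of_mem {a : ℕ} (h : a ∈ S) : a ∈ Gm S := AddSubmonoid.subset_closure h

theorem Dv_zero_iff {s : ℕ} : Dv S 0 s ↔ s ∈ Gm S := by
  constructor
  · rintro ⟨γ, hγ, rfl⟩; simpa using hγ
  · intro h; exact ⟨s, h, by simp⟩

theorem Dv_add_right {x y : ℕ} (hy : y ∈ Gm S) : Dv S x (x + y) := ⟨y, hy, rfl⟩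

theorem Dv_trans {x y s : ℕ} (hy : y ∈ Gm S) (h : Dv S (x + y) s) : Dv S x s := by
  obtain ⟨γ, hγ, rfl⟩ := h
  exact ⟨y + γ, (Gm S).add_mem hy hγ, by ring⟩

theorem Dv_trans' {x y s : ℕ} (hx : x ∈ Gm S) (h : Dv S (x + y) s) : Dv S y s := by
  rw [add_comm] at h
  exact Dv_trans hx h

theorem Dv_mono {x s y : ℕ} (hy : y ∈ Gm S) (h : Dv S x s) : Dv S x (s + y) := by
  obtain ⟨γ, hγ, rfl⟩ := h
  exact ⟨γ + y, (Gm S).add_mem hγ hy, by ring⟩

theorem Dv_mem {x s : ℕ} (hx : x ∈ Gm S) (h : Dv S x s) : s ∈ Gm S := by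
  obtain ⟨γ, hγ, rfl⟩ := h
  exact (Gm S).add_mem hx hγ

theorem Dv_add_left_iff {x y s : ℕ} : Dv S (x + y) (x + s) ↔ Dv S y s := by
  constructor
  · rintro ⟨γ, hγ, h⟩
    exact ⟨γ, hγ, by omega⟩
  · rintro ⟨γ, hγ, h⟩
    exact ⟨γ, hγ, by omega⟩

theorem Adj_symm {s a b : ℕ} (h : Adj S s a b) : Adj S s b a := by
  obtain ⟨ha, hb, h⟩ := h
  exact ⟨hb, ha, by rwa [add_comm]⟩

theorem Conn_symm {s a b : ℕ} (h : Conn S s a b) : Conn S s b a := by
  induction h with
  | refl => exact Relation.ReflTransGen.refl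
  | tail _ h ih => exact Relation.ReflTransGen.head (Adj_symm h) ih

theorem Conn_trans {s a b c : ℕ} (h : Conn S s a b) (h' : Conn S s b c) : Conn S s a c :=
  Relation.ReflTransGen.trans h h'

theorem Conn_refl {s a : ℕ} : Conn S s a a := Relation.ReflTransGen.refl

theorem Conn_of_Adj {s a b : ℕ} (h : Adj S s a b) : Conn S s a b :=
  Relation.ReflTransGen.single h

theorem Conn_vertex {s a b : ℕ} (h : Conn S s a b) (ha : a ∈ S) (hs : Dv S a s) :
    b ∈ S ∧ Dv S b s := by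
  induction h with
  | refl => exact ⟨ha, hs⟩
  | tail _ h _ =>
    obtain ⟨h1, h2, h3⟩ := h
    exact ⟨h2, Dv_trans' (mem_Gm_of_mem h1) h3⟩

/-- a nonzero element of the semigroup is divisible by a generator -/
theorem exists_dvd {s : ℕ} (hs : s ∈ Gm S) (h0 : s ≠ 0) : ∃ a ∈ S, Dv S a s := by
  have : s = 0 ∨ ∃ a ∈ S, Dv S a s := by
    clear h0
    induction hs using AddSubmonoid.closure_induction with
    | mem x hx => exact Or.inr ⟨x, hx, 0, (Gm S).zero_mem, by simp⟩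
    | zero => exact Or.inl rfl
    | add x y hx hy hxx hyy =>
      rcases hxx with rfl | ⟨a, ha, hax⟩
      · rw [zero_add]; exact hyy
      · exact Or.inr ⟨a, ha, Dv_mono hy hax⟩
  rcases this with h | h
  · exact absurd h h0
  · exact h

theorem exists_fac {s : ℕ} (hs : s ∈ Gm S) :
    ∃ c : S →₀ ℕ, wt (fun i : S => (i : ℕ)) c = s := by
  induction hs using AddSubmonoid.closure_induction with
  | mem x hx => exact ⟨Finsupp.single ⟨x, hx⟩ 1, by rw [wt_single]; simp⟩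
  | zero => exact ⟨0, wt_zero _⟩
  | add x y hx hy hxx hyy =>
    obtain ⟨c, hc⟩ := hxx
    obtain ⟨d, hd⟩ := hyy
    exact ⟨c + d, by rw [wt_add, hc, hd]⟩

theorem wt_mem (c : S →₀ ℕ) : wt (fun i : S => (i : ℕ)) c ∈ Gm S := by
  classical
  induction c using Finsupp.induction with
  | zero => rw [wt_zero]; exact (Gm S).zero_mem
  | single_add a n c _ _ ih =>
    rw [wt_add, wt_single]
    refine (Gm S).add_mem ?_ ih
    rw [← smul_eq_mul]
    exact (Gm S).nsmul_mem (mem_Gm_of_mem a.2) n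

end Basic

section Connect

variable {S : Finset ℕ}

/-- the weight function of the generators -/
abbrev fS (S : Finset ℕ) : S → ℕ := fun i => (i : ℕ)

theorem exists_fac_vertex {s a : ℕ} (ha : a ∈ S) (h : Dv S a s) :
    ∃ c : S →₀ ℕ, wt (fS S) c = s ∧ c ⟨a, ha⟩ ≠ 0 := by
  obtain ⟨γ, hγ, rfl⟩ := h
  obtain ⟨c, hc⟩ := exists_fac hγ
  refine ⟨Finsupp.single ⟨a, ha⟩ 1 + c, ?_, ?_⟩
  · rw [wt_add, hc, wt_single]; simp
  · rw [Finsupp.add_apply, Finsupp.single_eq_same]; omega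

/-- a chosen factorization of `s` through `a` -/
noncomputable def fac (S : Finset ℕ) (s a : ℕ) : S →₀ ℕ :=
  open Classical in
  if h : ∃ (ha : a ∈ S) (c : S →₀ ℕ), wt (fS S) c = s ∧ c ⟨a, ha⟩ ≠ 0 then h.choose_spec.choose
  else 0

theorem fac_spec {s a : ℕ} (ha : a ∈ S) (h : Dv S a s) :
    wt (fS S) (fac S s a) = s ∧ fac S s a ⟨a, ha⟩ ≠ 0 := by
  have h' : ∃ (ha : a ∈ S) (c : S →₀ ℕ), wt (fS S) c = s ∧ c ⟨a, ha⟩ ≠ 0 :=
    ⟨ha, exists_fac_vertex ha h⟩
  rw [fac, dif_pos h']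
  exact h'.choose_spec.choose_spec

theorem Dv_of_fac {s a : ℕ} (ha : a ∈ S) (u : S →₀ ℕ) (hu : wt (fS S) u = s)
    (h : u ⟨a, ha⟩ ≠ 0) : ∃ u' : S →₀ ℕ, u = Finsupp.single ⟨a, ha⟩ 1 + u' ∧
      s = a + wt (fS S) u' := by
  classical
  refine ⟨u - Finsupp.single ⟨a, ha⟩ 1, ?_, ?_⟩
  · ext i
    rw [Finsupp.add_apply, Finsupp.tsub_apply]
    by_cases hi : (⟨a, ha⟩ : S) = i
    · subst hi
      rw [Finsupp.single_eq_same]; omega
    · rw [Finsupp.single_apply, if_neg hi]; simp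
  · have h1 : u = Finsupp.single ⟨a, ha⟩ 1 + (u - Finsupp.single ⟨a, ha⟩ 1) := by
      ext i
      rw [Finsupp.add_apply, Finsupp.tsub_apply]
      by_cases hi : (⟨a, ha⟩ : S) = i
      · subst hi
        rw [Finsupp.single_eq_same]; omega
      · rw [Finsupp.single_apply, if_neg hi]; simp
    have h2 := congr_arg (wt (fS S)) h1
    rw [wt_add, wt_single, hu] at h2
    simpa using h2

variable (J : Ideal (MvPolynomial S ℚ))

theorem binom_share {s : ℕ} (hpos : 0 ∉ S)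
    (IH : ∀ t < s, ∀ u v : S →₀ ℕ, wt (fS S) u = t → wt (fS S) v = t →
      monomial u (1 : ℚ) - monomial v 1 ∈ J)
    {a : ℕ} (ha : a ∈ S) (u v : S →₀ ℕ) (hu : wt (fS S) u = s) (hv : wt (fS S) v = s)
    (hua : u ⟨a, ha⟩ ≠ 0) (hva : v ⟨a, ha⟩ ≠ 0) :
    monomial u (1 : ℚ) - monomial v 1 ∈ J := by
  obtain ⟨u', hu', hs⟩ := Dv_of_fac ha u hu hua
  obtain ⟨v', hv', hs'⟩ := Dv_of_fac ha v hv hva
  have ha0 : a ≠ 0 := fun h => hpos (h ▸ ha)
  have h1 := IH (wt (fS S) u') (by omega) u' v' rfl (by omega)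
  have h2 : monomial u (1 : ℚ) - monomial v 1
      = X ⟨a, ha⟩ * (monomial u' (1 : ℚ) - monomial v' 1) := by
    rw [mul_sub, X, monomial_mul, monomial_mul, one_mul, hu', hv']
  rw [h2]
  exact J.mul_mem_left _ h1

theorem binom_conn {s : ℕ} (hpos : 0 ∉ S)
    (IH : ∀ t < s, ∀ u v : S →₀ ℕ, wt (fS S) u = t → wt (fS S) v = t →
      monomial u (1 : ℚ) - monomial v 1 ∈ J)
    {a b : ℕ} (ha : a ∈ S) (hb : b ∈ S) (hab : Conn S s a b) :
    ∀ (u v : S →₀ ℕ), wt (fS S) u = s → wt (fS S) v = s →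
    u ⟨a, ha⟩ ≠ 0 → v ⟨b, hb⟩ ≠ 0 →
    monomial u (1 : ℚ) - monomial v 1 ∈ J := by
  induction hab with
  | refl =>
    intro u v hu hv hua hva
    exact binom_share J hpos IH ha u v hu hv hua hva
  | tail hab' hbc ih =>
    rename_i b c
    intro u v hu hv hua hvc
    obtain ⟨hb', hc', γ, hγ, hs⟩ := hbc
    obtain ⟨w, hw⟩ := exists_fac hγ
    have hw1 : wt (fS S) (Finsupp.single ⟨b, hb'⟩ 1 + (Finsupp.single ⟨c, hc'⟩ 1 + w)) = s := by
      rw [wt_add, wt_add, wt_single, wt_single]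
      have : wt (fS S) w = γ := hw
      rw [this, hs]
      simp only [fS]
      ring
    have h1 := ih hb' u _ hu hw1 hua (by
      rw [Finsupp.add_apply, Finsupp.single_eq_same]; omega)
    have h2 := binom_share J hpos IH hc' _ v hw1 hv (by
      rw [Finsupp.add_apply, Finsupp.add_apply, Finsupp.single_eq_same]; omega) hvc
    have h3 := J.add_mem h1 h2
    rwa [sub_add_sub_cancel] at h3

/-- criterion for an ideal to contain the kernel -/
theorem ker_le_of_classes (hpos : 0 ∉ S)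
    (h : ∀ s a b, a ∈ S → Dv S a s → b ∈ S → Dv S b s → ∃ a' b', Conn S s a a' ∧
      Conn S s b b' ∧ monomial (fac S s a') (1 : ℚ) - monomial (fac S s b') 1 ∈ J) :
    RingHom.ker (ev (fS S)) ≤ J := by
  have key : ∀ s : ℕ, ∀ u v : S →₀ ℕ, wt (fS S) u = s → wt (fS S) v = s →
      monomial u (1 : ℚ) - monomial v 1 ∈ J := by
    intro s
    induction s using Nat.strong_induction_on with
    | _ s IH =>
      intro u v hu hv
      by_cases hs : s = 0
      · have hz : ∀ w : S →₀ ℕ, wt (fS S) w = s → w = 0 := by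
          intro w hw
          by_contra hne
          obtain ⟨i, hi⟩ := Finsupp.ne_iff.1 hne
          obtain ⟨w', _, hw''⟩ := Dv_of_fac i.2 w hw hi
          have : (i : ℕ) ≠ 0 := fun h => hpos (h ▸ i.2)
          omega
        rw [hz u hu, hz v hv, sub_self]
        exact J.zero_mem
      · have hne : ∀ w : S →₀ ℕ, wt (fS S) w = s → ∃ i : S, w i ≠ 0 := by
          intro w hw
          by_contra hcon
          push Not at hcon
          have : w = 0 := by ext i; exact hcon i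
          rw [this, wt_zero] at hw
          exact hs hw.symm
        obtain ⟨i, hi⟩ := hne u hu
        obtain ⟨j, hj⟩ := hne v hv
        obtain ⟨u', _, hu''⟩ := Dv_of_fac i.2 u hu hi
        obtain ⟨v', _, hv''⟩ := Dv_of_fac j.2 v hv hj
        have hDi : Dv S i s := ⟨_, wt_mem u', hu''⟩
        have hDj : Dv S j s := ⟨_, wt_mem v', hv''⟩
        obtain ⟨a', b', hca, hcb, hJ⟩ := h s i j i.2 hDi j.2 hDj
        have hva := Conn_vertex hca i.2 hDi
        have hvb := Conn_vertex hcb j.2 hDj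
        have hfa := fac_spec hva.1 hva.2
        have hfb := fac_spec hvb.1 hvb.2
        have IH' : ∀ t < s, ∀ u v : S →₀ ℕ, wt (fS S) u = t → wt (fS S) v = t →
            monomial u (1 : ℚ) - monomial v 1 ∈ J := fun t ht u v hu hv => IH t ht u v hu hv
        have h1 := binom_conn J hpos IH' i.2 hva.1 hca u _ hu hfa.1 hi hfa.2
        have h2 := binom_conn J hpos IH' hvb.1 j.2 (Conn_symm hcb) _ v hfb.1 hv hfb.2 hj
        have h3 := J.add_mem (J.add_mem h1 hJ) h2
        rwa [sub_add_sub_cancel, sub_add_sub_cancel] at h3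
  exact ker_le_of_binomial _ J fun u v huv => key _ u v rfl huv.symm

end Connect

end Pool.Agent.H51c
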