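import Mathlib

/-!
The isoperimetric lower bound `|F + A| ≥ |F| + |A| / 2` in a finite abelian group generated by `A`.
-/

set_option autoImplicit false

namespace Pool.Agent.H51c

open scoped Pointwise

theorem iso_bound {G : Type*} [AddCommGroup G] [Fintype G] [DecidableEq G] (A : Finset G)
    (h0 : (0 : G) ∈ A) (hgen : AddSubgroup.closure (A : Set G) = ⊤) (F : Finset G)
    (hF : F.Nonempty) (hne : F + A ≠ Finset.univ) :
    2 * F.card + A.card ≤ 2 * (F + A).card := by
  classical
  set n := Fintype.card G with hn
  have hsub : ∀ X : Finset G, X ⊆ X + A := fun X x hx =>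
    Finset.mem_add.2 ⟨x, hx, 0, h0, add_zero x⟩
  have hle : ∀ X : Finset G, X.card ≤ (X + A).card := fun X => Finset.card_le_card (hsub X)
  have hcn : ∀ X : Finset G, X.card ≤ n := fun X => Finset.card_le_univ X
  obtain ⟨X0, hX0, hmin⟩ := Finset.exists_min_image
    (Finset.univ.filter fun X : Finset G => X.Nonempty ∧ X + A ≠ Finset.univ)
    (fun X => ((X + A).card - X.card) * (n + 1) + X.card)
    ⟨F, Finset.mem_filter.2 ⟨Finset.mem_univ _, hF, hne⟩⟩
  rw [Finset.mem_filter] at hX0
  obtain ⟨_, hX0n, hX0u⟩ := hX0
  set κ := (X0 + A).card - X0.card with hκ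
  have hmin' : ∀ X : Finset G, X.Nonempty → X + A ≠ Finset.univ →
      κ * (n + 1) + X0.card ≤ ((X + A).card - X.card) * (n + 1) + X.card := fun X h1 h2 =>
    hmin X (Finset.mem_filter.2 ⟨Finset.mem_univ _, h1, h2⟩)
  have ha : ∀ X : Finset G, X.Nonempty → X + A ≠ Finset.univ → X.card + κ ≤ (X + A).card := by
    intro X h1 h2
    have h3 := hmin' X h1 h2
    have h4 := hle X
    have h5 := hcn X
    by_contra hc
    push Not at hc
    have h6 : (X + A).card - X.card + 1 ≤ κ := by omega
    have h7 := Nat.mul_le_mul_right (n + 1) h6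
    have h8 : ((X + A).card - X.card + 1) * (n + 1)
        = ((X + A).card - X.card) * (n + 1) + (n + 1) := by ring
    omega
  have hb : ∀ X : Finset G, X.Nonempty → X + A ≠ Finset.univ → (X + A).card = X.card + κ →
      X0.card ≤ X.card := by
    intro X h1 h2 h3
    have h4 := hmin' X h1 h2
    have h5 : (X + A).card - X.card = κ := by omega
    rw [h5] at h4
    omega
  have hX0k : (X0 + A).card = X0.card + κ := by
    have := hle X0
    omega
  -- translate
  obtain ⟨x0, hx0⟩ := hX0n
  have htr : ∀ (X : Finset G) (g : G), (X + {g} + A).card = (X + A).card ∧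
      (X + {g}).card = X.card ∧ (X + A ≠ Finset.univ → X + {g} + A ≠ Finset.univ) := by
    intro X g
    have e1 : X + {g} + A = X + A + {g} := by rw [add_assoc, add_comm {g} A, ← add_assoc]
    have e2 : (X + A + {g}).card = (X + A).card := Finset.card_add_singleton _ _
    refine ⟨by rw [e1, e2], Finset.card_add_singleton _ _, fun h h' => h ?_⟩
    rw [← Finset.card_eq_iff_eq_univ] at h' ⊢
    rw [← h', e1, e2]
  set F0 := X0 + {-x0} with hF0
  obtain ⟨t1, t2, t3⟩ := htr X0 (-x0)
  have hF0u : F0 + A ≠ Finset.univ := t3 hX0u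
  have hF0c : (F0 + A).card = F0.card + κ := by rw [hF0, t1, t2, hX0k]
  have hF0X : F0.card = X0.card := t2
  have hF00 : (0 : G) ∈ F0 := by
    rw [hF0, Finset.mem_add]
    exact ⟨x0, hx0, -x0, Finset.mem_singleton_self _, add_neg_cancel x0⟩
  -- the complement
  have hcomp : 2 * F0.card + κ ≤ n := by
    set Y := (-(Finset.univ \ (F0 + A)) : Finset G) with hY
    have hYc : Y.card + (F0 + A).card = n := by
      rw [hY, Finset.card_neg, Finset.card_sdiff_add_card_eq_card (Finset.subset_univ _)]
      exact Finset.card_univ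
    have hYn : Y.Nonempty := by
      rw [← Finset.card_pos]
      have : (F0 + A).card < n := by
        refine lt_of_le_of_ne (hcn _) (fun h => hF0u ?_)
        exact (Finset.card_eq_iff_eq_univ _).1 h
      omega
    have hdisj : Disjoint (Y + A) (-F0) := by
      rw [Finset.disjoint_left]
      intro x hx hx'
      obtain ⟨y, hy, a, ha', rfl⟩ := Finset.mem_add.1 hx
      rw [hY, Finset.mem_neg'] at hy
      rw [Finset.mem_neg'] at hx'
      rw [Finset.mem_sdiff] at hy
      apply hy.2
      rw [Finset.mem_add]
      exact ⟨-(y + a), hx', a, ha', by abel⟩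
    have hcard : (Y + A).card + F0.card ≤ n := by
      rw [← Finset.card_neg F0, ← Finset.card_union_of_disjoint hdisj]
      exact hcn _
    have hpos : 0 < F0.card := Finset.card_pos.2 ⟨0, hF00⟩
    have hYu : Y + A ≠ Finset.univ := by
      intro h
      have := congr_arg Finset.card h
      rw [Finset.card_univ] at this
      omega
    have h1 := ha Y hYn hYu
    have h2 : (Y + A).card = Y.card + κ := by omega
    have h3 := hb Y hYn hYu h2
    omega
  -- atoms coincide
  have hatom : ∀ x ∈ F0, F0 = F0 + {-x} := by
    intro x hx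
    set F' := F0 + {-x} with hF'
    obtain ⟨s1, s2, s3⟩ := htr F0 (-x)
    have h0' : (0 : G) ∈ F' := by
      rw [hF', Finset.mem_add]
      exact ⟨x, hx, -x, Finset.mem_singleton_self _, add_neg_cancel x⟩
    have hF'c : F'.card = F0.card := s2
    have hF'A : (F' + A).card = F0.card + κ := by rw [← hF0c]; exact s1
    set I := F0 ∩ F' with hI
    set U := F0 ∪ F' with hU
    have hIn : I.Nonempty := ⟨0, Finset.mem_inter.2 ⟨hF00, h0'⟩⟩
    have hUn : U.Nonempty := ⟨0, Finset.mem_union.2 (Or.inl hF00)⟩
    have hIA : I + A ⊆ (F0 + A) ∩ (F' + A) := Finset.inter_add_subset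
    have hUA : U + A = (F0 + A) ∪ (F' + A) := Finset.union_add
    have hIu : I + A ≠ Finset.univ := by
      intro h
      apply hF0u
      rw [Finset.eq_univ_iff_forall] at h ⊢
      intro y
      exact (Finset.mem_inter.1 (hIA (h y))).1
    have c1 : (I + A).card + (U + A).card ≤ 2 * F0.card + 2 * κ := by
      have := Finset.card_union_add_card_inter (F0 + A) (F' + A)
      have h2 := Finset.card_le_card hIA
      rw [hUA]
      omega
    have c2 : U.card + I.card = 2 * F0.card := by
      have := Finset.card_union_add_card_inter F0 F'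
      rw [← hI, ← hU] at this
      omega
    have c3 := ha I hIn hIu
    have c4 : 0 < I.card := Finset.card_pos.2 hIn
    have hUu : U + A ≠ Finset.univ := by
      intro h
      have := congr_arg Finset.card h
      rw [Finset.card_univ] at this
      omega
    have c5 := ha U hUn hUu
    have c6 : (I + A).card = I.card + κ := by omega
    have c7 := hb I hIn hIu c6
    have c8 : I = F0 := Finset.eq_of_subset_of_card_le Finset.inter_subset_left (by omega)
    have c9 : I = F' := Finset.eq_of_subset_of_card_le Finset.inter_subset_right (by omega)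
    rw [← c9, c8]
  have hsubg : ∀ x ∈ F0, ∀ y ∈ F0, y - x ∈ F0 := by
    intro x hx y hy
    rw [hatom x hx, Finset.mem_add]
    exact ⟨y, hy, -x, Finset.mem_singleton_self _, by abel⟩
  have hnotsub : ∃ a ∈ A, a ∉ F0 := by
    by_contra hcon
    push Not at hcon
    let K : AddSubgroup G := AddSubgroup.ofSub (F0 : Set G) ⟨0, hF00⟩ (by
      intro x hx y hy
      have := hsubg y hy x hx
      rw [← sub_eq_add_neg]
      exact this)
    have h1 : AddSubgroup.closure (A : Set G) ≤ K := by
      rw [AddSubgroup.closure_le]
      intro a ha'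
      exact hcon a ha'
    rw [hgen, top_le_iff] at h1
    apply hF0u
    rw [Finset.eq_univ_iff_forall]
    intro x
    have h2 : x ∈ K := by rw [h1]; exact AddSubgroup.mem_top x
    exact hsub F0 h2
  obtain ⟨a, haA, haF⟩ := hnotsub
  have hdisj : Disjoint F0 (F0 + {a}) := by
    rw [Finset.disjoint_left]
    intro y hy hy'
    obtain ⟨z, hz, a', ha', h⟩ := Finset.mem_add.1 hy'
    rw [Finset.mem_singleton] at ha'
    subst ha'
    apply haF
    have : a' = y - z := by rw [← h]; abel
    rw [this]
    exact hsubg z hz y hy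
  have h2f : 2 * F0.card ≤ (F0 + A).card := by
    have h1 : F0 ∪ (F0 + {a}) ⊆ F0 + A := by
      apply Finset.union_subset (hsub F0)
      exact Finset.add_subset_add_left (Finset.singleton_subset_iff.2 haA)
    have h2 := Finset.card_le_card h1
    rw [Finset.card_union_of_disjoint hdisj, Finset.card_add_singleton F0 a] at h2
    omega
  have hAle : A.card ≤ (F0 + A).card := by
    apply Finset.card_le_card
    intro x hx
    exact Finset.mem_add.2 ⟨0, hF00, x, hx, zero_add x⟩
  have := ha F hF hne
  omega

end Pool.Agent.H51c
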