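import Pool.Agent.H51c.Column
import Pool.Agent.H51c.Iso

/-!
Growth of iterated sums and the resulting bound for the double Apery set.
-/

set_option autoImplicit false

namespace Pool.Agent.H51c

open scoped Pointwise

section Growth

variable {m g w : ℕ} {A : Finset ℕ}

theorem zero_mem_Ab (h0 : 0 ∈ A) : (0 : ZMod w) ∈ Ab A w :=
  Finset.mem_image.2 ⟨0, h0, by simp⟩

theorem Bs_one : Bs A w 1 = Ab A w := by
  rw [Bs, Bs]
  exact zero_add _

theorem Bs_mono (h0 : 0 ∈ A) (i : ℕ) : Bs A w i ⊆ Bs A w (i + 1) := by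
  intro x hx
  rw [Bs, Finset.mem_add]
  exact ⟨x, hx, 0, zero_mem_Ab h0, add_zero x⟩

theorem Bs_nonempty (h0 : 0 ∈ A) (i : ℕ) : (Bs A w i).Nonempty := by
  induction i with
  | zero => exact ⟨0, by rw [Bs]; exact Finset.mem_singleton_self _⟩
  | succ i ih => exact ih.mono (Bs_mono h0 i)

theorem Hol_card (h0 : 0 ∈ A) (hw : w ∈ A) (hle : ∀ α ∈ A, α ≤ w) (hw1 : 0 < w) :
    (Hol A w).card + (Ab A w).card = w ∧ A.card = (Ab A w).card + 1 := by
  classical
  have h1 : (Ab A w).card = ((Finset.range w).filter fun r => r ∈ A).card := by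
    have : Ab A w = ((Finset.range w).filter fun r => r ∈ A).image
        (fun x : ℕ => (x : ZMod w)) := by
      ext x
      rw [Ab, Finset.mem_image, Finset.mem_image]
      constructor
      · rintro ⟨α, hα, rfl⟩
        by_cases hαw : α = w
        · refine ⟨0, ?_, ?_⟩
          · rw [Finset.mem_filter, Finset.mem_range]
            exact ⟨hw1, h0⟩
          · subst hαw
            simp
        · refine ⟨α, ?_, rfl⟩
          rw [Finset.mem_filter, Finset.mem_range]
          exact ⟨lt_of_le_of_ne (hle α hα) hαw, hα⟩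
      · rintro ⟨α, hα, rfl⟩
        rw [Finset.mem_filter] at hα
        exact ⟨α, hα.2, rfl⟩
    rw [this, Finset.card_image_of_injOn]
    intro x hx y hy hxy
    rw [Finset.mem_coe, Finset.mem_filter, Finset.mem_range] at hx hy
    have h2 := mod_eq_of_cast hy.1 hxy
    rw [Nat.mod_eq_of_lt hx.1] at h2
    exact h2
  have h2 := Finset.card_filter_add_card_filter_not (s := Finset.range w) (fun r => r ∈ A)
  rw [Finset.card_range] at h2
  constructor
  · rw [h1, Hol]
    omega
  · rw [h1]
    have h3 : (Finset.range w).filter (fun r => r ∈ A) = A.erase w := by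
      ext x
      rw [Finset.mem_filter, Finset.mem_range, Finset.mem_erase]
      constructor
      · rintro ⟨h4, h5⟩; exact ⟨by omega, h5⟩
      · rintro ⟨h4, h5⟩; exact ⟨lt_of_le_of_ne (hle x h5) h4, h5⟩
    rw [h3]
    exact (Finset.card_erase_add_one hw).symm

variable [NeZero w]

theorem Bs_growth (h0 : 0 ∈ A) (hgen : AddSubgroup.closure (Ab A w : Set (ZMod w)) = ⊤) (i : ℕ) :
    min w ((Ab A w).card + i * (((Ab A w).card + 1) / 2)) ≤ (Bs A w (i + 1)).card := by
  classical
  induction i with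
  | zero =>
    rw [Bs_one]
    simp
  | succ i ih =>
    by_cases hu : Bs A w (i + 1) + Ab A w = Finset.univ
    · have : (Bs A w (i + 1 + 1)).card = w := by
        rw [Bs, hu, Finset.card_univ, ZMod.card]
      rw [this]
      exact min_le_left _ _
    · have h1 := iso_bound (Ab A w) (zero_mem_Ab h0) hgen (Bs A w (i + 1)) (Bs_nonempty h0 _) hu
      have h2 : (Bs A w (i + 1 + 1)) = Bs A w (i + 1) + Ab A w := rfl
      rw [h2]
      have h3 : (i + 1) * (((Ab A w).card + 1) / 2)
          = i * (((Ab A w).card + 1) / 2) + ((Ab A w).card + 1) / 2 := by ring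
      rw [h3]
      omega

theorem filter_card_le (i : ℕ) :
    ((Hol A w).filter fun r : ℕ => (r : ZMod w) ∉ Bs A w i).card ≤ w - (Bs A w i).card := by
  classical
  have h1 : w - (Bs A w i).card = (Finset.univ \ Bs A w i).card := by
    rw [Finset.card_sdiff_of_subset (Finset.subset_univ _), Finset.card_univ, ZMod.card]
  rw [h1]
  apply Finset.card_le_card_of_injOn (fun x : ℕ => (x : ZMod w))
  · intro x hx
    rw [Finset.mem_coe, Finset.mem_filter] at hx
    rw [Finset.mem_coe, Finset.mem_sdiff]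
    exact ⟨Finset.mem_univ _, hx.2⟩
  · intro x hx y hy hxy
    rw [Finset.mem_coe, Finset.mem_filter, mem_Hol] at hx hy
    have h2 := mod_eq_of_cast hy.1.1 hxy
    rw [Nat.mod_eq_of_lt hx.1.1] at h2
    exact h2

theorem Bs_univ (h0 : 0 ∈ A) (hgen : AddSubgroup.closure (Ab A w : Set (ZMod w)) = ⊤) :
    Bs A w (w + 1) = Finset.univ := by
  rw [← Finset.card_eq_iff_eq_univ, ZMod.card]
  apply le_antisymm
  · have := Finset.card_le_univ (Bs A w (w + 1))
    rwa [ZMod.card] at this
  · have h1 := Bs_growth h0 hgen w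
    have h2 : 0 < (Ab A w).card := Finset.card_pos.2 ⟨0, zero_mem_Ab h0⟩
    have h3 : w ≤ (Ab A w).card + w * (((Ab A w).card + 1) / 2) := by
      have h4 : 1 ≤ ((Ab A w).card + 1) / 2 := by omega
      have h5 := Nat.mul_le_mul_left w h4
      omega
    rw [min_eq_left h3] at h1
    exact h1

/-- general bound -/
theorem HF_le_sum (h0 : 0 ∈ A) (hw : w ∈ A) (hle : ∀ α ∈ A, α ≤ w)
    (hgen : AddSubgroup.closure (Ab A w : Set (ZMod w)) = ⊤) {K : ℕ}
    (hK : ∀ s, K ≤ s → Dv (SS m g A) (m + (m + g * w)) s) :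
    (HF (SS m g A) m (m + g * w) K).card
      ≤ (Hol A w).card + ∑ i ∈ Finset.range w,
        ((Hol A w).card - i * (((Ab A w).card + 1) / 2)) := by
  have hw1 : 0 < w := Nat.pos_of_ne_zero (NeZero.ne w)
  have h1 := HF_card_le h0 hw hw1 hle hK (L := w + 1)
    (fun r _ => by rw [Bs_univ h0 hgen]; exact Finset.mem_univ _)
  refine h1.trans ?_
  rw [Finset.sum_range_succ', add_comm]
  apply Nat.add_le_add
  · exact Finset.card_filter_le _ _
  · apply Finset.sum_le_sum
    intro i _
    have h2 := filter_card_le (A := A) (w := w) (i + 1)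
    have h3 := Bs_growth h0 hgen i
    have h4 := (Hol_card h0 hw hle hw1).1
    refine h2.trans ?_
    rcases le_total w ((Ab A w).card + i * (((Ab A w).card + 1) / 2)) with h | h
    · rw [min_eq_left h] at h3
      omega
    · rw [min_eq_right h] at h3
      omega

/-- bound when `A` is large -/
theorem HF_le_large (h0 : 0 ∈ A) (hw : w ∈ A) (hle : ∀ α ∈ A, α ≤ w)
    (hlarge : w < 2 * (Ab A w).card) {K : ℕ}
    (hK : ∀ s, K ≤ s → Dv (SS m g A) (m + (m + g * w)) s) :
    (HF (SS m g A) m (m + g * w) K).card ≤ 2 * (Hol A w).card := by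
  classical
  have hw1 : 0 < w := Nat.pos_of_ne_zero (NeZero.ne w)
  have hu : Bs A w 2 = Finset.univ := by
    rw [Finset.eq_univ_iff_forall]
    intro x
    rw [Bs, Bs_one, Finset.mem_add]
    by_contra hcon
    push Not at hcon
    have hdisj : Disjoint (Ab A w) ((Ab A w).image fun y => x - y) := by
      rw [Finset.disjoint_left]
      intro z hz hz'
      obtain ⟨y, hy, hyz⟩ := Finset.mem_image.1 hz'
      exact hcon z hz y hy (by rw [← hyz]; abel)
    have h1 := Finset.card_union_of_disjoint hdisj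
    rw [Finset.card_image_of_injective _ (sub_right_injective)] at h1
    have h2 := Finset.card_le_univ (Ab A w ∪ (Ab A w).image fun y => x - y)
    rw [ZMod.card] at h2
    omega
  have h1 := HF_card_le h0 hw hw1 hle hK (L := 2)
    (fun r _ => by rw [hu]; exact Finset.mem_univ _)
  refine h1.trans ?_
  rw [Finset.sum_range_succ, Finset.sum_range_one, two_mul]
  exact Nat.add_le_add (Finset.card_filter_le _ _) (Finset.card_filter_le _ _)

end Growth

section Arithmetic

theorem sum_bound (h : ℕ) (hh : 0 < h) (L : ℕ) : ∀ k : ℕ,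
    2 * h * ∑ i ∈ Finset.range L, (k - i * h) ≤ k * k + h * k + (k % h) * (h - k % h) := by
  induction L with
  | zero => intro k; simp
  | succ L ih =>
    intro k
    rw [Finset.sum_range_succ']
    have h1 : ∀ i, k - (i + 1) * h = (k - h) - i * h := by
      intro i
      have : (i + 1) * h = i * h + h := by ring
      omega
    simp only [h1]
    have h2 := ih (k - h)
    rcases le_or_gt h k with hk | hk
    · obtain ⟨j, rfl⟩ := Nat.exists_eq_add_of_le hk
      have h3 : h + j - h = j := by omega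
      rw [h3] at h2 ⊢
      have h4 : (h + j) % h = j % h := Nat.add_mod_left h j
      have h5 : h + j - 0 * h = h + j := by simp
      rw [h4, h5, mul_add]
      nlinarith
    · have h3 : k - h = 0 := by omega
      rw [h3] at h2 ⊢
      rw [Nat.zero_mod] at h2
      rw [Nat.mod_eq_of_lt hk]
      obtain ⟨j, hj⟩ := Nat.exists_eq_add_of_lt hk
      have h5 : h - k = j + 1 := by omega
      rw [h5]
      have h6 : h = k + j + 1 := hj
      have h7 : 2 * h * ∑ i ∈ Finset.range L, (0 - i * h) = 0 := by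
        have := h2
        simp at this ⊢
      rw [mul_add, h7, h6]
      simp only [zero_mul, Nat.sub_zero, zero_add]
      nlinarith

theorem final_ineq (a k L : ℕ) (ha : 3 ≤ a) (hk : a ≤ k) :
    a * (k + ∑ i ∈ Finset.range L, (k - i * ((a + 1) / 2))) ≤ (k - 1) * (2 * a + k) + 4 := by
  set h := (a + 1) / 2 with hh
  have h2 : 2 ≤ h := by omega
  have h3 := sum_bound h (by omega) L k
  set Sg := ∑ i ∈ Finset.range L, (k - i * h) with hSg
  have hal : a ≤ 2 * h := by omega
  have hal' : 2 * h ≤ a + 1 := by omega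
  obtain ⟨c, hc⟩ := Nat.exists_eq_add_of_le hk
  set ρ := k % h with hρ
  have hρlt : ρ < h := Nat.mod_lt _ (by omega)
  obtain ⟨σ, hσ⟩ := Nat.exists_eq_add_of_lt hρlt
  have hσ' : h - ρ = σ + 1 := by omega
  rw [hσ'] at h3
  obtain ⟨k1, hk1⟩ : ∃ k1, k = k1 + 1 := ⟨k - 1, by omega⟩
  have hk1' : k - 1 = k1 := by omega
  rw [hk1']
  rcases le_or_gt (2 * h) k with hc2 | hc2
  · -- k ≥ 2h
    have hq : 2 ≤ k / h := by
      rw [Nat.le_div_iff_mul_le (by omega)]
      exact hc2
    have hdm : h * (k / h) + ρ = k := Nat.div_add_mod k h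
    have h5 : ρ + 4 ≤ k := by
      have := Nat.mul_le_mul_left h hq
      omega
    -- ρ (h - ρ) ≤ (h-1)(k-4)
    have h6 : ρ * (σ + 1) ≤ (h - 1) * (k - 4) := by
      rcases Nat.eq_zero_or_pos ρ with h7 | h7
      · rw [h7]; simp
      · calc ρ * (σ + 1) ≤ (k - 4) * (h - 1) := Nat.mul_le_mul (by omega) (by omega)
          _ = (h - 1) * (k - 4) := mul_comm _ _
    obtain ⟨h', hh'⟩ : ∃ h', h = h' + 1 := ⟨h - 1, by omega⟩
    obtain ⟨k', hk'⟩ : ∃ k', k = k' + 4 := ⟨k - 4, by omega⟩
    have e1 : h - 1 = h' := by omega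
    have e2 : k - 4 = k' := by omega
    rw [e1, e2] at h6
    have h7 : a * Sg ≤ 2 * h * Sg := Nat.mul_le_mul_right _ hal
    -- need better: a * (Sg - k)
    have h8 : k ≤ Sg ∨ L = 0 := by
      rcases Nat.eq_zero_or_pos L with hL | hL
      · right; exact hL
      · left
        rw [hSg]
        have : k - 0 * h ≤ ∑ i ∈ Finset.range L, (k - i * h) :=
          Finset.single_le_sum (f := fun i => k - i * h) (fun i _ => Nat.zero_le _)
            (Finset.mem_range.2 hL)
        simpa using this
    rcases h8 with h8 | h8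
    · obtain ⟨S', hS'⟩ := Nat.exists_eq_add_of_le h8
      have h9 : a * S' ≤ 2 * h * S' := Nat.mul_le_mul_right _ hal
      rw [hS'] at h3
      -- 2h k + 2h S' ≤ k² + h k + ρ(h-ρ)
      have h10 : 2 * h * S' + h * k ≤ k * k + h' * k' := by nlinarith
      -- goal
      have hgoal : a * S' + 2 * a + k ≤ k * k + 4 := by
        have : h * k = (h' + 1) * (k' + 4) := by rw [hh', hk']
        have h11 : h' * k' + 4 * h' + k' + 4 = (h' + 1) * (k' + 4) := by ring
        have h12 : 2 * a ≤ 4 * h := by omega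
        omega
      have h13 : (k1 : ℕ) * (2 * a + k) + 2 * a + k = k * (2 * a + k) := by
        rw [hk1]; ring
      nlinarith
    · have hS0 : Sg = 0 := by rw [hSg, h8]; simp
      rw [hS0]
      nlinarith
  · -- k < 2h so k = a = 2h - 1
    have hka : k = a := by omega
    have hkh : k + 1 = 2 * h := by omega
    have hρ1 : ρ = h - 1 := by
      rw [hρ]
      have : k = (h - 1) + h * 1 := by omega
      rw [this, Nat.add_mul_mod_self_left, Nat.mod_eq_of_lt (by omega)]
    have hσ0 : σ = 0 := by omega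
    obtain ⟨h', hh'⟩ : ∃ h', h = h' + 2 := ⟨h - 2, by omega⟩
    have hk3 : k = 2 * h' + 3 := by omega
    have hρ3 : ρ = h' + 1 := by omega
    rw [hσ0, hρ3] at h3
    have h14 : Sg ≤ 3 * h' + 4 := by
      by_contra hcon
      push Not at hcon
      have h15 : 3 * h' + 5 ≤ Sg := hcon
      have h16 : 2 * h * (3 * h' + 5) ≤ 2 * h * Sg := Nat.mul_le_mul_left _ h15
      rw [hh'] at h16 h3
      rw [hk3] at h3
      nlinarith
    have h17 : k1 = 2 * h' + 2 := by omega
    rw [← hka, h17, hk3]
    have h18 : (2 * h' + 3) * (2 * h' + 3 + Sg) ≤ (2 * h' + 3) * (2 * h' + 3 + (3 * h' + 4)) :=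
      Nat.mul_le_mul_left _ (by omega)
    refine h18.trans ?_
    nlinarith

end Arithmetic

end Pool.Agent.H51c
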