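import Mathlib

/-!
Generalities on the kernel of `x_i ↦ t ^ (f i)`.
-/

set_option autoImplicit false

namespace Pool.Agent.H51c

open MvPolynomial

section Ker

variable {σ : Type}

/-- weight of an exponent vector -/
noncomputable def wt (f : σ → ℕ) (c : σ →₀ ℕ) : ℕ := c.sum fun i n => n * f i

theorem wt_zero (f : σ → ℕ) : wt f 0 = 0 := by simp [wt]

theorem wt_add (f : σ → ℕ) (c d : σ →₀ ℕ) : wt f (c + d) = wt f c + wt f d := by
  classical
  simp only [wt]
  rw [Finsupp.sum_add_index']
  · intro i; ring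
  · intro i m n; ring

theorem wt_single (f : σ → ℕ) (i : σ) (n : ℕ) : wt f (Finsupp.single i n) = n * f i := by
  simp [wt]

/-- the evaluation map -/
noncomputable def ev (f : σ → ℕ) : MvPolynomial σ ℚ →ₐ[ℚ] Polynomial ℚ :=
  MvPolynomial.aeval (R := ℚ) (fun i => (Polynomial.X : Polynomial ℚ) ^ (f i))

theorem ev_monomial (f : σ → ℕ) (c : σ →₀ ℕ) (r : ℚ) :
    ev f (monomial c r) = Polynomial.monomial (wt f c) r := by
  rw [ev, aeval_monomial, wt, ← Polynomial.C_mul_X_pow_eq_monomial, Finsupp.sum]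
  rw [← Finset.prod_pow_eq_pow_sum, Finsupp.prod]
  congr 1
  apply Finset.prod_congr rfl
  intro i _
  rw [← pow_mul, mul_comm]

/-- linear functional attached to a function of exponents -/
noncomputable def Lf (g : (σ →₀ ℕ) → ℚ) : MvPolynomial σ ℚ →ₗ[ℚ] ℚ :=
  (basisMonomials σ ℚ).constr ℚ g

theorem Lf_monomial (g : (σ →₀ ℕ) → ℚ) (c : σ →₀ ℕ) (r : ℚ) :
    Lf g (monomial c r) = r * g c := by
  have h1 : monomial c r = r • (basisMonomials σ ℚ) c := by
    rw [coe_basisMonomials, smul_monomial, smul_eq_mul, mul_one]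
  rw [h1, map_smul, Lf, Module.Basis.constr_basis, smul_eq_mul]

theorem Lf_wt_eq_zero (f : σ → ℕ) (h : ℕ → ℚ) (p : MvPolynomial σ ℚ)
    (hp : p ∈ RingHom.ker (ev f)) : Lf (fun c => h (wt f c)) p = 0 := by
  let ψ : Polynomial ℚ →ₗ[ℚ] ℚ := Polynomial.lsum fun s => LinearMap.toSpanSingleton ℚ ℚ (h s)
  have key : ∀ q : MvPolynomial σ ℚ, Lf (fun c => h (wt f c)) q = ψ (ev f q) := by
    intro q
    induction q using MvPolynomial.induction_on' with
    | monomial u a =>
      rw [Lf_monomial, ev_monomial]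
      simp only [ψ, Polynomial.lsum_apply]
      rw [Polynomial.sum_monomial_index _ _ (by simp)]
      simp [LinearMap.toSpanSingleton_apply]
    | add p q hp hq => rw [map_add, hp, hq, map_add, map_add]
  rw [key, (RingHom.mem_ker).1 hp, map_zero]

theorem ker_le_of_binomial (f : σ → ℕ) (J : Ideal (MvPolynomial σ ℚ))
    (h : ∀ u v : σ →₀ ℕ, wt f u = wt f v → monomial u (1 : ℚ) - monomial v 1 ∈ J) :
    RingHom.ker (ev f) ≤ J := by
  classical
  let rep : ℕ → (MvPolynomial σ ℚ ⧸ J) := fun s =>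
    if hs : ∃ c : σ →₀ ℕ, wt f c = s then Ideal.Quotient.mk J (monomial hs.choose 1) else 0
  let ψ : Polynomial ℚ →ₗ[ℚ] (MvPolynomial σ ℚ ⧸ J) :=
    Polynomial.lsum fun s => LinearMap.toSpanSingleton ℚ _ (rep s)
  have key : ∀ q : MvPolynomial σ ℚ, Ideal.Quotient.mk J q = ψ (ev f q) := by
    intro q
    induction q using MvPolynomial.induction_on' with
    | monomial u a =>
      rw [ev_monomial]
      simp only [ψ, Polynomial.lsum_apply]
      rw [Polynomial.sum_monomial_index _ _ (by simp)]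
      have hs : ∃ c : σ →₀ ℕ, wt f c = wt f u := ⟨u, rfl⟩
      rw [LinearMap.toSpanSingleton_apply]
      have h1 : rep (wt f u) = Ideal.Quotient.mk J (monomial hs.choose 1) := by
        simp only [rep]
        rw [dif_pos hs]
      have h2 : Ideal.Quotient.mk J (monomial u (1 : ℚ))
          = Ideal.Quotient.mk J (monomial hs.choose 1) :=
        Ideal.Quotient.eq.2 (h _ _ hs.choose_spec.symm)
      rw [h1, ← h2]
      have h3 : monomial u a = a • (monomial u (1 : ℚ)) := by
        rw [smul_monomial, smul_eq_mul, mul_one]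
      rw [h3]
      exact map_smul (Ideal.Quotient.mkₐ ℚ J) a (monomial u (1 : ℚ))
    | add p q hp hq => rw [map_add, hp, hq, map_add, map_add]
  intro p hp
  have h1 := key p
  rw [(RingHom.mem_ker).1 hp, map_zero] at h1
  exact Ideal.Quotient.eq_zero_iff_mem.1 h1

theorem binomial_mem_ker (f : σ → ℕ) (u v : σ →₀ ℕ) (h : wt f u = wt f v) :
    monomial u (1 : ℚ) - monomial v 1 ∈ RingHom.ker (ev f) := by
  rw [RingHom.mem_ker, map_sub, ev_monomial, ev_monomial, h, sub_self]

/-- lower bound for the number of generators -/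
theorem card_le_spanRank (f : σ → ℕ) {ι : Type} [Fintype ι] (g : ι → (σ →₀ ℕ) → ℚ)
    (h : ι → σ → ℕ → ℚ)
    (hg : ∀ i l c, g i (c + Finsupp.single l 1) = h i l (wt f c))
    (P : ι → MvPolynomial σ ℚ) (hP : ∀ i, P i ∈ RingHom.ker (ev f))
    (hind : LinearIndependent ℚ (fun i => (fun j => Lf (g j) (P i) : ι → ℚ))) :
    (Fintype.card ι : Cardinal) ≤ Submodule.spanRank (RingHom.ker (ev f)) := by
  classical
  obtain ⟨s, hs1, hs2⟩ := Submodule.exists_span_set_card_eq_spanRank (RingHom.ker (ev f))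
  let Φ : MvPolynomial σ ℚ →ₗ[ℚ] (ι → ℚ) := LinearMap.pi fun j => Lf (g j)
  have hX : ∀ l : σ, ∀ p ∈ RingHom.ker (ev f), Φ (X l * p) = 0 := by
    intro l p hp
    funext j
    simp only [Φ, LinearMap.pi_apply, Pi.zero_apply]
    have key : ∀ q : MvPolynomial σ ℚ, Lf (g j) (X l * q) = Lf (fun c => h j l (wt f c)) q := by
      intro q
      induction q using MvPolynomial.induction_on' with
      | monomial u a =>
        rw [X, monomial_mul, one_mul, Lf_monomial, Lf_monomial, add_comm, hg]
      | add p q hp hq => rw [mul_add, map_add, hp, hq, map_add]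
    rw [key]
    exact Lf_wt_eq_zero f _ p hp
  have hcc : ∀ r p : MvPolynomial σ ℚ, p ∈ RingHom.ker (ev f) →
      Φ (r * p) = constantCoeff r • Φ p := by
    intro r
    induction r using MvPolynomial.induction_on with
    | C a =>
      intro p _
      rw [← smul_eq_C_mul, map_smul, constantCoeff_C]
    | add p q hp hq =>
      intro x hx
      rw [add_mul, map_add, hp x hx, hq x hx, map_add, add_smul]
    | mul_X p i hp =>
      intro x hx
      rw [mul_assoc, hp (X i * x) (Ideal.mul_mem_left _ _ hx), hX i x hx, smul_zero, map_mul,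
        constantCoeff_X, mul_zero, zero_smul]
  have hsub : ∀ x ∈ RingHom.ker (ev f), Φ x ∈ Submodule.span ℚ (Φ '' s) := by
    intro x hx
    have hx' : x ∈ Submodule.span (MvPolynomial σ ℚ) s := by rw [hs2]; exact hx
    induction hx' using Submodule.span_induction with
    | mem x hxs => exact Submodule.subset_span ⟨x, hxs, rfl⟩
    | zero => rw [map_zero]; exact Submodule.zero_mem _
    | add x y hxs hys hxx hyy =>
      rw [map_add]
      exact Submodule.add_mem _ (hxx (by rw [← hs2]; exact hxs)) (hyy (by rw [← hs2]; exact hys))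
    | smul r x hxs hxx =>
      have hx2 : x ∈ RingHom.ker (ev f) := by rw [← hs2]; exact hxs
      rw [smul_eq_mul, hcc r x hx2]
      exact Submodule.smul_mem _ _ (hxx hx2)
  have hv : ∀ i, (fun j => Lf (g j) (P i) : ι → ℚ) ∈ Submodule.span ℚ (Φ '' s) := by
    intro i
    exact hsub (P i) (hP i)
  let v : ι → Submodule.span ℚ (Φ '' s) := fun i => ⟨_, hv i⟩
  have hv2 : LinearIndependent ℚ v := by
    apply LinearIndependent.of_comp (Submodule.span ℚ (Φ '' s)).subtype
    exact hind
  have h1 : (Fintype.card ι : Cardinal) ≤ Module.rank ℚ (Submodule.span ℚ (Φ '' s)) := by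
    have := hv2.cardinal_le_rank
    rwa [Cardinal.mk_fintype] at this
  have h2 : Module.rank ℚ (Submodule.span ℚ (Φ '' s)) ≤ Cardinal.mk (Φ '' s) :=
    rank_span_le _
  have h3 : Cardinal.mk (Φ '' s) ≤ Cardinal.mk s := Cardinal.mk_image_le
  rw [← hs1]
  exact h1.trans (h2.trans h3)

/-- upper bound for the number of generators -/
theorem spanRank_ker_le (f : σ → ℕ) (s : Finset (MvPolynomial σ ℚ))
    (h1 : ∀ x ∈ s, x ∈ RingHom.ker (ev f))
    (h2 : RingHom.ker (ev f) ≤ Ideal.span (s : Set (MvPolynomial σ ℚ))) :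
    Submodule.spanRank (RingHom.ker (ev f)) ≤ (s.card : Cardinal) := by
  have h3 : RingHom.ker (ev f) = Submodule.span (MvPolynomial σ ℚ)
      (s : Set (MvPolynomial σ ℚ)) := le_antisymm h2 (Ideal.span_le.2 h1)
  rw [h3]
  refine (Submodule.spanRank_span_le_card _).trans ?_
  rw [Finset.coe_sort_coe, Cardinal.mk_coe_finset]

end Ker

end Pool.Agent.H51c
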