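import Pool.Agent.H51c.Final

/-!
Assembly.
-/

set_option autoImplicit false

namespace Pool.Agent.H51c

open MvPolynomial

/-- lower bound in the situation of the problem -/
theorem lower_main {m M : ℕ} (hm : 0 < m) {w : ℕ} (hw1 : 1 ≤ w) (hwm : w < m)
    (hwM : m + w ≤ M) (hrange : m + w = M ∨ w + 1 = m) {d : ℕ} (hd1 : m ≤ d * w)
    (hd2 : (d - 1) * w < m) :
    (((PP (w - 1)).card + (d * w - m + 1) : ℕ) : Cardinal) ≤
      Submodule.spanRank (RingHom.ker (ev (fun i : {n : ℕ // m ≤ n ∧ n ≤ M ∧
        n ∉ AddSubmonoid.closure
          (((Finset.Icc m M : Finset ℕ) : Set ℕ) \ ({n} : Set ℕ))} => (i : ℕ)))) := by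
  classical
  let v : ℕ → {n : ℕ // m ≤ n ∧ n ≤ M ∧
        n ∉ AddSubmonoid.closure
          (((Finset.Icc m M : Finset ℕ) : Set ℕ) \ ({n} : Set ℕ))} := fun i =>
    if h : i ≤ w then ⟨m + i, by omega, by omega, (cond_iff hm (by omega) (by omega)).2 (by omega)⟩
    else ⟨m, le_refl _, by omega, (cond_iff hm (by omega) (by omega)).2 (by omega)⟩
  apply lower_interval (v := v) (m := m) (w := w) Subtype.val_injective ?_ ?_ hw1 hwm hd1 hd2
  · intro i hi
    simp only [v]
    rw [dif_pos hi]
  · rintro ⟨n, h1, h2, h3⟩
    have h4 := (cond_iff hm h1 h2).1 h3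
    refine ⟨n - m, by omega, ?_⟩
    apply Subtype.ext
    simp only [v]
    rw [dif_pos (by omega)]
    simp only
    omega

theorem main (A : Finset ℕ) (hA : A.Nonempty) (h0 : (0 : ℕ) ∉ A) (hgcd : A.gcd id = 1)
    (hmin : ∀ a ∈ A, a ∉ AddSubmonoid.closure (((A.erase a : Finset ℕ)) : Set ℕ)) :
    Submodule.spanRank (RingHom.ker (ev (fS A))) ≤
      Submodule.spanRank (RingHom.ker (ev (fun i : {n : ℕ // A.min' hA ≤ n ∧ n ≤ A.max' hA ∧
        n ∉ AddSubmonoid.closure
          (((Finset.Icc (A.min' hA) (A.max' hA) : Finset ℕ) : Set ℕ) \ ({n} : Set ℕ))} =>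
        (i : ℕ)))) := by
  classical
  set m := A.min' hA with hmdef
  set M := A.max' hA with hMdef
  have hmA : m ∈ A := Finset.min'_mem A hA
  have hMA : M ∈ A := Finset.max'_mem A hA
  have hmle : ∀ a ∈ A, m ≤ a := fun a ha => Finset.min'_le A a ha
  have hMle : ∀ a ∈ A, a ≤ M := fun a ha => Finset.le_max' A a ha
  have hm : 0 < m := Nat.pos_of_ne_zero fun h => h0 (h ▸ hmA)
  have hN := exists_conductor hgcd
  have hmM : m ≤ M := hmle M hMA
  by_cases hm1 : m = 1
  · have h1 := upper_mult h0 hmin hmA hN
    refine h1.trans ?_
    have : (PP (m - 1)).card = 0 := by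
      rw [hm1]; rfl
    rw [this, Nat.cast_zero]
    exact bot_le
  · by_cases hbig : 2 * m ≤ M + 1
    · -- large width
      have h1 := upper_mult h0 hmin hmA hN
      have h2 := lower_main (m := m) (M := M) hm (w := m - 1) (by omega) (by omega) (by omega)
        (Or.inr (by omega)) (d := 2) (by omega) (by omega)
      refine h1.trans (le_trans ?_ h2)
      have h3 := card_PP (m - 1)
      have h4 := card_PP (m - 1 - 1)
      obtain ⟨n, hn⟩ : ∃ n, m = n + 2 := ⟨m - 2, by omega⟩
      have e1 : m - 1 = n + 1 := by omega
      have e2 : n + 1 - 1 = n := by omega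
      rw [e1] at h3 h4 ⊢
      rw [e2] at h4 ⊢
      have h5 : (n + 1) * (n + 1 + 1) = n * (n + 1) + 2 * (n + 1) := by ring
      have e3 : 2 * (n + 1) - m + 1 = n + 1 := by omega
      rw [e3]
      exact_mod_cast (by omega)
    · -- small width
      push Not at hbig
      have hmM' : m < M := by
        rcases Nat.lt_or_ge m M with h | h
        · exact h
        · exfalso
          have hall : ∀ a ∈ A, a = m := fun a ha => by
            have := hmle a ha
            have := hMle a ha
            omega
          have : m ∣ A.gcd id := Finset.dvd_gcd fun b hb => by rw [hall b hb]; rfl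
          rw [hgcd, Nat.dvd_one] at this
          exact hm1 this
      obtain ⟨W, hW⟩ : ∃ W, M = m + W := ⟨M - m, by omega⟩
      have hW1 : 1 ≤ W := by omega
      have hWm : W < m := by omega
      -- the quotient d
      set d := (m + W - 1) / W with hd
      have hdm := Nat.div_add_mod (m + W - 1) W
      have hdl := Nat.mod_lt (m + W - 1) hW1
      rw [← hd] at hdm
      have hd1 : m ≤ d * W := by rw [mul_comm]; omega
      have hd2 : (d - 1) * W < m := by
        have : (d - 1) * W = d * W - W := by rw [Nat.sub_mul, one_mul]
        rw [this, mul_comm]; omega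
      have hlow := lower_main (m := m) (M := M) hm (w := W) hW1 hWm (by omega) (Or.inl hW.symm)
        hd1 hd2
      have hPW := card_PP (W - 1)
      have e0 : W - 1 + 1 = W := by omega
      rw [e0] at hPW
      -- the offsets
      set g := A.gcd (fun a => a - m) with hg
      have hgpos : 0 < g := by
        apply Nat.pos_of_ne_zero
        intro h
        rw [hg, Finset.gcd_eq_zero_iff] at h
        have := h M hMA
        omega
      have hgd : ∀ a ∈ A, g ∣ a - m := fun a ha => Finset.gcd_dvd ha
      set A₁ := A.image (fun a => (a - m) / g) with hA₁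
      have hgW : g ∣ W := by
        have := hgd M hMA
        rwa [hW, Nat.add_sub_cancel_left] at this
      obtain ⟨w, hw⟩ := hgW
      have hw1 : 0 < w := by
        apply Nat.pos_of_ne_zero
        rintro rfl
        omega
      have hSS : A = SS m g A₁ := by
        ext x
        rw [mem_SS]
        constructor
        · intro hx
          refine ⟨(x - m) / g, Finset.mem_image.2 ⟨x, hx, rfl⟩, ?_⟩
          rw [Nat.mul_div_cancel' (hgd x hx)]
          have := hmle x hx
          omega
        · rintro ⟨α, hα, rfl⟩
          obtain ⟨y, hy, rfl⟩ := Finset.mem_image.1 hα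
          rw [Nat.mul_div_cancel' (hgd y hy)]
          have := hmle y hy
          have : m + (y - m) = y := by omega
          rw [this]
          exact hy
      have hgcd1 : A₁.gcd id = 1 := by
        rw [hA₁, Finset.gcd_image]
        have := Finset.gcd_div_eq_one (s := A) (f := fun a => a - m) (i := M) hMA
          (by omega)
        exact this
      have H : Hyp m g w A₁ := by
        refine ⟨hm, hgpos, ?_, ?_, hw1, ?_, closure_Ab w hgcd1, ?_, ?_⟩
        · exact Finset.mem_image.2 ⟨m, hmA, by simp⟩
        · refine Finset.mem_image.2 ⟨M, hMA, ?_⟩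
          rw [hW, Nat.add_sub_cancel_left, hw, Nat.mul_div_cancel_left _ hgpos]
        · intro α hα
          obtain ⟨y, hy, rfl⟩ := Finset.mem_image.1 hα
          apply Nat.div_le_of_le_mul
          rw [← hw]
          have := hMle y hy
          omega
        · rw [← hSS]; exact hN
        · rw [← hSS]; exact hmin
      have hup : ∀ n : ℕ, Submodule.spanRank (RingHom.ker (ev (fS (SS m g A₁)))) ≤ (n : Cardinal) →
          Submodule.spanRank (RingHom.ker (ev (fS A))) ≤ (n : Cardinal) := by
        intro n hn
        rw [← hSS] at hn
        exact hn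
      have hfin : ∀ n : ℕ, Submodule.spanRank (RingHom.ker (ev (fS (SS m g A₁)))) ≤
          (n : Cardinal) → n ≤ (PP (W - 1)).card + (d * W - m + 1) →
          Submodule.spanRank (RingHom.ker (ev (fS A))) ≤
          Submodule.spanRank (RingHom.ker (ev (fun i : {n : ℕ // m ≤ n ∧ n ≤ M ∧
            n ∉ AddSubmonoid.closure
              (((Finset.Icc m M : Finset ℕ) : Set ℕ) \ ({n} : Set ℕ))} => (i : ℕ)))) := by
        intro n h1 h2
        refine (hup n h1).trans (le_trans ?_ hlow)
        exact_mod_cast h2
      have hholc := H.card_hol
      rcases Nat.lt_or_ge g 2 with hg2 | hg2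
      · -- g = 1
        have hg1 : g = 1 := by omega
        have hwW : w = W := by rw [hw, hg1, one_mul]
        rcases Nat.eq_zero_or_pos (Hol A₁ w).card with hh | hh
        · -- A is an interval
          have hAI : A = Finset.Icc m M := by
            ext x
            rw [Finset.mem_Icc]
            constructor
            · intro hx; exact ⟨hmle x hx, hMle x hx⟩
            · rintro ⟨hx1, hx2⟩
              by_cases hxM : x = M
              · rw [hxM]; exact hMA
              · have h1 : x - m ∈ A₁ := by
                  by_contra hc
                  have h2 : x - m ∈ Hol A₁ w := mem_Hol.2 ⟨by omega, hc⟩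
                  have h3 := Finset.card_pos.2 ⟨_, h2⟩
                  omega
                rw [hSS, mem_SS]
                exact ⟨x - m, h1, by rw [hg1]; omega⟩
          let e : A ≃ {n : ℕ // m ≤ n ∧ n ≤ M ∧ n ∉ AddSubmonoid.closure
              (((Finset.Icc m M : Finset ℕ) : Set ℕ) \ ({n} : Set ℕ))} :=
            { toFun := fun x => ⟨x, hmle x x.2, hMle x x.2,
                (cond_iff hm (hmle x x.2) (hMle x x.2)).2 (by
                  have := hMle x x.2
                  omega)⟩
              invFun := fun y => ⟨y, by
                have h1 := y.2.1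
                have h2 := y.2.2.1
                have h3 : (y : ℕ) ∈ Finset.Icc m M := Finset.mem_Icc.2 ⟨h1, h2⟩
                exact (Finset.ext_iff.1 hAI _).2 h3⟩
              left_inv := fun x => rfl
              right_inv := fun y => rfl }
          exact spanRank_congr e _ _ (fun x => rfl)
        · rcases H.upper_hole hh with h1 | ⟨h1, h2⟩
          · refine hfin _ h1 ?_
            rw [hwW]
            have h5 : W * (W - 1) = (W - 1) * W := mul_comm _ _
            omega
          · -- exceptional
            have hW4 : W = 4 := by omega
            have hP3 : (PP (W - 1)).card = 6 := by rw [hW4]; rfl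
            by_cases h4 : m % 4 = 0
            · obtain ⟨n, hn⟩ : ∃ n, m = 4 * n := ⟨m / 4, by omega⟩
              refine hfin 7 ?_ (by omega)
              have H' := H
              rw [h2, h1, hg1, hn] at H'
              have := upper_exc' H'
              rw [h2, hg1, hn]
              exact this
            · have hdm4 : 1 ≤ d * W - m := by
                have : d * W ≠ m := by
                  intro hc
                  rw [hW4] at hc
                  omega
                omega
              refine hfin 8 ?_ (by omega)
              have H' := H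
              rw [h2, h1] at H'
              have := upper_exc H'
              rw [h2]
              exact this
      · -- g ≥ 2
        have hWw : 2 * w ≤ W := by
          rw [hw]
          exact Nat.mul_le_mul_right w hg2
        obtain ⟨x, hx⟩ := Nat.exists_eq_add_of_le hWw
        obtain ⟨y, hy⟩ : ∃ y, w = y + 1 := ⟨w - 1, by omega⟩
        have e1 : W - 1 = 2 * y + x + 1 := by omega
        have e2 : W = 2 * y + x + 2 := by omega
        have hPW2 : 2 * (PP (W - 1)).card = (2 * y + x + 1) * (2 * y + x + 2) := by
          rw [hPW]
          exact congr_arg₂ (· * ·) e1 e2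
        rcases Nat.eq_zero_or_pos (Hol A₁ w).card with hh | hh
        · refine hfin _ (H.upper_nohole hh) ?_
          have h5 : (w + 1) * w ≤ 2 * (PP (W - 1)).card + 2 := by
            rw [hPW2, hy]
            nlinarith
          omega
        · rcases H.upper_hole hh with h1 | ⟨h1, h2⟩
          · refine hfin _ h1 ?_
            have e3 : w - 1 = y := by omega
            have h5 : w * (w - 1) ≤ 2 * (PP (W - 1)).card := by
              rw [hPW2, e3, hy]
              nlinarith
            omega
          · have H' := H
            rw [h2, h1] at H'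
            have h3 := upper_exc H'
            rw [← h2] at h3
            refine hfin 8 h3 ?_
            have hy3 : y = 3 := by omega
            rw [hy3] at hPW2
            nlinarith

end Pool.Agent.H51c
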