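import Pool.Agent.H51c.Growth

/-!
Upper bounds for the number of relations.
-/

set_option autoImplicit false

namespace Pool.Agent.H51c

section Upper

variable {m g w : ℕ} {A : Finset ℕ}

/-- The standing hypotheses. -/
structure Hyp (m g w : ℕ) (A : Finset ℕ) : Prop where
  hm : 0 < m
  hg : 0 < g
  h0 : 0 ∈ A
  hw : w ∈ A
  hw1 : 0 < w
  hle : ∀ α ∈ A, α ≤ w
  hgen : AddSubgroup.closure (Ab A w : Set (ZMod w)) = ⊤
  hN : ∃ N, ∀ s, N ≤ s → s ∈ Gm (SS m g A)
  hmin : ∀ a ∈ SS m g A,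
    a ∉ AddSubmonoid.closure (((SS m g A).erase a : Finset ℕ) : Set ℕ)

namespace Hyp

variable (H : Hyp m g w A)

include H

theorem pos : 0 ∉ SS m g A := by
  rw [mem_SS]
  rintro ⟨x, _, hx⟩
  have := H.hm
  omega

theorem hp : m ∈ SS m g A := mem_SS.2 ⟨0, H.h0, by ring⟩

theorem hq : m + g * w ∈ SS m g A := mem_SS.2 ⟨w, H.hw, rfl⟩

theorem hpq : m ≠ m + g * w := by
  have := Nat.mul_pos H.hg H.hw1
  omega

theorem card_SS : (SS m g A).card = A.card := by
  rw [SS]
  apply Finset.card_image_of_injective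
  intro x y h
  have h1 : g * x = g * y := by simpa using h
  exact Nat.eq_of_mul_eq_mul_left H.hg h1

theorem card_Sm : (Sm (SS m g A) m (m + g * w)).card + 1 = (Ab A w).card := by
  have h1 := H.card_SS
  have h2 := (Hol_card H.h0 H.hw H.hle H.hw1).2
  rw [Sm, Finset.card_erase_of_mem, Finset.card_erase_of_mem H.hp]
  · have h3 : 0 < (Ab A w).card := Finset.card_pos.2 ⟨0, zero_mem_Ab H.h0⟩
    omega
  · rw [Finset.mem_erase]
    exact ⟨H.hpq.symm, H.hq⟩

/-- parameters -/
theorem card_hol : (Hol A w).card + (Ab A w).card = w := (Hol_card H.h0 H.hw H.hle H.hw1).1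

theorem NF_le {K : ℕ} (hK : ∀ s, K ≤ s → Dv (SS m g A) (m + (m + g * w)) s) :
    ∀ s ∈ HF (SS m g A) m (m + g * w) K, (NF (SS m g A) m (m + g * w) s).card
      ≤ min ((Ab A w).card - 1) (Hol A w).card := by
  intro s hs
  rw [mem_HF hK H.hp H.hq] at hs
  apply le_min
  · have h1 := Finset.card_le_card (NF_sub (S := SS m g A) (p := m) (q := m + g * w) (s' := s))
    have h2 := H.card_Sm
    omega
  · exact NF_card_le_holes H.hm H.hg H.h0 H.hw H.hw1 H.hle H.hmin hs.1 hs.2.1 hs.2.2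

/-- case of at least five generators... generic case -/
theorem ZF_generic (ha : 3 ≤ (Ab A w).card) (hk : 2 ≤ (Hol A w).card) {K : ℕ}
    (hK : ∀ s, K ≤ s → Dv (SS m g A) (m + (m + g * w)) s) :
    2 * (ZF (SS m g A) m (m + g * w) K).card ≤ w * (w - 1) + 1 := by
  have : NeZero w := ⟨Nat.pos_iff_ne_zero.1 H.hw1⟩
  have h1 := two_ZF hK H.hp H.hq H.pos
  have h2 := H.card_Sm
  have h3 := H.card_hol
  set a := (Ab A w).card with ha'
  set k := (Hol A w).card with hk'
  set κ := min (a - 1) k with hκ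
  have h4 := sum_X_lt H.pos H.hmin hK H.hp H.hq (κ := κ) (le_min (by omega) hk) (H.NF_le hK)
  set X := ∑ s ∈ HF (SS m g A) m (m + g * w) K,
    ((X1 (SS m g A) m (m + g * w) s).card + (X2 (SS m g A) m (m + g * w) s).card) with hX
  set Y := (HF (SS m g A) m (m + g * w) K).card with hY
  have h5 : (κ + 1) * Y ≤ (k - 1) * (2 * a + k) + 4 := by
    rcases Nat.lt_or_ge k a with h | h
    · have h6 : κ = k := min_eq_right (by omega)
      have h7 : Y ≤ 2 * k := HF_le_large H.h0 H.hw H.hle (by omega) hK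
      rw [h6]
      obtain ⟨c, hc⟩ : ∃ c, a = k + 1 + c := ⟨a - (k + 1), by omega⟩
      obtain ⟨k', hk''⟩ : ∃ k', k = k' + 2 := ⟨k - 2, by omega⟩
      have h8 : (k + 1) * Y ≤ (k + 1) * (2 * k) := Nat.mul_le_mul_left _ h7
      refine h8.trans ?_
      have h9 : k - 1 = k' + 1 := by omega
      rw [h9, hc, hk'']
      nlinarith
    · have h6 : κ = a - 1 := min_eq_left (by omega)
      have h7 : Y ≤ k + ∑ i ∈ Finset.range w, (k - i * ((a + 1) / 2)) :=
        HF_le_sum H.h0 H.hw H.hle H.hgen hK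
      rw [h6]
      have h8 : a - 1 + 1 = a := by omega
      rw [h8]
      exact (Nat.mul_le_mul_left _ h7).trans (final_ineq a k w ha h)
  obtain ⟨b, hb⟩ : ∃ b, (Sm (SS m g A) m (m + g * w)).card = b := ⟨_, rfl⟩
  rw [hb] at h1 h2
  have h6 : w = b + 1 + k := by omega
  obtain ⟨k', hk''⟩ : ∃ k', k = k' + 1 := ⟨k - 1, by omega⟩
  have h7 : w - 1 = b + k := by omega
  have h8 : k - 1 = k' := by omega
  rw [h8] at h5
  have h9 : X + 1 ≤ k' * (2 * a + k) + 4 := by
    rcases Nat.eq_zero_or_pos ((κ + 1) * Y) with h | h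
    · rw [h] at h4
      omega
    · omega
  have h11 : w * (w - 1) = (b + 1 + k) * (b + k) := congr_arg₂ (· * ·) h6 h7
  rw [h11]
  have h10 : a = b + 1 := by omega
  rw [h10] at h9
  rw [hk''] at h9 ⊢
  nlinarith

/-- case of three generators -/
theorem HF_three (ha : (Ab A w).card = 2) {K : ℕ}
    (hK : ∀ s, K ≤ s → Dv (SS m g A) (m + (m + g * w)) s) :
    (HF (SS m g A) m (m + g * w) K).card ≤ w - 2 := by
  classical
  have h1 := H.card_Sm
  have h2 : (Sm (SS m g A) m (m + g * w)).card = 1 := by omega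
  obtain ⟨a, hSa⟩ := Finset.card_eq_one.1 h2
  have haS : a ∈ Sm (SS m g A) m (m + g * w) := by rw [hSa]; exact Finset.mem_singleton_self _
  rw [mem_Sm] at haS
  obtain ⟨haq, hap, haS⟩ := haS
  obtain ⟨α, hα, haα⟩ := mem_SS.1 haS
  have hαw : α < w := by
    refine lt_of_le_of_ne (H.hle _ hα) ?_
    rintro rfl
    exact haq haα
  have hmul : ∀ n : ℕ, ∀ s ≤ n, Ein (SS m g A) m (m + g * w) s → ∃ l, s = l * a := by
    intro n
    induction n with
    | zero =>
      intro s hs _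
      exact ⟨0, by omega⟩
    | succ n ih =>
      intro s hs hE
      by_cases hs0 : s = 0
      · exact ⟨0, by omega⟩
      · obtain ⟨b, hb, γ, hγ, hsγ⟩ := exists_dvd hE.1 hs0
        have hbp : b ≠ m := by
          rintro rfl
          exact hE.2.1 ⟨γ, hγ, hsγ⟩
        have hbq : b ≠ m + g * w := by
          rintro rfl
          exact hE.2.2 ⟨γ, hγ, hsγ⟩
        have hbm : b ∈ Sm (SS m g A) m (m + g * w) := mem_Sm.2 ⟨hbq, hbp, hb⟩
        rw [hSa, Finset.mem_singleton] at hbm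
        have ha0 : a ≠ 0 := fun h => H.pos (h ▸ haS)
        rw [hsγ] at hE
        obtain ⟨l, hl⟩ := ih γ (by omega) (Ein_right (mem_Gm_of_mem hb) hγ hE)
        exact ⟨l + 1, by rw [hsγ, hl, hbm]; ring⟩
  have hsub : HF (SS m g A) m (m + g * w) K ⊆ (Finset.Ico 2 w).image fun l => l * a := by
    intro s hs
    rw [mem_HF hK H.hp H.hq] at hs
    obtain ⟨hE, hs0, hsS⟩ := hs
    obtain ⟨l, hl⟩ := hmul s s (le_refl _) hE
    rw [Finset.mem_image]
    refine ⟨l, ?_, hl.symm⟩
    rw [Finset.mem_Ico]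
    constructor
    · by_contra hc
      push Not at hc
      have : l = 0 ∨ l = 1 := by omega
      rcases this with rfl | rfl
      · exact hs0 (by rw [hl]; ring)
      · exact hsS (by rw [hl]; simpa using haS)
    · by_contra hc
      push Not at hc
      obtain ⟨e, rfl⟩ := Nat.exists_eq_add_of_le hc
      obtain ⟨f, hf⟩ := Nat.exists_eq_add_of_lt hαw
      apply hE.2.1
      have hpk : ∀ k : ℕ, k * m ∈ Gm (SS m g A) := fun k => by
        rw [← smul_eq_mul]; exact (Gm (SS m g A)).nsmul_mem (mem_Gm_of_mem H.hp) k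
      have hqk : ∀ k : ℕ, k * (m + g * w) ∈ Gm (SS m g A) := fun k => by
        rw [← smul_eq_mul]; exact (Gm (SS m g A)).nsmul_mem (mem_Gm_of_mem H.hq) k
      have hak : ∀ k : ℕ, k * a ∈ Gm (SS m g A) := fun k => by
        rw [← smul_eq_mul]; exact (Gm (SS m g A)).nsmul_mem (mem_Gm_of_mem haS) k
      refine ⟨f * m + α * (m + g * w) + e * a,
        (Gm _).add_mem ((Gm _).add_mem (hpk _) (hqk _)) (hak _), ?_⟩
      rw [hl]
      have : (w + e) * a = w * (m + g * α) + e * a := by rw [← haα]; ring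
      rw [this]
      have h5 : w * (m + g * α) = (α + f + 1) * m + w * g * α := by
        conv_lhs => rw [mul_add, hf]
        rw [hf]; ring
      rw [h5]
      ring
  calc (HF (SS m g A) m (m + g * w) K).card
      ≤ ((Finset.Ico 2 w).image fun l => l * a).card := Finset.card_le_card hsub
    _ ≤ (Finset.Ico 2 w).card := Finset.card_image_le
    _ = w - 2 := by rw [Nat.card_Ico]

theorem ZF_three (ha : (Ab A w).card = 2) (hk : 1 ≤ (Hol A w).card) {K : ℕ}
    (hK : ∀ s, K ≤ s → Dv (SS m g A) (m + (m + g * w)) s) :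
    2 * (ZF (SS m g A) m (m + g * w) K).card ≤ w * (w - 1) + 1 := by
  have h1 := two_ZF hK H.hp H.hq H.pos
  have h2 := H.card_Sm
  have h3 := H.card_hol
  have h4 := sum_X_le hK H.hp H.hq (κ := 1) (fun s hs => (H.NF_le hK s hs).trans (by
    refine (min_le_left _ _).trans (by omega)))
  have h5 := H.HF_three ha hK
  have h6 : (Sm (SS m g A) m (m + g * w)).card = 1 := by omega
  rw [h6] at h1
  obtain ⟨v, hv⟩ : ∃ v, w = v + 3 := ⟨w - 3, by omega⟩
  have h7 : w - 1 = v + 2 := by omega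
  have h11 : w * (w - 1) = (v + 3) * (v + 2) := congr_arg₂ (· * ·) hv h7
  rw [h11]
  have h8 : w - 2 = v + 1 := by omega
  rw [h8] at h5
  nlinarith

/-- no holes -/
theorem ZF_nohole (hk : (Hol A w).card = 0) {K : ℕ}
    (hK : ∀ s, K ≤ s → Dv (SS m g A) (m + (m + g * w)) s) :
    2 * ((ZF (SS m g A) m (m + g * w) K).card + 1) ≤ (w + 1) * w := by
  have : NeZero w := ⟨Nat.pos_iff_ne_zero.1 H.hw1⟩
  have h1 := two_ZF hK H.hp H.hq H.pos
  have h2 := H.card_Sm
  have h3 := H.card_hol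
  have h7 : (HF (SS m g A) m (m + g * w) K).card ≤ 2 * (Hol A w).card :=
    HF_le_large H.h0 H.hw H.hle (by have := H.hw1; omega) hK
  have h8 : HF (SS m g A) m (m + g * w) K = ∅ := by
    rw [← Finset.card_eq_zero]
    omega
  rw [h8, Finset.sum_empty] at h1
  obtain ⟨b, hb⟩ : ∃ b, (Sm (SS m g A) m (m + g * w)).card = b := ⟨_, rfl⟩
  rw [hb] at h1 h2
  have h9 : w = b + 1 := by omega
  have h10 : w + 1 = b + 2 := by omega
  have h11 : (w + 1) * w = (b + 2) * (b + 1) := congr_arg₂ (· * ·) h10 h9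
  rw [h11]
  nlinarith

/-- one hole, rough bound -/
theorem ZF_onehole (hk : (Hol A w).card = 1) (ha : 3 ≤ (Ab A w).card) {K : ℕ}
    (hK : ∀ s, K ≤ s → Dv (SS m g A) (m + (m + g * w)) s) :
    2 * (ZF (SS m g A) m (m + g * w) K).card ≤ w * (w - 1) + 2 := by
  have : NeZero w := ⟨Nat.pos_iff_ne_zero.1 H.hw1⟩
  have h1 := two_ZF hK H.hp H.hq H.pos
  have h2 := H.card_Sm
  have h3 := H.card_hol
  have h7 : (HF (SS m g A) m (m + g * w) K).card ≤ 2 * (Hol A w).card :=
    HF_le_large H.h0 H.hw H.hle (by have := H.hw1; omega) hK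
  have h4 := sum_X_le hK H.hp H.hq (κ := 1) (fun s hs => (H.NF_le hK s hs).trans (by
    refine (min_le_right _ _).trans (by omega)))
  obtain ⟨b, hb⟩ : ∃ b, (Sm (SS m g A) m (m + g * w)).card = b := ⟨_, rfl⟩
  rw [hb] at h1 h2
  have h9 : w = b + 2 := by omega
  have h10 : w - 1 = b + 1 := by omega
  have h11 : w * (w - 1) = (b + 2) * (b + 1) := congr_arg₂ (· * ·) h9 h10
  rw [h11]
  nlinarith

/-- the elements that are extremal in the case of one hole -/
theorem onehole_elt {r : ℕ} (hr : Hol A w = {r}) (ha : 3 ≤ (Ab A w).card) {s : ℕ}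
    (hE : Ein (SS m g A) m (m + g * w) s) (hs0 : s ≠ 0) (hsS : s ∉ SS m g A)
    (hX : 2 ≤ (X1 (SS m g A) m (m + g * w) s).card + (X2 (SS m g A) m (m + g * w) s).card) :
    (s = 2 * (m + g) ∧ r = 2) ∨ (s = 2 * (m + g * (w - 1)) ∧ r + 2 = w) := by
  have hk : (Hol A w).card = 1 := by rw [hr, Finset.card_singleton]
  have hNF := NF_card_le_holes H.hm H.hg H.h0 H.hw H.hw1 H.hle H.hmin hE hs0 hsS
  rw [hk] at hNF
  have hw4 : 4 ≤ w := by
    have := H.card_hol
    omega
  have hmulmem : ∀ {x y : ℕ}, x ∈ Gm (SS m g A) → y ∈ Gm (SS m g A) → x + y ∈ Gm (SS m g A) :=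
    fun hx hy => (Gm _).add_mem hx hy
  -- all generators dividing s coincide
  have hdiv : ∀ b ∈ SS m g A, ∀ c ∈ SS m g A, Dv (SS m g A) b s → Dv (SS m g A) c s → b = c := by
    intro b hb c hc hdb hdc
    by_contra hbc
    have := X_le_two (p := m) (q := m + g * w) hb hdb hc hdc hbc
    omega
  obtain ⟨b, hb, c, hc, z, hz, hs⟩ := HF_two hE hs0 hsS
  have hbc : b = c := hdiv b hb c hc ⟨c + z, hmulmem (mem_Gm_of_mem hc) hz, by omega⟩
    ⟨b + z, hmulmem (mem_Gm_of_mem hb) hz, by omega⟩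
  subst hbc
  have hbG := mem_Gm_of_mem hb
  obtain ⟨β, hβ, hbβ⟩ := mem_SS.1 hb
  have hbb : Ein (SS m g A) m (m + g * w) (b + b) := by
    rw [hs] at hE
    exact Ein_left (hmulmem hbG hbG) hz hE
  have hβ0 : 0 < β := by
    rcases Nat.eq_zero_or_pos β with h | h
    · exfalso
      apply hbb.2.1
      exact ⟨b, hbG, by rw [hbβ, h]; ring⟩
    · exact h
  have hβw : β < w := by
    refine lt_of_le_of_ne (H.hle _ hβ) ?_
    intro h
    apply hbb.2.2
    exact ⟨b, hbG, by rw [hbβ, h]⟩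
  have h2β : (β + β) % w = r := by
    have := pair_hole H.hm H.h0 H.hw H.hw1 H.hle H.hmin hβ hβ (by rw [← hbβ]; exact hbb)
    rw [hr, Finset.mem_singleton] at this
    exact this
  have hrw : r < w := by rw [← h2β]; exact Nat.mod_lt _ H.hw1
  -- z = 0
  have hz0 : z = 0 := by
    by_contra hz0
    obtain ⟨c', hc', z', hz', hzz⟩ := exists_dvd hz hz0
    have h1 : b = c' := hdiv b hb c' hc' ⟨b + z, hmulmem hbG hz, by omega⟩
      ⟨b + b + z', hmulmem (hmulmem hbG hbG) hz', by omega⟩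
    subst h1
    have h3b : Ein (SS m g A) m (m + g * w) (b + (b + b)) := by
      have : s = (b + (b + b)) + z' := by omega
      rw [this] at hE
      exact Ein_left (hmulmem hbG (hmulmem hbG hbG)) hz' hE
    have h3 : (3 * β) % w ∉ A := by
      intro hc
      rcases col_nonhole (d := 3) (t := 3 * β) H.h0 H.hw H.hw1 (by rw [hbβ]; ring)
        (by nlinarith) h3b hc with h | h
      · have := H.hm
        omega
      · have := gen_indec H.pos H.hmin h hb (hmulmem hbG hbG) rfl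
        have := H.hm
        omega
    have h4 : (3 * β) % w ∈ Hol A w := mem_Hol.2 ⟨Nat.mod_lt _ H.hw1, h3⟩
    rw [hr, Finset.mem_singleton, ← h2β] at h4
    have h5 : β + (β + β) ≡ 0 + (β + β) [MOD w] := by
      rw [Nat.ModEq]
      have : β + (β + β) = 3 * β := by ring
      rw [this, zero_add, h4]
    have h6 : β ≡ 0 [MOD w] := Nat.ModEq.add_right_cancel' _ h5
    rw [Nat.ModEq, Nat.mod_eq_of_lt hβw, Nat.zero_mod] at h6
    omega
  subst hz0
  -- the vertex b at 3b
  have hne : (NF (SS m g A) m (m + g * w) s).Nonempty := by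
    rw [← Finset.card_pos]
    have h1 := Finset.card_le_card (X1_sub_NF (S := SS m g A) (p := m) (q := m + g * w) (s' := s))
    have h2 := Finset.card_le_card (X2_sub_NF (S := SS m g A) (p := m) (q := m + g * w) (s' := s))
    omega
  obtain ⟨a, haN⟩ := hne
  have haS := (mem_Sm.1 (NF_sub haN))
  obtain ⟨α, hα, haα⟩ := mem_SS.1 haS.2.2
  have hαw : α < w := by
    refine lt_of_le_of_ne (H.hle _ hα) ?_
    rintro rfl
    exact haS.1 haα
  have hab : a = b := by
    have h1 := (NF_swap H.hp H.hq haN hb hbG (by omega)).2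
    rw [haα, hbβ] at h1
    have h2 := pair_hole H.hm H.h0 H.hw H.hw1 H.hle H.hmin hα hβ h1
    rw [hr, Finset.mem_singleton, ← h2β] at h2
    have h3 : α ≡ β [MOD w] := Nat.ModEq.add_right_cancel' β h2
    rw [Nat.ModEq, Nat.mod_eq_of_lt hαw, Nat.mod_eq_of_lt hβw] at h3
    rw [haα, hbβ, h3]
  rw [hab, mem_NF] at haN
  have hnot : ¬ (β - 1 ∈ A ∧ β + 1 ∈ A) := by
    rintro ⟨h1, h2⟩
    have hx : m + g * (β - 1) ∈ SS m g A := mem_SS.2 ⟨_, h1, rfl⟩
    have hy : m + g * (β + 1) ∈ SS m g A := mem_SS.2 ⟨_, h2, rfl⟩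
    have hsum : b + s = (m + g * (β - 1)) + (b + (m + g * (β + 1))) := by
      obtain ⟨β', hβ'⟩ : ∃ β', β = β' + 1 := ⟨β - 1, by omega⟩
      have : β - 1 = β' := by omega
      rw [hs, hbβ, this, hβ']
      ring
    have h3 : Conn (SS m g A) (b + s) b (m + g * (β - 1)) :=
      Conn_of_Adj ⟨hb, hx, m + g * (β + 1), mem_Gm_of_mem hy, by rw [hsum]; ring⟩
    have h4 := Av_conn haN h3
    rw [hsum] at h4
    have h5 := Av_Ein H.hp H.hq h4
    rw [hbβ] at h5
    have h6 := pair_hole H.hm H.h0 H.hw H.hw1 H.hle H.hmin hβ h2 h5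
    rw [hr, Finset.mem_singleton, ← h2β] at h6
    have h7 : 1 + (β + β) ≡ 0 + (β + β) [MOD w] := by
      rw [Nat.ModEq]
      have : 1 + (β + β) = β + (β + 1) := by ring
      rw [this, zero_add, h6]
    have h8 : 1 ≡ 0 [MOD w] := Nat.ModEq.add_right_cancel' _ h7
    rw [Nat.ModEq, Nat.zero_mod, Nat.mod_eq_of_lt (by omega)] at h8
    omega
  have hcases : β - 1 = r ∨ β + 1 = r := by
    by_cases h1 : β - 1 ∈ A
    · right
      have h2 : β + 1 ∉ A := fun h => hnot ⟨h1, h⟩
      have h3 : β + 1 < w := by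
        refine lt_of_le_of_ne hβw ?_
        intro h
        exact h2 (by rw [h]; exact H.hw)
      have h4 : β + 1 ∈ Hol A w := mem_Hol.2 ⟨h3, h2⟩
      rw [hr, Finset.mem_singleton] at h4
      exact h4
    · left
      have h4 : β - 1 ∈ Hol A w := mem_Hol.2 ⟨by omega, h1⟩
      rw [hr, Finset.mem_singleton] at h4
      exact h4
  have h2β' : β + β = r ∨ β + β = r + w := by
    rcases Nat.lt_or_ge (β + β) w with h | h
    · left
      rw [Nat.mod_eq_of_lt h] at h2β
      exact h2β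
    · right
      have : (β + β) % w = β + β - w := by
        rw [Nat.mod_eq_sub_mod h, Nat.mod_eq_of_lt (by omega)]
      omega
  rcases hcases with h | h
  · right
    have hβ1 : β = w - 1 := by omega
    refine ⟨?_, by omega⟩
    rw [hs, hbβ, hβ1]; ring
  · left
    have hβ1 : β = 1 := by omega
    refine ⟨?_, by omega⟩
    rw [hs, hbβ, hβ1]; ring

/-- one hole, precise bound -/
theorem ZF_onehole' (hk : (Hol A w).card = 1) (ha : 3 ≤ (Ab A w).card) {K : ℕ}
    (hK : ∀ s, K ≤ s → Dv (SS m g A) (m + (m + g * w)) s) :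
    2 * (ZF (SS m g A) m (m + g * w) K).card ≤ w * (w - 1) + 1 ∨ (w = 4 ∧ A = {0, 1, 3, 4}) := by
  classical
  have : NeZero w := ⟨Nat.pos_iff_ne_zero.1 H.hw1⟩
  have h1 := two_ZF hK H.hp H.hq H.pos
  have h2 := H.card_Sm
  have h3 := H.card_hol
  have h7 : (HF (SS m g A) m (m + g * w) K).card ≤ 2 * (Hol A w).card :=
    HF_le_large H.h0 H.hw H.hle (by have := H.hw1; omega) hK
  have hle2 : ∀ s ∈ HF (SS m g A) m (m + g * w) K,
      (X1 (SS m g A) m (m + g * w) s).card + (X2 (SS m g A) m (m + g * w) s).card ≤ 2 := by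
    intro s hs
    have hs' := (mem_HF hK H.hp H.hq).1 hs
    obtain ⟨b, hb, hd⟩ := exists_dvd hs'.1.1 hs'.2.1
    have e1 := X_le_one (p := m) (q := m + g * w) hb hd
    have e2 := H.NF_le hK s hs
    have e3 : min ((Ab A w).card - 1) (Hol A w).card ≤ 1 := (min_le_right _ _).trans (by omega)
    omega
  obtain ⟨r, hr⟩ := Finset.card_eq_one.1 hk
  by_cases hsum : ∑ s ∈ HF (SS m g A) m (m + g * w) K,
      ((X1 (SS m g A) m (m + g * w) s).card + (X2 (SS m g A) m (m + g * w) s).card) ≤ 3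
  · left
    obtain ⟨b, hb⟩ : ∃ b, (Sm (SS m g A) m (m + g * w)).card = b := ⟨_, rfl⟩
    rw [hb] at h1 h2
    have h9 : w = b + 2 := by omega
    have h10 : w - 1 = b + 1 := by omega
    have h11 : w * (w - 1) = (b + 2) * (b + 1) := congr_arg₂ (· * ·) h9 h10
    rw [h11]
    nlinarith
  · right
    -- two distinct elements
    have hall : ∀ s ∈ HF (SS m g A) m (m + g * w) K,
        2 ≤ (X1 (SS m g A) m (m + g * w) s).card + (X2 (SS m g A) m (m + g * w) s).card := by
      intro s hs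
      by_contra hc
      push Not at hc
      apply hsum
      rw [← Finset.add_sum_erase _ _ hs]
      have e1 : ∑ s ∈ (HF (SS m g A) m (m + g * w) K).erase s,
          ((X1 (SS m g A) m (m + g * w) s).card + (X2 (SS m g A) m (m + g * w) s).card)
          ≤ ((HF (SS m g A) m (m + g * w) K).erase s).card • 2 := by
        apply Finset.sum_le_card_nsmul
        intro x hx
        exact hle2 x (Finset.mem_of_mem_erase hx)
      rw [smul_eq_mul, Finset.card_erase_of_mem hs] at e1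
      omega
    have hcard : 2 ≤ (HF (SS m g A) m (m + g * w) K).card := by
      by_contra hc
      push Not at hc
      apply hsum
      have e1 : ∑ s ∈ HF (SS m g A) m (m + g * w) K,
          ((X1 (SS m g A) m (m + g * w) s).card + (X2 (SS m g A) m (m + g * w) s).card)
          ≤ (HF (SS m g A) m (m + g * w) K).card • 2 := Finset.sum_le_card_nsmul _ _ _ hle2
      rw [smul_eq_mul] at e1
      omega
    obtain ⟨s1, hs1, s2, hs2, hne⟩ := Finset.one_lt_card.1 (by omega :
      1 < (HF (SS m g A) m (m + g * w) K).card)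
    have f1 := (mem_HF hK H.hp H.hq).1 hs1
    have f2 := (mem_HF hK H.hp H.hq).1 hs2
    have g1 := H.onehole_elt hr ha f1.1 f1.2.1 f1.2.2 (hall _ hs1)
    have g2 := H.onehole_elt hr ha f2.1 f2.2.1 f2.2.2 (hall _ hs2)
    have hw4 : w = 4 ∧ r = 2 := by
      rcases g1 with g1 | g1 <;> rcases g2 with g2 | g2
      · exact absurd (g1.1.trans g2.1.symm) hne
      · exact ⟨by omega, by omega⟩
      · exact ⟨by omega, by omega⟩
      · exact absurd (g1.1.trans g2.1.symm) hne
    obtain ⟨hw4, hr2⟩ := hw4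
    refine ⟨hw4, ?_⟩
    rw [hw4, hr2] at hr
    have hmem : ∀ x, x < 4 → (x ∉ A ↔ x = 2) := by
      intro x hx
      have : x ∈ Hol A 4 ↔ x ∈ ({2} : Finset ℕ) := by rw [hr]
      rw [mem_Hol, Finset.mem_singleton] at this
      constructor
      · intro h; exact this.1 ⟨hx, h⟩
      · intro h; exact (this.2 h).2
    ext x
    simp only [Finset.mem_insert, Finset.mem_singleton]
    constructor
    · intro hx
      have h4 := H.hle x hx
      have h5 : x ≠ 2 := by
        intro h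
        have := (hmem 2 (by norm_num)).2 rfl
        exact this (h ▸ hx)
      omega
    · intro hx
      rcases hx with rfl | rfl | rfl | rfl
      · exact H.h0
      · by_contra hc
        have := (hmem 1 (by norm_num)).1 hc
        omega
      · by_contra hc
        have := (hmem 3 (by norm_num)).1 hc
        omega
      · have := H.hw
        rw [hw4] at this
        exact this

/-- summary of the upper bounds -/
theorem upper_hole (hk : 1 ≤ (Hol A w).card) :
    Submodule.spanRank (RingHom.ker (ev (fS (SS m g A))))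
      ≤ ((w * (w - 1) / 2 + 1 : ℕ) : Cardinal) ∨
    (w = 4 ∧ A = {0, 1, 3, 4}) := by
  obtain ⟨N, hN⟩ := H.hN
  have hK : ∀ s, N + m + (m + g * w) ≤ s → Dv (SS m g A) (m + (m + g * w)) s := fun s hs =>
    ⟨s - (m + (m + g * w)), hN _ (by omega), by omega⟩
  have h1 := spanRank_le_ZF H.pos H.hp H.hq hN
  have key : ∀ z : ℕ, 2 * z ≤ w * (w - 1) + 1 → z + 1 ≤ w * (w - 1) / 2 + 1 := by
    intro z hz
    have h2 : Even (w * (w - 1)) := Nat.even_mul_pred_self w
    obtain ⟨y, hy⟩ := h2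
    omega
  have h3 := H.card_hol
  have h4 : 0 < (Ab A w).card := Finset.card_pos.2 ⟨0, zero_mem_Ab H.h0⟩
  -- the reduction of A is not trivial
  have h5 : 2 ≤ (Ab A w).card := by
    by_contra hc
    push Not at hc
    have hc1 : (Ab A w).card = 1 := by omega
    obtain ⟨x, hx⟩ := Finset.card_eq_one.1 hc1
    have hx0 : x = 0 := by
      have := zero_mem_Ab (w := w) H.h0
      rw [hx, Finset.mem_singleton] at this
      exact this.symm
    have hgen := H.hgen
    rw [hx, hx0, Finset.coe_singleton, AddSubgroup.closure_singleton_zero] at hgen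
    have : (1 : ZMod w) ∈ (⊤ : AddSubgroup (ZMod w)) := AddSubgroup.mem_top _
    rw [← hgen, AddSubgroup.mem_bot] at this
    have h6 : ((1 : ℕ) : ZMod w) = 0 := by rw [Nat.cast_one]; exact this
    rw [ZMod.natCast_eq_zero_iff] at h6
    have := Nat.le_of_dvd one_pos h6
    omega
  rcases Nat.lt_or_ge (Ab A w).card 3 with h6 | h6
  · left
    refine h1.trans ?_
    exact_mod_cast key _ (H.ZF_three (by omega) hk hK)
  · rcases Nat.lt_or_ge (Hol A w).card 2 with h7 | h7
    · rcases H.ZF_onehole' (by omega) h6 hK with h8 | h8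
      · left
        refine h1.trans ?_
        exact_mod_cast key _ h8
      · right
        exact h8
    · left
      refine h1.trans ?_
      exact_mod_cast key _ (H.ZF_generic h6 h7 hK)

theorem upper_nohole (hk : (Hol A w).card = 0) :
    Submodule.spanRank (RingHom.ker (ev (fS (SS m g A))))
      ≤ (((w + 1) * w / 2 : ℕ) : Cardinal) := by
  obtain ⟨N, hN⟩ := H.hN
  have hK : ∀ s, N + m + (m + g * w) ≤ s → Dv (SS m g A) (m + (m + g * w)) s := fun s hs =>
    ⟨s - (m + (m + g * w)), hN _ (by omega), by omega⟩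
  have h1 := spanRank_le_ZF H.pos H.hp H.hq hN
  refine h1.trans ?_
  have h2 := H.ZF_nohole hk hK
  exact_mod_cast (by omega)

end Hyp

/-- the exceptional case, rough bound -/
theorem upper_exc (H : Hyp m g 4 ({0, 1, 3, 4} : Finset ℕ)) :
    Submodule.spanRank (RingHom.ker (ev (fS (SS m g {0, 1, 3, 4})))) ≤ ((8 : ℕ) : Cardinal) := by
  obtain ⟨N, hN⟩ := H.hN
  have hK : ∀ s, N + m + (m + g * 4) ≤ s →
      Dv (SS m g {0, 1, 3, 4}) (m + (m + g * 4)) s := fun s hs =>
    ⟨s - (m + (m + g * 4)), hN _ (by omega), by omega⟩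
  have h1 := spanRank_le_ZF H.pos H.hp H.hq hN
  have hk : (Hol {0, 1, 3, 4} 4).card = 1 := by decide
  have h3 := H.card_hol
  have h2 := H.ZF_onehole hk (by omega) hK
  refine h1.trans ?_
  exact_mod_cast (by omega)

/-- the exceptional case, precise bound -/
theorem upper_exc' {n : ℕ} (H : Hyp (4 * n) 1 4 ({0, 1, 3, 4} : Finset ℕ)) :
    Submodule.spanRank (RingHom.ker (ev (fS (SS (4 * n) 1 {0, 1, 3, 4}))))
      ≤ ((7 : ℕ) : Cardinal) := by
  obtain ⟨N, hN⟩ := H.hN
  have hK : ∀ s, N + 4 * n + (4 * n + 1 * 4) ≤ s →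
      Dv (SS (4 * n) 1 {0, 1, 3, 4}) (4 * n + (4 * n + 1 * 4)) s := fun s hs =>
    ⟨s - (4 * n + (4 * n + 1 * 4)), hN _ (by omega), by omega⟩
  have hm := H.hm
  have hn : 0 < n := by omega
  obtain ⟨n', hn'⟩ : ∃ n', n = n' + 1 := ⟨n - 1, by omega⟩
  have hr : 4 * n + 1 ∈ SS (4 * n) 1 {0, 1, 3, 4} := mem_SS.2 ⟨1, by decide, by ring⟩
  have hpk : ∀ k : ℕ, k * (4 * n) ∈ Gm (SS (4 * n) 1 {0, 1, 3, 4}) := fun k => by
    rw [← smul_eq_mul]; exact (Gm _).nsmul_mem (mem_Gm_of_mem H.hp) k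
  have hqk : ∀ k : ℕ, k * (4 * n + 1 * 4) ∈ Gm (SS (4 * n) 1 {0, 1, 3, 4}) := fun k => by
    rw [← smul_eq_mul]; exact (Gm _).nsmul_mem (mem_Gm_of_mem H.hq) k
  have hex : ∃ s, Dv (SS (4 * n) 1 {0, 1, 3, 4}) (4 * n) s ∧
      Dv (SS (4 * n) 1 {0, 1, 3, 4}) (4 * n + 1 * 4) s ∧
      ¬ Dv (SS (4 * n) 1 {0, 1, 3, 4}) (4 * n + (4 * n + 1 * 4)) s ∧
      Conn (SS (4 * n) 1 {0, 1, 3, 4}) s (4 * n + 1 * 4) (4 * n) := by
    refine ⟨(n + 1) * (4 * n) + (4 * n + 1), ?_, ?_, ?_, ?_⟩
    · exact ⟨n * (4 * n) + (4 * n + 1), (Gm _).add_mem (hpk _) (mem_Gm_of_mem hr), by ring⟩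
    · refine ⟨n' * (4 * n + 1 * 4) + (4 * n + 1), (Gm _).add_mem (hqk _) (mem_Gm_of_mem hr), ?_⟩
      rw [hn']; ring
    · rintro ⟨γ, hγ, hs⟩
      obtain ⟨d, t, ht, hdt⟩ := exists_dA hγ
      have htw := dA_le (w := 4) (by
        intro α hα
        simp only [Finset.mem_insert, Finset.mem_singleton] at hα
        omega) ht
      rw [hdt] at hs
      have hs' : n * (4 * n) = d * (4 * n) + t + 3 := by nlinarith
      rcases Nat.lt_or_ge d n with h | h
      · have h1 : (d + 1) * (4 * n) ≤ n * (4 * n) := Nat.mul_le_mul_right _ h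
        have h2 : (d + 1) * (4 * n) = d * (4 * n) + 4 * n := by ring
        omega
      · have h1 : n * (4 * n) ≤ d * (4 * n) := Nat.mul_le_mul_right _ h
        omega
    · refine Conn_trans (b := 4 * n + 1) (Conn_of_Adj ⟨H.hq, hr, n' * (4 * n + 1 * 4), hqk _, ?_⟩)
        (Conn_of_Adj ⟨hr, H.hp, n * (4 * n), hpk _, ?_⟩)
      · rw [hn']; ring
      · ring
  have h1 := spanRank_le_ZF' H.pos H.hp H.hq hN hex
  have hk : (Hol {0, 1, 3, 4} 4).card = 1 := by decide
  have h3 := H.card_hol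
  have h2 := H.ZF_onehole hk (by omega) hK
  refine h1.trans ?_
  exact_mod_cast (by omega)

end Upper

end Pool.Agent.H51c
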